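import Pool.Agent.Y707.PC.Gen

/-! **The class group of a linear pencil.** -/

set_option autoImplicit false
set_option maxHeartbeats 400000

namespace Pool.Agent.Y707.PC

open Polynomial Pool.Agent.TH943.HJ

section
variable {M L : Type} [Field M] [Field L] [Algebra M L] {a : M[X]} {ω : L}
  {ι : Type} [Fintype ι] {α : ι → M}

/-- the base points of the pencil -/
noncomputable def hh (α : ι → M) : M[X] := ∏ j, (X - C (α j))

theorem hh_monic (α : ι → M) : (hh α).Monic := monic_prod_of_monic _ _ fun i _ => monic_X_sub_C _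

theorem hh_ne (α : ι → M) : hh α ≠ 0 := (hh_monic α).ne_zero

theorem hh_natDegree (α : ι → M) : (hh α).natDegree = Fintype.card ι := by
  unfold hh
  rw [natDegree_prod_of_monic _ _ fun i _ => monic_X_sub_C _]
  simp

theorem up_X_sub (c : M) : (up (X - C c) : L[X]) = X - C (algebraMap M L c) := by
  rw [up_def, Polynomial.map_sub, map_X, Polynomial.map_C]

theorem up_prod {κ : Type} (s : Finset κ) (p : κ → M[X]) :
    (up (∏ j ∈ s, p j) : L[X]) = ∏ j ∈ s, up (p j) := Polynomial.map_prod _ _ _

theorem up_hh (α : ι → M) : (up (hh α) : L[X]) = ∏ j, (X - C (algebraMap M L (α j))) := by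
  unfold hh
  rw [up_prod]
  exact Finset.prod_congr rfl fun j _ => up_X_sub _

theorem ff_eval (j : ι) : (ff a (hh α) ω).eval (algebraMap M L (α j)) =
    algebraMap M L (a.eval (α j)) := by
  rw [ff_def, up_hh, eval_add, eval_mul, eval_C, eval_prod,
    Finset.prod_eq_zero (Finset.mem_univ j) (by rw [eval_sub, eval_X, eval_C, sub_self]), mul_zero,
    add_zero, up_def, eval_map_algebraMap, aeval_algebraMap_apply, coe_aeval_eq_eval]

theorem dvd_of_eval {F : L[X]} {β c : L} (h : F.eval β = c ^ 2) : X - C β ∣ F - C c ^ 2 := by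
  rw [dvd_iff_isRoot, IsRoot.def, eval_sub, eval_pow, eval_C, h, sub_self]

/-- **The class group of a linear pencil is free, with a basis given by the rational base points.** -/
theorem alg_main (h2 : (2 : L) ≠ 0) (hω : Transcendental M ω)
    (hL : ∀ z : L, ∃ p q : M[X], aeval ω q ≠ 0 ∧ z * aeval ω q = aeval ω p)
    (hα : Function.Injective α) (ha : Odd a.natDegree) (hd : Fintype.card ι < a.natDegree)
    (haα : ∀ j, a.eval (α j) ≠ 0) (hsq : Squarefree (ff a (hh α) ω))
    [IsDomain (CR (ff a (hh α) ω))] :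
    Module.Free ℤ (Additive (ClassGroup (CR (ff a (hh α) ω)))) ∧
    Module.Finite ℤ (Additive (ClassGroup (CR (ff a (hh α) ω)))) ∧
    Module.finrank ℤ (Additive (ClassGroup (CR (ff a (hh α) ω)))) =
      Nat.card {j // IsSquare (algebraMap M L (a.eval (α j)))} := by
  classical
  have hd' : (hh α).natDegree < a.natDegree := by rw [hh_natDegree]; exact hd
  obtain ⟨F, hF⟩ : ∃ F, F = ff a (hh α) ω := ⟨_, rfl⟩
  have hodd : Odd F.natDegree := by rw [hF]; exact (odd_ff ha hd').1
  have hded : IsDedekindDomain (CR (ff a (hh α) ω)) := dedekind h2 (hF ▸ hodd) hsq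
  -- the rational base points
  let s : Type := {j // IsSquare (algebraMap M L (a.eval (α j)))}
  have hc : ∀ j : s, ∃ c : L, (ff a (hh α) ω).eval (algebraMap M L (α j.1)) = c ^ 2 := by
    rintro ⟨j, c, hc⟩
    exact ⟨c, by rw [ff_eval, hc, sq]⟩
  choose c hc using hc
  have hc0 : ∀ j : s, c j ≠ 0 := by
    intro j h0
    have h1 := hc j
    rw [h0, ff_eval] at h1
    apply haα j.1
    apply (algebraMap M L).injective
    rw [h1, map_zero]
    ring
  let g : s → L[X] := fun j => X - C (algebraMap M L (α j.1))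
  let w : s → L[X] := fun j => C (c j)
  have hP : Pts (ff a (hh α) ω) g w := by
    refine ⟨fun j => monic_X_sub_C _, fun j => dvd_of_eval (hc j), fun j => ?_, fun i j hij => ?_⟩
    · exact ⟨0, C (c j)⁻¹, by rw [zero_mul, zero_add, ← C_mul, inv_mul_cancel₀ (hc0 j), C_1]⟩
    · apply pairwise_coprime_X_sub_C (algebraMap M L).injective
      intro h0
      exact hij (Subtype.ext (hα h0))
  let v : s → Additive (ClassGroup (CR (ff a (hh α) ω))) := fun j =>
    Additive.ofMul (cls (ff a (hh α) ω) (g j) (w j) (hP.monic j).ne_zero)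
  -- independence
  have hli : LinearIndependent ℤ v := by
    rw [Fintype.linearIndependent_iff]
    intro z hz j
    have h1 : ∏ i, cls (ff a (hh α) ω) (g i) (w i) (hP.monic i).ne_zero ^ z i = 1 := by
      have h3 : Additive.ofMul (∏ i, cls (ff a (hh α) ω) (g i) (w i)
          (hP.monic i).ne_zero ^ z i) = 0 := by
        rw [ofMul_prod, ← hz]
        exact Finset.sum_congr rfl fun i _ => ofMul_zpow _ _
      exact h3
    let t : s → L[X] := fun i => if 0 ≤ z i then w i else -w i
    have ht : ∀ i, (0 ≤ z i → t i = w i) ∧ (z i < 0 → t i = -w i) := fun i =>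
      ⟨fun h => if_pos h, fun h => if_neg (not_le.2 h)⟩
    have htw : ∀ i, t i = w i ∨ t i = -w i := fun i => by
      by_cases h : 0 ≤ z i
      · exact Or.inl (if_pos h)
      · exact Or.inr (if_neg h)
    have hPt := hP.sign t htw
    have hne : JJ (ff a (hh α) ω) g t (fun i => (z i).natAbs) ∈
        nonZeroDivisors (Ideal (CR (ff a (hh α) ω))) :=
      mem_nonZeroDivisors_iff_ne_zero.2 (JJ_ne (fun i => (hP.monic i).ne_zero) t _)
    rw [prod_cls h2 hP z t ht hne, ClassGroup.mk0_eq_one_iff] at h1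
    obtain ⟨b, hb⟩ := h1
    rw [Ideal.submodule_span_eq] at hb
    obtain ⟨W, V, rfl⟩ := exists_el b
    obtain ⟨d, hd0, hN⟩ := norm_eq h2 hPt _ hb
    have hcop := prim h2 hPt _ hb
    have hG : (up (∏ i : s, (X - C (α i.1)) ^ (z i).natAbs : M[X]) : L[X]) =
        ∏ i, g i ^ (z i).natAbs := by
      rw [up_prod]
      refine Finset.prod_congr rfl fun i _ => ?_
      rw [up_pow, up_X_sub]
    have hGm : (∏ i : s, (X - C (α i.1)) ^ (z i).natAbs : M[X]).Monic :=
      monic_prod_of_monic _ _ fun i _ => (monic_X_sub_C _).pow _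
    have hV : V = 0 := by
      refine rel_main hω hL ha hd' (hh_ne α) hGm (c := d) (W := W) hd0 ?_
      rw [hG]
      exact hN
    rw [hV, isCoprime_zero_right] at hcop
    have hu : IsUnit (∏ i, g i ^ (z i).natAbs) := by
      have h4 : IsUnit (C d * ∏ i, g i ^ (z i).natAbs) := by
        have e : C d * ∏ i, g i ^ (z i).natAbs = W ^ 2 := by
          refine hN.symm.trans ?_
          rw [hV]
          ring
        rw [e]
        exact hcop.pow 2
      exact isUnit_of_mul_isUnit_right h4
    have h5 := natDegree_eq_zero_of_isUnit hu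
    have h6 : (∏ i, g i ^ (z i).natAbs).natDegree = ∑ i, (z i).natAbs := by
      rw [natDegree_prod_of_monic _ _ fun i _ => (monic_X_sub_C _).pow _]
      refine Finset.sum_congr rfl fun i _ => ?_
      rw [natDegree_pow, natDegree_X_sub_C, mul_one]
    rw [h6] at h5
    have h7 := (Finset.sum_eq_zero_iff.1 h5) j (Finset.mem_univ j)
    exact Int.natAbs_eq_zero.1 h7
  -- generation
  have hsp : ⊤ ≤ Submodule.span ℤ (Set.range v) := by
    let H : Subgroup (ClassGroup (CR (ff a (hh α) ω))) :=
      { carrier := {x | Additive.ofMul x ∈ Submodule.span ℤ (Set.range v)}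
        mul_mem' := fun {x y} hx hy => by
          have hx' : Additive.ofMul x ∈ Submodule.span ℤ (Set.range v) := hx
          have hy' : Additive.ofMul y ∈ Submodule.span ℤ (Set.range v) := hy
          show Additive.ofMul (x * y) ∈ Submodule.span ℤ (Set.range v)
          rw [ofMul_mul]
          exact Submodule.add_mem _ hx' hy'
        one_mem' := by
          show Additive.ofMul 1 ∈ Submodule.span ℤ (Set.range v)
          rw [ofMul_one]
          exact Submodule.zero_mem _
        inv_mem' := fun {x} hx => by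
          have hx' : Additive.ofMul x ∈ Submodule.span ℤ (Set.range v) := hx
          show Additive.ofMul x⁻¹ ∈ Submodule.span ℤ (Set.range v)
          rw [ofMul_inv]
          exact Submodule.neg_mem _ hx' }
    have hHtop : H = ⊤ := by
      apply gen hω hL ha hd' (hh_ne α)
      intro 𝔭 h0 hp hmem
      rw [up_hh, map_prod] at hmem
      obtain ⟨j, -, hj⟩ := (hp.prod_mem_iff).1 hmem
      by_cases hjs : IsSquare (algebraMap M L (a.eval (α j)))
      · have hcls : cls (ff a (hh α) ω) (g ⟨j, hjs⟩) (w ⟨j, hjs⟩) (hP.monic ⟨j, hjs⟩).ne_zero ∈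
            H := by
          show v ⟨j, hjs⟩ ∈ Submodule.span ℤ (Set.range v)
          exact Submodule.subset_span ⟨⟨j, hjs⟩, rfl⟩
        rcases prime_split hp hj (hc ⟨j, hjs⟩) with h | h
        · have e : (⟨𝔭, h0⟩ : nonZeroDivisors (Ideal (CR (ff a (hh α) ω)))) =
              idl (ff a (hh α) ω) (g ⟨j, hjs⟩) (w ⟨j, hjs⟩) (hP.monic ⟨j, hjs⟩).ne_zero :=
            Subtype.ext h
          rw [e]
          exact hcls
        · have e : (⟨𝔭, h0⟩ : nonZeroDivisors (Ideal (CR (ff a (hh α) ω)))) =
              idl (ff a (hh α) ω) (g ⟨j, hjs⟩) (-w ⟨j, hjs⟩) (hP.monic ⟨j, hjs⟩).ne_zero :=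
            Subtype.ext h
          rw [e]
          have e2 := cls_neg h2 (hP.monic ⟨j, hjs⟩).ne_zero (hP.dvd ⟨j, hjs⟩) (hP.cop ⟨j, hjs⟩)
          have e3 : ClassGroup.mk0 (idl (ff a (hh α) ω) (g ⟨j, hjs⟩) (-w ⟨j, hjs⟩)
              (hP.monic ⟨j, hjs⟩).ne_zero) = (cls (ff a (hh α) ω) (g ⟨j, hjs⟩) (w ⟨j, hjs⟩)
              (hP.monic ⟨j, hjs⟩).ne_zero)⁻¹ := e2
          rw [e3]
          exact inv_mem hcls
      · have h := prime_inert hp hj (by rw [ff_eval]; exact hjs)
        have e : ClassGroup.mk0 ⟨𝔭, h0⟩ = 1 := by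
          rw [ClassGroup.mk0_eq_one_iff]
          exact ⟨_, h⟩
        rw [e]
        exact one_mem H
    intro x _
    have hx : Additive.toMul x ∈ H := by
      rw [hHtop]
      exact Subgroup.mem_top _
    exact hx
  have b := Module.Basis.mk hli hsp
  refine ⟨Module.Free.of_basis b, Module.Finite.of_basis b, ?_⟩
  rw [Module.finrank_eq_card_basis b, Nat.card_eq_fintype_card]

end

end Pool.Agent.Y707.PC
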