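import Pool.Agent.Y707.PC.Rank
import Pool.Agent.Y707.RX.Glue

/-! **Linear pencils of hyperelliptic curves over multiquadratic function fields.** -/

set_option autoImplicit false
set_option maxHeartbeats 400000

namespace Pool.Agent.Y707.PC

open Polynomial Finset NumberField IsDedekindDomain
open Pool.Agent.W353.TD (rank)
open Pool.Agent.Y707.RX (Continues)

section
variable {K : Type} [Field K] [NumberField K] {k l r : ℕ}

/-- The number of the `j` such that `a(α_j)` becomes a square in the function field over `E` of the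
variety `y_i ^ 2 = G_i(x)`: for some `S` the product of `a(α_j)` and the `G_i` with `i` in `S` is a
square over `E`. -/
noncomputable def count (G : Fin l → MvPolynomial (Fin k) (𝓞 K))
    (a : (MvPolynomial (Fin k) (𝓞 K))[X]) (α : Fin r → MvPolynomial (Fin k) (𝓞 K))
    (E : IntermediateField K (AlgebraicClosure K)) : ℕ :=
  Nat.card {j : Fin r // ∃ S : Finset (Fin l), IsSquare
    (MvPolynomial.map ((algebraMap K E).comp (algebraMap (𝓞 K) K))
      (a.eval (α j) * ∏ i ∈ S, G i))}

/-- The value at `ξ` of the polynomials over `𝓞_K`, for `ξ` with coordinates in an extension of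
`E`. -/
noncomputable def valueAt (E : IntermediateField K (AlgebraicClosure K)) {M : Type} [Field M]
    [Algebra E M] (ξ : Fin k → M) : MvPolynomial (Fin k) (𝓞 K) →+* M :=
  MvPolynomial.eval₂Hom ((algebraMap E M).comp ((algebraMap K E).comp (algebraMap (𝓞 K) K))) ξ

/-- The polynomial `a(ξ, X) + w ∏ (X - α_j(ξ))` over the field `M(w)`. -/
noncomputable def generic (a : (MvPolynomial (Fin k) (𝓞 K))[X])
    (α : Fin r → MvPolynomial (Fin k) (𝓞 K)) (E : IntermediateField K (AlgebraicClosure K))
    {M : Type} [Field M] [Algebra E M] (ξ : Fin k → M) : (RatFunc M)[X] :=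
  pen a α ((algebraMap M (RatFunc M)).comp (valueAt E ξ)) RatFunc.X

/-- The conditions on the data: no product of some of the `G_i` is a constant times a square, `a` is
monic of degree `2 g + 1` in `X`, and there are at most `2 g` functions `α_j`, they are distinct, and
the `a(α_j)` are nonzero. -/
structure IsPencil (g : ℕ) (G : Fin l → MvPolynomial (Fin k) (𝓞 K))
    (a : (MvPolynomial (Fin k) (𝓞 K))[X]) (α : Fin r → MvPolynomial (Fin k) (𝓞 K)) : Prop where
  independent : ∀ S : Finset (Fin l), S.Nonempty → ¬ IsConstSq (∏ i ∈ S, G i)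
  monic : a.Monic
  degree : a.natDegree = 2 * g + 1
  number : r ≤ 2 * g
  distinct : Function.Injective α
  nonzero : ∀ j, a.eval (α j) ≠ 0

/-- `M = E(ξ, η)` is the function field over `E` of the variety `y_i ^ 2 = G_i(x)`. -/
def IsFunctionField (G : Fin l → MvPolynomial (Fin k) (𝓞 K))
    (E : IntermediateField K (AlgebraicClosure K)) {M : Type} [Field M] [Algebra E M]
    (ξ : Fin k → M) (η : Fin l → M) : Prop :=
  AlgebraicIndependent E ξ ∧ (∀ i, η i ^ 2 = valueAt E ξ (G i)) ∧
    IntermediateField.adjoin E (Set.range ξ ∪ Set.range η) = ⊤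

/-- `Y ^ 2 = f(X)` is a smooth curve of genus `g`, with one point at infinity: `f` is monic and
separable of degree `2 g + 1`. -/
def IsSmoothCurve {L : Type} [Field L] (g : ℕ) (f : L[X]) : Prop :=
  f.Monic ∧ f.natDegree = 2 * g + 1 ∧ f.Separable

/-- The class group of the ring `L[X, Y] / (Y ^ 2 - f(X))` is a free abelian group of rank `n`.
(For a smooth curve with one point at infinity this is the group `Pic⁰` of the curve.) -/
def PicFreeOfRank {L : Type} [Field L] (f : L[X]) (n : ℕ) : Prop :=
  ∃ _ : IsDomain (AdjoinRoot (X ^ 2 - C f : L[X][X])),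
    Module.Free ℤ (Additive (ClassGroup (AdjoinRoot (X ^ 2 - C f : L[X][X])))) ∧
    Module.Finite ℤ (Additive (ClassGroup (AdjoinRoot (X ^ 2 - C f : L[X][X])))) ∧
    Module.finrank ℤ (Additive (ClassGroup (AdjoinRoot (X ^ 2 - C f : L[X][X])))) = n

variable {G : Fin l → MvPolynomial (Fin k) (𝓞 K)}
  {a : (MvPolynomial (Fin k) (𝓞 K))[X]} {α : Fin r → MvPolynomial (Fin k) (𝓞 K)} {g : ℕ}

theorem ne_of_ind (hG : ∀ S : Finset (Fin l), S.Nonempty → ¬ IsConstSq (∏ i ∈ S, G i)) (i : Fin l) :
    G i ≠ 0 := by
  intro h0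
  apply hG {i} (singleton_nonempty i)
  rw [prod_singleton, h0]
  exact ⟨1, 1, one_ne_zero, one_ne_zero, 0, by ring⟩

theorem analytic (hG : ∀ S : Finset (Fin l), S.Nonempty → ¬ IsConstSq (∏ i ∈ S, G i))
    (ha : a.Monic) (hd : a.natDegree = 2 * g + 1) (hr : r ≤ 2 * g)
    (haα : ∀ j, a.eval (α j) ≠ 0) (hα : Function.Injective α)
    (E : IntermediateField K (AlgebraicClosure K)) [NumberField E]
    (R : Finset (HeightOneSpectrum (𝓞 K))) :
    Continues (pencil g G a α) R E (count G a α E) := by
  obtain ⟨δ, y, hy, hy0, hδ, hP⟩ := isPartOf ha hd hr haα hα (ne_of_ind hG)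
  have h := Pool.Agent.Y707.RX.full (smooth (G := G) (α := α) ha hd hr R) (bounded ha hd hr R) hP E
  rw [rank_eq haα (ne_of_ind hG) hG hδ E] at h
  exact h

theorem valueAt_eq (E : IntermediateField K (AlgebraicClosure K)) {M : Type} [Field M]
    [Algebra E M] (ξ : Fin k → M) : valueAt E ξ = (MvPolynomial.aeval ξ).toRingHom.comp
      (MvPolynomial.map ((algebraMap K E).comp (algebraMap (𝓞 K) K))) := by
  apply MvPolynomial.ringHom_ext
  · intro z
    simp [valueAt]
  · intro i
    simp [valueAt]

theorem algebraic (hG : ∀ S : Finset (Fin l), S.Nonempty → ¬ IsConstSq (∏ i ∈ S, G i))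
    (ha : a.Monic) (hd : a.natDegree = 2 * g + 1) (hr : r ≤ 2 * g)
    (haα : ∀ j, a.eval (α j) ≠ 0) (hα : Function.Injective α)
    (E : IntermediateField K (AlgebraicClosure K)) {M : Type} [Field M] [Algebra E M]
    {ξ : Fin k → M} (hξ : AlgebraicIndependent E ξ) {η : Fin l → M}
    (hη : ∀ i, η i ^ 2 = valueAt E ξ (G i))
    (htop : IntermediateField.adjoin E (Set.range ξ ∪ Set.range η) = ⊤) :
    (generic a α E ξ).Monic ∧ (generic a α E ξ).natDegree = 2 * g + 1 ∧
    (generic a α E ξ).Separable ∧
    ∃ _ : IsDomain (AdjoinRoot (X ^ 2 - C (generic a α E ξ) : (RatFunc M)[X][X])),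
      Module.Free ℤ (Additive (ClassGroup (AdjoinRoot
        (X ^ 2 - C (generic a α E ξ) : (RatFunc M)[X][X])))) ∧
      Module.Finite ℤ (Additive (ClassGroup (AdjoinRoot
        (X ^ 2 - C (generic a α E ξ) : (RatFunc M)[X][X])))) ∧
      Module.finrank ℤ (Additive (ClassGroup (AdjoinRoot
        (X ^ 2 - C (generic a α E ξ) : (RatFunc M)[X][X])))) = count G a α E := by
  set ι : 𝓞 K →+* E := (algebraMap K E).comp (algebraMap (𝓞 K) K) with hι
  have hιi : Function.Injective ι := (algebraMap K E).injective.comp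
    (IsFractionRing.injective (𝓞 K) K)
  have hmi : Function.Injective (MvPolynomial.map (σ := Fin k) ι) :=
    MvPolynomial.map_injective _ hιi
  have hinj : Function.Injective (MvPolynomial.aeval ξ : MvPolynomial (Fin k) E →ₐ[E] M) := hξ
  have hv : ∀ p, valueAt E ξ p = MvPolynomial.aeval ξ (MvPolynomial.map ι p) := by
    intro p
    rw [valueAt_eq]
    rfl
  have hvinj : Function.Injective (valueAt E ξ) := by
    intro p q h
    rw [hv, hv] at h
    exact hmi (hinj h)
  have hE0 : CharZero E := charZero_of_injective_algebraMap (algebraMap K E).injective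
  have hM0 : CharZero M := charZero_of_injective_algebraMap (algebraMap E M).injective
  have hdeg := pen_deg (α := α) (ψ := (algebraMap M (RatFunc M)).comp (valueAt E ξ))
    (w := RatFunc.X) ha hd hr
  have hff : generic a α E ξ = ff ((a.map (MvPolynomial.map ι)).map (MvPolynomial.aeval ξ).toRingHom)
      (hh fun j => MvPolynomial.aeval ξ (MvPolynomial.map ι (α j))) RatFunc.X := by
    unfold generic pen ff
    rw [up_hh, up_def, Polynomial.map_map, Polynomial.map_map, valueAt_eq, ← hι]
    rfl
  have hevα : ∀ j, (a.map (MvPolynomial.map ι)).eval (MvPolynomial.map ι (α j)) =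
      MvPolynomial.map ι (a.eval (α j)) := fun j => eval_map_apply _ _
  have hne : ∀ j, (a.map (MvPolynomial.map ι)).eval (MvPolynomial.map ι (α j)) ≠ 0 := by
    intro j h0
    rw [hevα] at h0
    exact haα j (hmi (by rw [h0, map_zero]))
  have hnd : (a.map (MvPolynomial.map (σ := Fin k) ι)).natDegree = 2 * g + 1 := by
    rw [ha.natDegree_map, hd]
  have halg := alg_top (E := E) (M := M) (a := a.map (MvPolynomial.map ι)) (ha.map _)
    (by rw [hnd]; exact ⟨g, rfl⟩) (α := fun j => MvPolynomial.map ι (α j))
    (fun i j hij => hα (hmi hij)) (by rw [hnd]; omega) hne (g := fun i => MvPolynomial.map ι (G i))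
    (fun i h0 => ne_of_ind hG i (hmi (by rw [h0, map_zero]))) hξ (η := η)
    (fun i => by rw [hη i, hv]) htop hff
  have hsep : (generic a α E ξ).Separable := by
    rw [hff]
    refine sep_ff (transc_X (M := M)) (hh_coprime fun j => ?_) ?_ ?_
    · have h1 : (((a.map (MvPolynomial.map ι)).map (MvPolynomial.aeval ξ).toRingHom)).eval
          (MvPolynomial.aeval ξ (MvPolynomial.map ι (α j))) =
          MvPolynomial.aeval ξ ((a.map (MvPolynomial.map ι)).eval (MvPolynomial.map ι (α j))) :=
        eval_map_apply _ _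
      rw [h1]
      intro h0
      exact hne j (hinj (by rw [h0, map_zero]))
    · rw [(ha.map _).natDegree_map, hnd]
      omega
    · rw [← hff]
      exact hdeg.1.ne_zero
  refine ⟨hdeg.1, hdeg.2, hsep, ?_⟩
  obtain ⟨hdom, h1, h2, h3⟩ := halg
  refine ⟨hdom, h1, h2, h3.trans ?_⟩
  unfold count
  refine Nat.card_congr (Equiv.subtypeEquivRight fun j => ?_)
  rw [hevα]
  simp only [map_mul, map_prod]
  exact Iff.rfl

/-- the function field exists -/
theorem exists_field (G : Fin l → MvPolynomial (Fin k) (𝓞 K))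
    (E : IntermediateField K (AlgebraicClosure K)) :
    ∃ (M : Type) (_ : Field M) (_ : Algebra E M) (ξ : Fin k → M) (η : Fin l → M),
      AlgebraicIndependent E ξ ∧ (∀ i, η i ^ 2 = valueAt E ξ (G i)) ∧
      IntermediateField.adjoin E (Set.range ξ ∪ Set.range η) = ⊤ := by
  let A := MvPolynomial (Fin k) E
  let Ω := AlgebraicClosure (FractionRing A)
  let x : Fin k → Ω := fun i => algebraMap A Ω (MvPolynomial.X i)
  have hx : AlgebraicIndependent E x := by
    have h1 : Function.Injective (algebraMap A Ω) := by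
      have : algebraMap A Ω = (algebraMap (FractionRing A) Ω).comp (algebraMap A (FractionRing A)) :=
        IsScalarTower.algebraMap_eq A (FractionRing A) Ω
      rw [this]
      exact (algebraMap (FractionRing A) Ω).injective.comp (IsFractionRing.injective A _)
    have h2 : (MvPolynomial.aeval x : MvPolynomial (Fin k) E →ₐ[E] Ω) =
        IsScalarTower.toAlgHom E A Ω := by
      apply MvPolynomial.algHom_ext
      intro i
      rw [MvPolynomial.aeval_X]
      rfl
    show Function.Injective (MvPolynomial.aeval x : MvPolynomial (Fin k) E →ₐ[E] Ω)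
    rw [h2]
    exact h1
  have hex : ∀ i, ∃ z : Ω, z ^ 2 = valueAt E x (G i) := fun i =>
    IsAlgClosed.exists_pow_nat_eq _ two_pos
  choose y hy using hex
  let M := IntermediateField.adjoin E (Set.range x ∪ Set.range y)
  have hxM : ∀ i, x i ∈ M := fun i => IntermediateField.subset_adjoin E _ (Or.inl ⟨i, rfl⟩)
  have hyM : ∀ i, y i ∈ M := fun i => IntermediateField.subset_adjoin E _ (Or.inr ⟨i, rfl⟩)
  have hval : ∀ p, M.val (valueAt E (fun i => (⟨x i, hxM i⟩ : M)) p) = valueAt E x p := by
    intro p
    have e : (M.val : M →+* Ω).comp (valueAt E (fun i => (⟨x i, hxM i⟩ : M))) = valueAt E x := by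
      apply MvPolynomial.ringHom_ext
      · intro z
        simp [valueAt]
      · intro i
        simp [valueAt]
    rw [← e]
    rfl
  refine ⟨M, inferInstance, inferInstance, fun i => ⟨x i, hxM i⟩, fun i => ⟨y i, hyM i⟩, ?_, ?_, ?_⟩
  · exact AlgebraicIndependent.of_comp M.val hx
  · intro i
    apply Subtype.ext
    show y i ^ 2 = M.val (valueAt E (fun i => (⟨x i, hxM i⟩ : M)) (G i))
    rw [hval]
    exact hy i
  · apply IntermediateField.lift_injective
    rw [IntermediateField.lift_top, IntermediateField.lift_adjoin]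
    congr 1
    rw [Set.image_union, ← Set.range_comp, ← Set.range_comp]
    rfl

end

end Pool.Agent.Y707.PC
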