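import Pool.Agent.Y707.PC.Rel

/-! The class group is generated by the points on `h = 0`. -/

set_option autoImplicit false
set_option maxHeartbeats 400000

namespace Pool.Agent.Y707.PC

open Polynomial Pool.Agent.TH943.HJ

section
variable {L : Type} [Field L] {F : L[X]}

theorem pp_sub_eval (β : L) (p : L[X]) :
    (pp p : CR F) - pp (C (p.eval β)) ∈ Ideal.span {(pp (X - C β) : CR F)} := by
  rw [← map_sub]
  obtain ⟨q, hq⟩ := X_sub_C_dvd_sub_C_eval (p := p) (a := β)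
  rw [hq, map_mul]
  exact Ideal.mul_mem_right _ _ (Ideal.mem_span_singleton_self _)

/-- reduction modulo `x - β` -/
theorem el_sub_eval (β : L) (p q : L[X]) :
    (el p q : CR F) - (pp (C (p.eval β)) + pp (C (q.eval β)) * yy F) ∈
      Ideal.span {(pp (X - C β) : CR F)} := by
  have h1 : (el p q : CR F) - (pp (C (p.eval β)) + pp (C (q.eval β)) * yy F) =
      (pp p - pp (C (p.eval β))) + (pp q - pp (C (q.eval β))) * yy F := by
    unfold el
    ring
  rw [h1]
  exact Ideal.add_mem _ (pp_sub_eval β p) (Ideal.mul_mem_right _ _ (pp_sub_eval β q))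

theorem const_mem {𝔭 : Ideal (CR F)} (hp : 𝔭.IsPrime) {c : L} (hc : (pp (C c) : CR F) ∈ 𝔭) :
    c = 0 := by
  by_contra h0
  apply hp.ne_top
  refine Ideal.eq_top_of_isUnit_mem _ hc ?_
  apply IsUnit.map
  exact isUnit_C.2 (isUnit_iff_ne_zero.2 h0)

theorem span_le {𝔭 : Ideal (CR F)} {β : L} (hβ : (pp (X - C β) : CR F) ∈ 𝔭) :
    Ideal.span {(pp (X - C β) : CR F)} ≤ 𝔭 := by
  rwa [Ideal.span_singleton_le_iff_mem]

/-- the primes over a split point -/
theorem prime_split {𝔭 : Ideal (CR F)} (hp : 𝔭.IsPrime) {β c : L}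
    (hβ : (pp (X - C β) : CR F) ∈ 𝔭) (hc : F.eval β = c ^ 2) :
    𝔭 = pid F (X - C β) (C c) ∨ 𝔭 = pid F (X - C β) (-C c) := by
  have key : ∀ d : L, yy F - pp (C d) ∈ 𝔭 → 𝔭 = pid F (X - C β) (C d) := by
    intro d hd
    have hle : pid F (X - C β) (C d) ≤ 𝔭 := by
      unfold pid
      rw [Ideal.span_le]
      rintro z (rfl | rfl)
      · exact hβ
      · exact hd
    refine le_antisymm (fun z hz => ?_) hle
    obtain ⟨p, q, rfl⟩ := exists_el z
    have h1 : (el p q : CR F) - pp (C (p.eval β + q.eval β * d)) ∈ pid F (X - C β) (C d) := by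
      have h2 : Ideal.span {(pp (X - C β) : CR F)} ≤ pid F (X - C β) (C d) :=
        span_le (pp_mem_pid _ _)
      have h3 := h2 (el_sub_eval (F := F) β p q)
      have h4 : (el p q : CR F) - pp (C (p.eval β + q.eval β * d)) =
          ((el p q : CR F) - (pp (C (p.eval β)) + pp (C (q.eval β)) * yy F)) +
            pp (C (q.eval β)) * (yy F - pp (C d)) := by
        rw [C_add, C_mul, map_add, map_mul]
        ring
      rw [h4]
      exact Ideal.add_mem _ h3 (Ideal.mul_mem_left _ _ (yy_mem_pid _ _))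
    have h5 : (pp (C (p.eval β + q.eval β * d)) : CR F) ∈ 𝔭 := by
      have := 𝔭.sub_mem hz (hle h1)
      rwa [sub_sub_cancel] at this
    have h6 := const_mem hp h5
    rw [h6, C_0, map_zero, sub_zero] at h1
    exact h1
  have h1 : (yy F - pp (C c)) * (yy F - pp (C (-c))) ∈ 𝔭 := by
    have h2 : (yy F - pp (C c)) * (yy F - pp (C (-c))) = pp F - pp (C (F.eval β)) := by
      rw [hc, ← yy_sq, C_neg, map_neg, C_pow, map_pow]
      ring
    rw [h2]
    exact span_le hβ (pp_sub_eval β F)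
  rcases hp.mem_or_mem h1 with h | h
  · exact Or.inl (key c h)
  · right
    rw [← C_neg]
    exact key (-c) h

/-- the prime over an inert point -/
theorem prime_inert {𝔭 : Ideal (CR F)} (hp : 𝔭.IsPrime) {β : L}
    (hβ : (pp (X - C β) : CR F) ∈ 𝔭) (hc : ¬ IsSquare (F.eval β)) :
    𝔭 = Ideal.span {(pp (X - C β) : CR F)} := by
  refine le_antisymm (fun z hz => ?_) (span_le hβ)
  obtain ⟨p, q, rfl⟩ := exists_el z
  have h1 := el_sub_eval (F := F) β p q
  have h2 : (pp (C (p.eval β)) + pp (C (q.eval β)) * yy F : CR F) ∈ 𝔭 := by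
    have := 𝔭.sub_mem hz (span_le hβ h1)
    rwa [sub_sub_cancel] at this
  have h3 : (pp (C (q.eval β ^ 2 * F.eval β - p.eval β ^ 2)) : CR F) ∈ 𝔭 := by
    have h4 : (pp (C (q.eval β ^ 2 * F.eval β - p.eval β ^ 2)) : CR F) =
        (pp (C (p.eval β)) + pp (C (q.eval β)) * yy F) *
          (pp (C (q.eval β)) * yy F - pp (C (p.eval β))) -
        pp (C (q.eval β)) ^ 2 * (pp F - pp (C (F.eval β))) := by
      rw [← yy_sq, C_sub, C_mul, C_pow, C_pow, map_sub, map_mul, map_pow, map_pow]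
      ring
    rw [h4]
    exact 𝔭.sub_mem (𝔭.mul_mem_right _ h2) (𝔭.mul_mem_left _ (span_le hβ (pp_sub_eval β F)))
  have h5 := const_mem hp h3
  have h6 : q.eval β = 0 := by
    by_contra h0
    apply hc
    refine ⟨p.eval β / q.eval β, ?_⟩
    field_simp
    linear_combination h5
  have h7 : p.eval β = 0 := by
    rw [h6] at h5
    have : p.eval β ^ 2 = 0 := by linear_combination -h5
    exact pow_eq_zero_iff (two_ne_zero) |>.1 this
  rw [h6, h7, C_0, map_zero, zero_mul, add_zero, sub_zero] at h1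
  exact h1

end

section
variable {B : Type} [CommRing B] [IsDedekindDomain B]

/-- ideals which contain a power of `x` -/
theorem gen_pow (x : B) (H : Subgroup (ClassGroup B))
    (hH : ∀ (𝔭 : Ideal B) (h0 : 𝔭 ∈ nonZeroDivisors (Ideal B)),
      𝔭.IsPrime → x ∈ 𝔭 → ClassGroup.mk0 ⟨𝔭, h0⟩ ∈ H) (J : Ideal B) :
    ∀ (h0 : J ∈ nonZeroDivisors (Ideal B)) (N : ℕ), x ^ N ∈ J → ClassGroup.mk0 ⟨J, h0⟩ ∈ H := by
  classical
  induction J using UniqueFactorizationMonoid.induction_on_prime with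
  | h₁ =>
    intro h0
    exact absurd rfl (nonZeroDivisors.ne_zero h0)
  | h₂ J hJ =>
    intro h0 N _
    have h1 : (⟨J, h0⟩ : nonZeroDivisors (Ideal B)) = 1 := by
      apply Subtype.ext
      show J = 1
      rw [Ideal.one_eq_top]
      exact Ideal.isUnit_iff.1 hJ
    rw [h1, map_one]
    exact one_mem _
  | h₃ J P hJ0 hP ih =>
    intro h0 N hN
    have hJ : J ∈ nonZeroDivisors (Ideal B) := mem_nonZeroDivisors_of_ne_zero hJ0
    have hP0 : P ∈ nonZeroDivisors (Ideal B) := mem_nonZeroDivisors_of_ne_zero hP.ne_zero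
    have h1 : (⟨P * J, h0⟩ : nonZeroDivisors (Ideal B)) = ⟨P, hP0⟩ * ⟨J, hJ⟩ := rfl
    rw [h1, map_mul]
    have hPp : P.IsPrime := Ideal.isPrime_of_prime hP
    have hle1 : P * J ≤ P := Ideal.mul_le_left
    have hle2 : P * J ≤ J := Ideal.mul_le_right
    have hN1 : x ^ N ∈ P := hle1 hN
    have hN2 : x ^ N ∈ J := hle2 hN
    have hN3 : x ∈ P := hPp.mem_of_pow_mem N hN1
    exact mul_mem (hH P hP0 hPp hN3) (ih hJ N hN2)

theorem gen_abs (x : B) (hx : ∀ I : Ideal B, I ≠ ⊥ → ∃ (J : Ideal B) (b : B) (N : ℕ), b ≠ 0 ∧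
      I * J = Ideal.span {b} ∧ x ^ N ∈ J) (H : Subgroup (ClassGroup B))
    (hH : ∀ (𝔭 : Ideal B) (h0 : 𝔭 ∈ nonZeroDivisors (Ideal B)),
      𝔭.IsPrime → x ∈ 𝔭 → ClassGroup.mk0 ⟨𝔭, h0⟩ ∈ H) : H = ⊤ := by
  rw [eq_top_iff]
  intro c _
  obtain ⟨⟨I, hI⟩, rfl⟩ := ClassGroup.mk0_surjective c
  have hI0 : I ≠ ⊥ := nonZeroDivisors.ne_zero hI
  obtain ⟨J, b, N, hb, hIJ, hN⟩ := hx I hI0
  have hJ0 : J ≠ ⊥ := by
    rintro rfl
    rw [Ideal.mul_bot] at hIJ
    exact hb (Ideal.span_singleton_eq_bot.1 hIJ.symm)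
  have hJ : J ∈ nonZeroDivisors (Ideal B) := mem_nonZeroDivisors_of_ne_zero hJ0
  have h1 : ClassGroup.mk0 ⟨I, hI⟩ * ClassGroup.mk0 ⟨J, hJ⟩ = 1 := by
    rw [← map_mul, ← map_one ClassGroup.mk0, ClassGroup.mk0_eq_mk0_iff]
    refine ⟨1, b, one_ne_zero, hb, ?_⟩
    show Ideal.span {1} * (I * J) = Ideal.span {b} * 1
    rw [hIJ, Ideal.span_singleton_one, Ideal.top_mul, mul_one]
  rw [eq_inv_of_mul_eq_one_left h1]
  exact inv_mem (gen_pow x H hH J hJ N hN)

end

section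
variable {M L : Type} [Field M] [Field L] [Algebra M L] {a h : M[X]} {ω : L}

/-- every ideal is principal up to an ideal which divides a power of `h` -/
theorem ideal_mul (hω : Transcendental M ω)
    (hL : ∀ z : L, ∃ p q : M[X], aeval ω q ≠ 0 ∧ z * aeval ω q = aeval ω p)
    (ha : Odd a.natDegree) (hd : h.natDegree < a.natDegree) (hh : h ≠ 0)
    [hded : IsDedekindDomain (CR (ff a h ω))] {I : Ideal (CR (ff a h ω))} (hI : I ≠ ⊥) :
    ∃ (J : Ideal (CR (ff a h ω))) (b : CR (ff a h ω)) (N : ℕ), b ≠ 0 ∧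
      I * J = Ideal.span {b} ∧ pp (up h) ^ N ∈ J := by
  have hne : (pp (up h) : CR (ff a h ω)) ≠ 0 := fun h0 =>
    up_ne hh ((injective_iff_map_eq_zero _).1 pp_inj _ h0)
  have hle : Submonoid.powers (pp (up h) : CR (ff a h ω)) ≤ nonZeroDivisors _ :=
    powers_le_nonZeroDivisors_of_noZeroDivisors hne
  have hpid : IsPrincipalIdealRing (Bh a h ω) := pid_Bh hω hL ha hd hh
  have hD0 : IsDomain (Bh a h ω) := IsLocalization.isDomain_localization hle
  have hD : IsDedekindDomain (Bh a h ω) := IsLocalization.isDedekindDomain _ hle _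
  have hinj : Function.Injective (algebraMap (CR (ff a h ω)) (Bh a h ω)) :=
    IsLocalization.injective _ hle
  obtain ⟨z, hz⟩ := hpid.principal (I.map (algebraMap (CR (ff a h ω)) (Bh a h ω)))
  have hz' : I.map (algebraMap (CR (ff a h ω)) (Bh a h ω)) = Ideal.span {z} := hz
  obtain ⟨n, b0, hb0⟩ := IsLocalization.Away.surj (pp (up h) : CR (ff a h ω)) z
  have hmem : algebraMap (CR (ff a h ω)) (Bh a h ω) b0 ∈
      I.map (algebraMap (CR (ff a h ω)) (Bh a h ω)) := by
    rw [hz', ← hb0]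
    exact Ideal.mul_mem_right _ _ (Ideal.mem_span_singleton_self _)
  rw [IsLocalization.mem_map_algebraMap_iff
    (Submonoid.powers (pp (up h) : CR (ff a h ω)))] at hmem
  obtain ⟨⟨⟨b, hbI⟩, ⟨s, k, hk⟩⟩, hbs⟩ := hmem
  simp only at hbs
  subst hk
  have hspan : Ideal.span {algebraMap (CR (ff a h ω)) (Bh a h ω) b} =
      I.map (algebraMap (CR (ff a h ω)) (Bh a h ω)) := by
    rw [hz', ← hbs, ← hb0]
    have hu : IsUnit (algebraMap (CR (ff a h ω)) (Bh a h ω) (pp (up h)) ^ n *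
        algebraMap (CR (ff a h ω)) (Bh a h ω) (pp (up h) ^ k)) := by
      rw [map_pow]
      exact (unit_h.pow n).mul (unit_h.pow k)
    rw [mul_assoc, Ideal.span_singleton_mul_right_unit hu]
  have hIm : I.map (algebraMap (CR (ff a h ω)) (Bh a h ω)) ≠ ⊥ := by
    intro h0
    apply hI
    rw [Ideal.map_eq_bot_iff_of_injective hinj] at h0
    exact h0
  have hb : b ≠ 0 := by
    rintro rfl
    apply hIm
    rw [← hspan, map_zero, Ideal.span_singleton_eq_bot]
  obtain ⟨J, hJ⟩ : I ∣ Ideal.span {b} := by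
    rw [Ideal.dvd_span_singleton]
    exact hbI
  refine ⟨J, b, ?_⟩
  have h1 : J.map (algebraMap (CR (ff a h ω)) (Bh a h ω)) = ⊤ := by
    have h2 : I.map (algebraMap (CR (ff a h ω)) (Bh a h ω)) *
        J.map (algebraMap (CR (ff a h ω)) (Bh a h ω)) =
        I.map (algebraMap (CR (ff a h ω)) (Bh a h ω)) * 1 := by
      rw [← Ideal.map_mul, ← hJ, Ideal.map_span, Set.image_singleton, hspan, mul_one]
    have h3 := mul_left_cancel₀ hIm h2
    rw [h3, Ideal.one_eq_top]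
  have h4 : (1 : Bh a h ω) ∈ J.map (algebraMap (CR (ff a h ω)) (Bh a h ω)) := by
    rw [h1]
    exact Submodule.mem_top
  rw [IsLocalization.mem_map_algebraMap_iff
    (Submonoid.powers (pp (up h) : CR (ff a h ω)))] at h4
  obtain ⟨⟨⟨j, hj⟩, ⟨s, N, hN⟩⟩, hs⟩ := h4
  simp only at hs
  rw [one_mul] at hs
  have h5 := hinj hs
  refine ⟨N, hb, hJ.symm, ?_⟩
  have h6 : pp (up h) ^ N = s := hN
  rw [h6, h5]
  exact hj

/-- **Generation.** A subgroup of the class group which contains the classes of all primes over `h` is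
the whole group. -/
theorem gen (hω : Transcendental M ω)
    (hL : ∀ z : L, ∃ p q : M[X], aeval ω q ≠ 0 ∧ z * aeval ω q = aeval ω p)
    (ha : Odd a.natDegree) (hd : h.natDegree < a.natDegree) (hh : h ≠ 0)
    [hded : IsDedekindDomain (CR (ff a h ω))] (H : Subgroup (ClassGroup (CR (ff a h ω))))
    (hH : ∀ (𝔭 : Ideal (CR (ff a h ω))) (h0 : 𝔭 ∈ nonZeroDivisors (Ideal (CR (ff a h ω)))),
      𝔭.IsPrime → pp (up h) ∈ 𝔭 → ClassGroup.mk0 ⟨𝔭, h0⟩ ∈ H) : H = ⊤ :=
  gen_abs (pp (up h)) (fun _ hI => ideal_mul hω hL ha hd hh hI) H hH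

end

end Pool.Agent.Y707.PC
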