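import Pool.Agent.TH958.FP.Kummer

/-! Squares in the function field of a multiquadratic cover of affine space. -/

set_option autoImplicit false
set_option maxHeartbeats 400000

namespace Pool.Agent.Y707.PC

open Polynomial
open Pool.Agent.TH958.FP (As notmem)

section
variable {M : Type} [Field M]

theorem transc_X : Transcendental M (RatFunc.X : RatFunc M) := RatFunc.transcendental_X

theorem aeval_RX (p : M[X]) : aeval (RatFunc.X : RatFunc M) p = algebraMap M[X] (RatFunc M) p := by
  rw [← RatFunc.algebraMap_X, aeval_algebraMap_apply, aeval_X_left_apply]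

theorem ratfunc_hL (z : RatFunc M) : ∃ p q : M[X], aeval (RatFunc.X : RatFunc M) q ≠ 0 ∧
    z * aeval (RatFunc.X : RatFunc M) q = aeval (RatFunc.X : RatFunc M) p := by
  refine ⟨z.num, z.denom, ?_, ?_⟩
  · rw [aeval_RX]
    exact RatFunc.algebraMap_ne_zero z.denom_ne_zero
  · rw [aeval_RX, aeval_RX]
    conv_lhs => rw [← RatFunc.num_div_denom z]
    rw [RatFunc.num_div_denom z]
    exact (eq_div_iff (RatFunc.algebraMap_ne_zero z.denom_ne_zero)).1 (RatFunc.num_div_denom z).symm

theorem isSquare_ratfunc (c : M) : IsSquare (algebraMap M (RatFunc M) c) ↔ IsSquare c := by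
  constructor
  · rintro ⟨z, hz⟩
    obtain ⟨p, q, hq, h⟩ := ratfunc_hL z
    have hq0 : q ≠ 0 := by
      rintro rfl
      exact hq (map_zero _)
    have h1 : algebraMap M[X] (RatFunc M) (C c * q ^ 2) = algebraMap M[X] (RatFunc M) (p ^ 2) := by
      rw [map_mul, map_pow, map_pow, ← aeval_RX p, ← aeval_RX q, ← h]
      have h2 : algebraMap M[X] (RatFunc M) (C c) = algebraMap M (RatFunc M) c :=
        (IsScalarTower.algebraMap_apply M M[X] (RatFunc M) c).symm
      rw [h2, hz]
      ring
    have h2 := congrArg leadingCoeff (RatFunc.algebraMap_injective M h1)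
    rw [leadingCoeff_mul, leadingCoeff_C, leadingCoeff_pow, leadingCoeff_pow] at h2
    have h3 : q.leadingCoeff ≠ 0 := leadingCoeff_ne_zero.2 hq0
    refine ⟨p.leadingCoeff / q.leadingCoeff, ?_⟩
    field_simp
    exact h2
  · exact fun h => h.map _

end

section
variable {E M : Type} [Field E] [Field M] [Algebra E M] {k l : ℕ}

theorem kum [CharZero E] {ξ : Fin k → M} (hξ : AlgebraicIndependent E ξ)
    {g : Fin l → MvPolynomial (Fin k) E} (hg : ∀ i, g i ≠ 0) {η : Fin l → M}
    (hη : ∀ i, η i ^ 2 = MvPolynomial.aeval ξ (g i))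
    (htop : IntermediateField.adjoin E (Set.range ξ ∪ Set.range η) = ⊤)
    (p : MvPolynomial (Fin k) E) :
    IsSquare (MvPolynomial.aeval ξ p) ↔ ∃ S : Finset (Fin l), IsSquare (p * ∏ i ∈ S, g i) := by
  classical
  have hinj : Function.Injective (MvPolynomial.aeval ξ : MvPolynomial (Fin k) E →ₐ[E] M) := hξ
  constructor
  · intro hsq
    by_contra hcon
    push Not at hcon
    let A := MvPolynomial (Fin k) E
    let _ : Algebra A M := (MvPolynomial.aeval ξ : MvPolynomial (Fin k) E →ₐ[E] M).toRingHom.toAlgebra
    have hAM : ∀ q : A, algebraMap A M q = MvPolynomial.aeval ξ q := fun q => rfl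
    have hfs : FaithfulSMul A M := (faithfulSMul_iff_algebraMap_injective A M).2 hinj
    let V := FractionRing A
    let _ : Algebra V M := FractionRing.liftAlgebra A M
    have htw : IsScalarTower A V M := FractionRing.isScalarTower_liftAlgebra A M
    have hAV : ∀ q : A, algebraMap V M (algebraMap A V q) = MvPolynomial.aeval ξ q := by
      intro q
      rw [← IsScalarTower.algebraMap_apply A V M, hAM]
    let w : Fin l → V := fun i => algebraMap A V (g i)
    have hyw : ∀ i, η i ^ 2 = algebraMap V M (w i) := fun i => by rw [hη, hAV]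
    have hint : ∀ i, IsIntegral V (η i) := fun i => by
      refine IsIntegral.of_pow two_pos ?_
      rw [hyw]
      exact isIntegral_algebraMap
    -- the subalgebra generated by the roots is everything
    have hle : ∀ s : Set (Fin l), ∀ x ∈ As V η s, IsIntegral V x := by
      intro s x hx
      have : As V η s ≤ integralClosure V M := by
        refine Algebra.adjoin_le ?_
        rintro _ ⟨i, -, rfl⟩
        exact hint i
      exact this hx
    have hVE : ∀ e : E, algebraMap E M e ∈ As V η Set.univ := by
      intro e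
      have h1 : algebraMap E M e = algebraMap V M (algebraMap A V (MvPolynomial.C e)) := by
        rw [hAV, MvPolynomial.aeval_C]
      rw [h1]
      exact Subalgebra.algebraMap_mem _ _
    let I : IntermediateField E M :=
      { carrier := {x | x ∈ As V η Set.univ}
        mul_mem' := fun ha hb => (As V η Set.univ).mul_mem ha hb
        add_mem' := fun ha hb => (As V η Set.univ).add_mem ha hb
        algebraMap_mem' := hVE
        inv_mem' := fun x hx => by
          have h1 : IsAlgebraic V ((⟨x, hx⟩ : As V η Set.univ) : M) := (hle _ x hx).isAlgebraic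
          exact Subalgebra.inv_mem_of_algebraic (As V η Set.univ) (x := ⟨x, hx⟩) h1 }
    have hI : (⊤ : IntermediateField E M) ≤ I := by
      rw [← htop, IntermediateField.adjoin_le_iff]
      rintro x (⟨i, rfl⟩ | ⟨i, rfl⟩)
      · show ξ i ∈ As V η Set.univ
        have h1 : ξ i = algebraMap V M (algebraMap A V (MvPolynomial.X i)) := by
          rw [hAV, MvPolynomial.aeval_X]
        rw [h1]
        exact Subalgebra.algebraMap_mem _ _
      · show η i ∈ As V η Set.univ
        exact Algebra.subset_adjoin ⟨i, Set.mem_univ i, rfl⟩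
    have hall : ∀ x : M, x ∈ As V η Set.univ := fun x => hI (IntermediateField.mem_top (x := x))
    have halg : Algebra.IsAlgebraic V M := ⟨fun x => (hle _ x (hall x)).isAlgebraic⟩
    have h2 : (2 : V) ≠ 0 := by
      intro h0
      have h1 : algebraMap V M 2 = 0 := by rw [h0, map_zero]
      rw [map_ofNat] at h1
      have h3 : algebraMap E M 2 = 0 := by rw [map_ofNat]; exact h1
      exact two_ne_zero ((map_eq_zero _).1 h3)
    obtain ⟨z, hz⟩ := hsq
    have h3 := notmem (V := V) h2 hyw Finset.univ (algebraMap A V p) z (by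
      rw [hAV, hz, sq]) (fun S _ hS => by
        apply hcon S
        obtain ⟨u, hu⟩ := hS
        have h4 : algebraMap A V (p * ∏ i ∈ S, g i) = u * u := by
          rw [map_mul, map_prod]
          exact hu
        have h5 : IsIntegral A u := by
          refine IsIntegral.of_pow two_pos ?_
          rw [sq, ← h4]
          exact isIntegral_algebraMap
        obtain ⟨v, rfl⟩ := (IsIntegrallyClosed.isIntegral_iff (R := A) (K := V)).1 h5
        refine ⟨v, ?_⟩
        apply IsFractionRing.injective A V
        rw [h4, map_mul])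
    apply h3
    have := hall z
    rwa [Finset.coe_univ]
  · rintro ⟨S, H, hH⟩
    have h1 : MvPolynomial.aeval ξ p * (∏ i ∈ S, η i) ^ 2 = MvPolynomial.aeval ξ H ^ 2 := by
      rw [← Finset.prod_pow, Finset.prod_congr rfl fun i _ => hη i, ← map_prod, ← map_mul, hH,
        map_mul, sq]
    have h2 : ∏ i ∈ S, η i ≠ 0 := by
      rw [Finset.prod_ne_zero_iff]
      intro i _ h0
      have h3 := hη i
      rw [h0, zero_pow two_ne_zero] at h3
      exact hg i (hinj (by rw [← h3, map_zero]))
    refine ⟨MvPolynomial.aeval ξ H / ∏ i ∈ S, η i, ?_⟩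
    rw [div_mul_div_comm, ← sq, ← sq, eq_div_iff (pow_ne_zero 2 h2)]
    exact h1

end

end Pool.Agent.Y707.PC
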