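import Pool.Agent.Y707.PC.Pid

/-! The equation `W ^ 2 - (a + ω h) V ^ 2 = c G` over `M(ω)`, with `G` over `M`. -/

set_option autoImplicit false

namespace Pool.Agent.Y707.PC

open Polynomial Pool.Agent.TH943.HJ

section
variable {M : Type} [Field M]

/-- `a + T h` in `M[T][x]` -/
noncomputable def fT (a h : M[X]) : M[X][X] := a.map C + C X * h.map C

/-- the degree in `T` -/
theorem top_step {a h : M[X]} (hh : h ≠ 0) {W V : M[X][X]} {c : M} {G : M[X]}
    (hE : W ^ 2 - fT a h * V ^ 2 = C (C c) * G.map C) : V = 0 := by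
  by_contra hV
  have h1 := congrArg (Polynomial.Bivariate.swap (R := M)) hE
  obtain ⟨W', hW'⟩ : ∃ W', W' = Polynomial.Bivariate.swap (R := M) W := ⟨_, rfl⟩
  obtain ⟨V', hV'⟩ : ∃ V', V' = Polynomial.Bivariate.swap (R := M) V := ⟨_, rfl⟩
  have hV'0 : V' ≠ 0 := by
    intro h0
    apply hV
    rw [hV', map_eq_zero_iff _ (Polynomial.Bivariate.swap (R := M)).injective] at h0
    exact h0
  rw [map_sub, map_pow, map_mul, map_pow, map_mul, ← hW', ← hV'] at h1
  have e1 : Polynomial.Bivariate.swap (R := M) (fT a h) = C h * X + C a := by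
    unfold fT
    rw [map_add, map_mul, Polynomial.Bivariate.swap_map_C, Polynomial.Bivariate.swap_map_C,
      Polynomial.Bivariate.swap_X]
    ring
  rw [e1, Polynomial.Bivariate.swap_C_C, Polynomial.Bivariate.swap_map_C] at h1
  have hA0 : (C h * X + C a : M[X][X]) ≠ 0 := by
    intro h0
    have := natDegree_linear (a := h) (b := a) hh
    rw [h0, natDegree_zero] at this
    exact zero_ne_one this
  have d1 : ((C h * X + C a) * V' ^ 2).natDegree = 1 + 2 * V'.natDegree := by
    rw [natDegree_mul hA0 (pow_ne_zero 2 hV'0), natDegree_linear hh, natDegree_pow]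
  have d2 : (W' ^ 2).natDegree = 2 * W'.natDegree := natDegree_pow _ _
  have d3 : (W' ^ 2 - (C h * X + C a) * V' ^ 2).natDegree = 0 := by
    rw [h1, ← C_mul]
    exact natDegree_C _
  rcases lt_trichotomy (W' ^ 2).natDegree ((C h * X + C a) * V' ^ 2).natDegree with h | h | h
  · rw [natDegree_sub_eq_right_of_natDegree_lt h, d1] at d3
    omega
  · rw [d1, d2] at h
    omega
  · rw [natDegree_sub_eq_left_of_natDegree_lt h] at d3
    rw [d1, d3] at h
    omega

/-- the descent -/
theorem rel_step {a h : M[X]} (ha : Odd a.natDegree) (hd : h.natDegree < a.natDegree)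
    (hh : h ≠ 0) {G : M[X]} (hG : G ≠ 0) : ∀ (n : ℕ) (c : M[X]) (W V : M[X][X]), c ≠ 0 →
    c.natDegree ≤ n → W ^ 2 - fT a h * V ^ 2 = C c * G.map C → V = 0 := by
  intro n
  induction n with
  | zero =>
    intro c W V hc hn hE
    rw [eq_C_of_natDegree_le_zero hn] at hE
    exact top_step hh hE
  | succ n ih =>
    intro c W V hc hn hE
    by_cases hu : IsUnit c
    · obtain ⟨m, hm, rfl⟩ := Polynomial.isUnit_iff.1 hu
      exact top_step hh hE
    obtain ⟨P, hP, hPc⟩ := WfDvdMonoid.exists_irreducible_factor hu hc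
    have hfact : Fact (Irreducible P) := ⟨hP⟩
    -- reduction modulo `P`
    let ψ : M[X][X] →+* (AdjoinRoot P)[X] := mapRingHom (AdjoinRoot.mk P)
    have hψc : ψ (C c) = 0 := by
      show (C c : M[X][X]).map (AdjoinRoot.mk P) = 0
      rw [Polynomial.map_C, AdjoinRoot.mk_eq_zero.2 hPc, C_0]
    have hψf : ψ (fT a h) = ff a h (AdjoinRoot.root P) := by
      unfold fT ff up
      rw [map_add, map_mul]
      show (a.map C).map _ + (C X).map _ * (h.map C).map _ = _
      rw [Polynomial.map_map, Polynomial.map_map, Polynomial.map_C, AdjoinRoot.mk_X]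
      rfl
    have h1 := congrArg ψ hE
    rw [map_sub, map_pow, map_mul, map_pow, map_mul, hψc, zero_mul, hψf] at h1
    obtain ⟨h2, h3⟩ := norm_ne (odd_ff ha hd).1 h1
    have hdiv : ∀ Z : M[X][X], ψ Z = 0 → ∃ Z', Z = C P * Z' := by
      intro Z hZ
      have : C P ∣ Z := by
        rw [C_dvd_iff_dvd_coeff]
        intro i
        have h4 := congrArg (fun q => coeff q i) hZ
        have h5 : coeff (ψ Z) i = AdjoinRoot.mk P (Z.coeff i) := coeff_map _ _
        simp only [coeff_zero] at h4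
        rw [h5, AdjoinRoot.mk_eq_zero] at h4
        exact h4
      obtain ⟨Z', hZ'⟩ := this
      exact ⟨Z', hZ'⟩
    obtain ⟨W', rfl⟩ := hdiv W h2
    obtain ⟨V', rfl⟩ := hdiv V h3
    -- `P ^ 2` divides `c`
    have hE2 : C (P ^ 2) * (W' ^ 2 - fT a h * V' ^ 2) = C c * G.map C := by
      rw [← hE, C_pow]
      ring
    have hPc2 : P ^ 2 ∣ c := by
      obtain ⟨j, hj⟩ : ∃ j, G.coeff j ≠ 0 := by
        by_contra hcon
        push Not at hcon
        exact hG (Polynomial.ext fun j => by rw [hcon j, coeff_zero])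
      have h4 := congrArg (fun q => coeff q j) hE2
      simp only [coeff_C_mul, coeff_map] at h4
      have h5 : P ^ 2 ∣ c * C (G.coeff j) := ⟨_, h4.symm⟩
      exact (IsUnit.dvd_mul_right (isUnit_C.2 (isUnit_iff_ne_zero.2 hj))).1 h5
    obtain ⟨c', rfl⟩ := hPc2
    have hP0 : P ≠ 0 := hP.ne_zero
    have hc' : c' ≠ 0 := right_ne_zero_of_mul hc
    have hE3 : W' ^ 2 - fT a h * V' ^ 2 = C c' * G.map C := by
      have h6 : (C (P ^ 2) : M[X][X]) ≠ 0 := by
        rw [Ne, C_eq_zero]
        exact pow_ne_zero 2 hP0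
      apply mul_left_cancel₀ h6
      rw [hE2, C_mul]
      ring
    have hdeg : c'.natDegree ≤ n := by
      rw [natDegree_mul (pow_ne_zero 2 hP0) hc', natDegree_pow] at hn
      have : 0 < P.natDegree := hP.natDegree_pos
      omega
    rw [ih c' W' V' hc' hdeg hE3, mul_zero]

variable {L : Type} [Field L] [Algebra M L] {ω : L}

/-- clearing the denominators -/
theorem clear (hω : Transcendental M ω)
    (hL : ∀ z : L, ∃ p q : M[X], aeval ω q ≠ 0 ∧ z * aeval ω q = aeval ω p) (W : L[X]) :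
    ∃ (D : M[X]) (W' : M[X][X]), D ≠ 0 ∧
      W'.map (aeval ω : M[X] →ₐ[M] L).toRingHom = C (aeval ω D) * W := by
  induction W using Polynomial.induction_on with
  | C c =>
    obtain ⟨p, q, hq, hz⟩ := hL c
    refine ⟨q, C p, fun h0 => hq (by rw [h0, map_zero]), ?_⟩
    rw [Polynomial.map_C, ← C_mul]
    congr 1
    rw [mul_comm]
    exact hz.symm
  | add p q hp hq =>
    obtain ⟨D, W', h1, h2⟩ := hp
    obtain ⟨D', W'', h3, h4⟩ := hq
    refine ⟨D * D', C D' * W' + C D * W'', mul_ne_zero h1 h3, ?_⟩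
    rw [Polynomial.map_add, Polynomial.map_mul, Polynomial.map_mul, h2, h4, Polynomial.map_C,
      Polynomial.map_C, map_mul, C_mul]
    show C (aeval ω D') * (C (aeval ω D) * p) + C (aeval ω D) * (C (aeval ω D') * q) = _
    ring
  | monomial n c hp =>
    obtain ⟨D, W', h1, h2⟩ := hp
    refine ⟨D, W' * X, h1, ?_⟩
    rw [Polynomial.map_mul, Polynomial.map_X, h2]
    ring

/-- **The relation.** -/
theorem rel_main (hω : Transcendental M ω)
    (hL : ∀ z : L, ∃ p q : M[X], aeval ω q ≠ 0 ∧ z * aeval ω q = aeval ω p) {a h : M[X]}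
    (ha : Odd a.natDegree) (hd : h.natDegree < a.natDegree) (hh : h ≠ 0) {G : M[X]}
    (hG : G.Monic) {W V : L[X]} {c : L} (hc : c ≠ 0)
    (hE : W ^ 2 - ff a h ω * V ^ 2 = C c * up G) : V = 0 := by
  obtain ⟨D, W', h1, h2⟩ := clear hω hL W
  obtain ⟨D', V', h3, h4⟩ := clear hω hL V
  obtain ⟨p, q, hq, hz⟩ := hL c
  set ev : M[X][X] →+* L[X] := mapRingHom (aeval ω : M[X] →ₐ[M] L).toRingHom with hev
  have evinj : Function.Injective ev := by
    apply Polynomial.map_injective
    exact transcendental_iff_injective.1 hω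
  have ev_C : ∀ p : M[X], ev (C p) = C (aeval ω p) := fun p => Polynomial.map_C _
  have ev_up : ∀ p : M[X], ev (p.map C) = up p := by
    intro p
    show (p.map C).map _ = _
    rw [Polynomial.map_map, up_def]
    congr 1
    ext m
    show aeval ω (C m) = _
    rw [aeval_C]
  have ev_f : ev (fT a h) = ff a h ω := by
    unfold fT ff
    rw [map_add, map_mul, ev_up, ev_up, ev_C, aeval_X]
  have hq0 : q ≠ 0 := fun h0 => hq (by rw [h0, map_zero])
  have hp0 : p ≠ 0 := by
    intro h0
    rw [h0, map_zero] at hz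
    rcases mul_eq_zero.1 hz with h | h
    · exact hc h
    · exact hq h
  have key : (C (q * D') * W') ^ 2 - fT a h * (C (q * D) * V') ^ 2 =
      C (q * p * D ^ 2 * D' ^ 2) * G.map C := by
    apply evinj
    have e1 : ev W' = C (aeval ω D) * W := h2
    have e2 : ev V' = C (aeval ω D') * V := h4
    simp only [map_sub, map_mul, map_pow, ev_C, ev_f, ev_up, e1, e2]
    have e3 : (C (aeval ω p) : L[X]) = C c * C (aeval ω q) := by rw [← hz, C_mul]
    rw [e3]
    linear_combination (C (aeval ω q) ^ 2 * C (aeval ω D) ^ 2 * C (aeval ω D') ^ 2) * hE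
  have hcne : q * p * D ^ 2 * D' ^ 2 ≠ 0 :=
    mul_ne_zero (mul_ne_zero (mul_ne_zero hq0 hp0) (pow_ne_zero 2 h1)) (pow_ne_zero 2 h3)
  have h5 := rel_step ha hd hh hG.ne_zero _ _ _ _ hcne le_rfl key
  have h6 : V' = 0 := by
    rcases mul_eq_zero.1 h5 with h | h
    · exact absurd (C_eq_zero.1 h) (mul_ne_zero hq0 h1)
    · exact h
  rw [h6, Polynomial.map_zero] at h4
  rcases mul_eq_zero.1 h4.symm with h | h
  · exfalso
    rw [C_eq_zero] at h
    apply h3
    apply transcendental_iff_injective.1 hω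
    rw [h, map_zero]
  · exact h

end

end Pool.Agent.Y707.PC
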