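import Pool.Agent.Y707.PC.Loc

/-! The polynomial `a + ω h` is separable. -/

set_option autoImplicit false
set_option maxHeartbeats 400000

namespace Pool.Agent.Y707.PC

open Polynomial

section
variable {M L : Type} [Field M] [Field L] [Algebra M L]

theorem wronsk_ne [CharZero M] {a h : M[X]} (hco : IsCoprime a h) (ha : a.natDegree ≠ 0) :
    a * derivative h - derivative a * h ≠ 0 := by
  intro h0
  have h1 : a ∣ derivative a * h := by
    rw [← sub_eq_zero.1 h0]
    exact dvd_mul_right _ _
  have h2 : a ∣ derivative a := hco.dvd_of_dvd_mul_right h1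
  have h3 : derivative a ≠ 0 := by
    intro h4
    exact ha (natDegree_eq_zero_of_derivative_eq_zero h4)
  have h5 := natDegree_le_of_dvd h2 h3
  have h6 := natDegree_derivative_lt ha
  omega

theorem sep_ff [CharZero M] {ω : L} (hω : Transcendental M ω) {a h : M[X]} (hco : IsCoprime a h)
    (ha : a.natDegree ≠ 0) (hF : ff a h ω ≠ 0) : (ff a h ω).Separable := by
  rw [Separable]
  refine isCoprime_of_irreducible_dvd (fun h0 => hF h0.1) ?_
  intro p hp h1 h2
  have : Fact (Irreducible p) := ⟨hp⟩
  let θ : AdjoinRoot p := AdjoinRoot.root p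
  have key : ∀ q : L[X], p ∣ q → aeval θ q = 0 := by
    rintro q ⟨c, rfl⟩
    rw [map_mul]
    have : aeval θ p = 0 := by
      rw [AdjoinRoot.aeval_eq]
      exact AdjoinRoot.mk_self
    rw [this, zero_mul]
  have hup : ∀ q : M[X], aeval θ (up q : L[X]) = aeval θ q := by
    intro q
    rw [up_def, aeval_map_algebraMap]
  have e1 : aeval θ a + algebraMap L (AdjoinRoot p) ω * aeval θ h = 0 := by
    have := key _ h1
    rw [ff, map_add, map_mul, aeval_C, hup, hup] at this
    exact this
  have e2 : aeval θ (derivative a) + algebraMap L (AdjoinRoot p) ω * aeval θ (derivative h) = 0 := by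
    have := key _ h2
    rw [ff, derivative_add, derivative_mul, derivative_C, zero_mul, zero_add, map_add, map_mul,
      aeval_C, up_def, up_def, derivative_map, derivative_map, ← up_def, ← up_def, hup, hup] at this
    exact this
  have hθ : IsAlgebraic M θ := by
    refine ⟨_, wronsk_ne hco ha, ?_⟩
    rw [map_sub, map_mul, map_mul]
    linear_combination (aeval θ (derivative h)) * e1 - (aeval θ h) * e2
  have hmem : ∀ q : M[X], aeval θ q ∈ algebraicClosure M (AdjoinRoot p) := by
    intro q
    have h3 : θ ∈ algebraicClosure M (AdjoinRoot p) := mem_algebraicClosure_iff.2 hθ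
    have h4 : Algebra.adjoin M {θ} ≤ (algebraicClosure M (AdjoinRoot p)).toSubalgebra :=
      Algebra.adjoin_le (Set.singleton_subset_iff.2 h3)
    exact h4 (aeval_mem_adjoin_singleton M θ)
  have hh : aeval θ h ≠ 0 := by
    intro h3
    have h4 : aeval θ a = 0 := by rw [h3, mul_zero, add_zero] at e1; exact e1
    obtain ⟨c, d, hcd⟩ := hco
    have h5 := congrArg (aeval θ) hcd
    rw [map_add, map_mul, map_mul, h3, h4, mul_zero, mul_zero, add_zero, map_one] at h5
    exact zero_ne_one h5
  have h6 : algebraMap L (AdjoinRoot p) ω = -aeval θ a / aeval θ h := by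
    rw [eq_div_iff hh]
    linear_combination e1
  have h7 : algebraMap L (AdjoinRoot p) ω ∈ algebraicClosure M (AdjoinRoot p) := by
    rw [h6]
    exact div_mem (neg_mem (hmem a)) (hmem h)
  have h8 : IsAlgebraic M (algebraMap L (AdjoinRoot p) ω) := mem_algebraicClosure_iff.1 h7
  have h9 : IsAlgebraic M ω := (isAlgebraic_algebraMap_iff (algebraMap L (AdjoinRoot p)).injective).1 h8
  exact hω h9

end

end Pool.Agent.Y707.PC
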