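import Pool.Agent.Y707.PC.Alg
import Pool.Agent.Y707.PC.Sep
import Pool.Agent.Y707.PC.Kum

/-! The class group of a pencil over the function field of a multiquadratic cover of affine space. -/

set_option autoImplicit false
set_option maxHeartbeats 400000

namespace Pool.Agent.Y707.PC

open Polynomial Pool.Agent.TH943.HJ

section
variable {E M : Type} [Field E] [Field M] [Algebra E M] {k l r : ℕ}

theorem hh_coprime {M : Type} [Field M] {ι : Type} [Fintype ι] {a : M[X]} {α : ι → M}
    (h : ∀ j, a.eval (α j) ≠ 0) : IsCoprime a (hh α) := by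
  unfold hh
  refine IsCoprime.prod_right fun j _ => ?_
  refine (IsCoprime.symm ?_)
  rw [(irreducible_X_sub_C (α j)).coprime_iff_not_dvd, dvd_iff_isRoot]
  exact h j

theorem alg_top [CharZero E] {a : (MvPolynomial (Fin k) E)[X]} (ham : a.Monic)
    (hao : Odd a.natDegree) {α : Fin r → MvPolynomial (Fin k) E} (hα : Function.Injective α)
    (hr : r < a.natDegree) (haα : ∀ j, a.eval (α j) ≠ 0)
    {g : Fin l → MvPolynomial (Fin k) E} (hg : ∀ i, g i ≠ 0)
    {ξ : Fin k → M} (hξ : AlgebraicIndependent E ξ) {η : Fin l → M}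
    (hη : ∀ i, η i ^ 2 = MvPolynomial.aeval ξ (g i))
    (htop : IntermediateField.adjoin E (Set.range ξ ∪ Set.range η) = ⊤)
    {f : (RatFunc M)[X]} (hf : f = ff (a.map (MvPolynomial.aeval ξ).toRingHom)
      (hh fun j => MvPolynomial.aeval ξ (α j)) RatFunc.X) :
    ∃ _ : IsDomain (AdjoinRoot (X ^ 2 - C f : (RatFunc M)[X][X])),
      Module.Free ℤ (Additive (ClassGroup (AdjoinRoot (X ^ 2 - C f : (RatFunc M)[X][X])))) ∧
      Module.Finite ℤ (Additive (ClassGroup (AdjoinRoot (X ^ 2 - C f : (RatFunc M)[X][X])))) ∧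
      Module.finrank ℤ (Additive (ClassGroup (AdjoinRoot (X ^ 2 - C f : (RatFunc M)[X][X])))) =
        Nat.card {j : Fin r // ∃ S : Finset (Fin l), IsSquare (a.eval (α j) * ∏ i ∈ S, g i)} := by
  subst hf
  have hinj : Function.Injective (MvPolynomial.aeval ξ : MvPolynomial (Fin k) E →ₐ[E] M) := hξ
  have hM0 : CharZero M := charZero_of_injective_algebraMap (algebraMap E M).injective
  have hev : ∀ q : MvPolynomial (Fin k) E, (a.map (MvPolynomial.aeval ξ).toRingHom).eval
      (MvPolynomial.aeval ξ q) = MvPolynomial.aeval ξ (a.eval q) := by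
    intro q
    exact eval_map_apply _ _
  have hnd : (a.map (MvPolynomial.aeval ξ : MvPolynomial (Fin k) E →ₐ[E] M).toRingHom).natDegree =
      a.natDegree := ham.natDegree_map _
  have hodd : Odd (a.map (MvPolynomial.aeval ξ : MvPolynomial (Fin k) E →ₐ[E] M).toRingHom).natDegree := by
    rw [hnd]
    exact hao
  have hne : ∀ j, (a.map (MvPolynomial.aeval ξ).toRingHom).eval
      (MvPolynomial.aeval ξ (α j)) ≠ 0 := by
    intro j h0
    rw [hev] at h0
    exact haα j (hinj (by rw [h0, map_zero]))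
  have hd' : (hh fun j => MvPolynomial.aeval ξ (α j)).natDegree <
      (a.map (MvPolynomial.aeval ξ : MvPolynomial (Fin k) E →ₐ[E] M).toRingHom).natDegree := by
    rw [hh_natDegree, hnd, Fintype.card_fin]
    exact hr
  have hodd2 := odd_ff (L := RatFunc M) (ω := RatFunc.X) hodd hd'
  have hdom := isDomain hodd2.1
  refine ⟨hdom, ?_⟩
  have hF0 : ff (a.map (MvPolynomial.aeval ξ : MvPolynomial (Fin k) E →ₐ[E] M).toRingHom)
      (hh fun j => MvPolynomial.aeval ξ (α j)) (RatFunc.X : RatFunc M) ≠ 0 := by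
    intro h0
    rw [h0, natDegree_zero] at hodd2
    exact (by decide : ¬ Odd 0) hodd2.1
  have hsep := sep_ff (transc_X (M := M)) (hh_coprime hne) (by
    rw [hnd]
    rintro h0
    rw [h0] at hao
    exact (by decide : ¬ Odd 0) hao) hF0
  have h2 : (2 : RatFunc M) ≠ 0 := by
    rw [← map_ofNat (algebraMap M (RatFunc M)) 2]
    exact (_root_.map_ne_zero _).2 two_ne_zero
  obtain ⟨h3, h4, h5⟩ := alg_main h2 (transc_X (M := M)) ratfunc_hL
    (α := fun j => MvPolynomial.aeval ξ (α j)) (fun i j hij => hα (hinj hij)) hodd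
    (by rw [hnd, Fintype.card_fin]; exact hr) hne hsep.squarefree
  refine ⟨h3, h4, h5.trans ?_⟩
  refine Nat.card_congr (Equiv.subtypeEquivRight fun j => ?_)
  rw [isSquare_ratfunc, hev]
  exact kum hξ hg hη htop _

end

end Pool.Agent.Y707.PC
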