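import Pool.Agent.Y707.PC.Avg

/-! The fibre averages of a linear pencil: asymptotics. -/

set_option autoImplicit false
set_option maxHeartbeats 400000

namespace Pool.Agent.Y707.PC

open Polynomial Finset NumberField

section
variable {R : Type} [CommRing R] [IsDomain R] {k : ℕ}

theorem csum_sq {p H : MvPolynomial (Fin k) R} {δ d : R} (hd : d ≠ 0)
    (hH : H ≠ 0) (h : MvPolynomial.C (d ^ 2) * p = MvPolynomial.C δ * H ^ 2) :
    ∃ (B : ℝ) (c : R), 0 ≤ B ∧ c ≠ 0 ∧ ∀ (κ : Type) [Field κ] [Fintype κ] (φ : R →+* κ), φ c ≠ 0 →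
      |∑ x : Fin k → κ, ch (MvPolynomial.eval₂Hom φ x p) - ch (φ δ) * (Fintype.card κ : ℝ) ^ k| *
        Real.sqrt (Fintype.card κ) ≤ B * (Fintype.card κ : ℝ) ^ k := by
  classical
  obtain ⟨D, c, hD, hc, hfam⟩ := fam_sum hH
  refine ⟨2 * D, d * c, by positivity, mul_ne_zero hd hc, ?_⟩
  intro κ _ _ φ hφ
  rw [map_mul] at hφ
  have hd' : φ d ≠ 0 := left_ne_zero_of_mul hφ
  obtain ⟨hr1, hr2, hr3⟩ := sqrt_facts κ
  set w := Real.sqrt (Fintype.card κ) with hw
  have hq : (0 : ℝ) < Fintype.card κ := by exact_mod_cast Fintype.card_pos (α := κ)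
  have h1 := hfam κ φ (right_ne_zero_of_mul hφ) (fun u => ch (MvPolynomial.eval₂Hom φ u p) -
    ch (φ δ)) 0 (2 / Fintype.card κ) le_rfl (by positivity) (by
      intro u hu
      set ψ := MvPolynomial.eval₂Hom φ u with hψ
      have hC : ∀ z, ψ (MvPolynomial.C z) = φ z := fun z => MvPolynomial.eval₂Hom_C _ _ _
      have h2 := congrArg ψ h
      rw [map_mul, map_mul, hC, hC, map_pow, map_pow] at h2
      have h3 : ch (ψ p) = ch (φ δ) := by
        have h4 : ch (φ d ^ 2 * ψ p) = ch (φ δ * ψ H ^ 2) := by rw [h2]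
        have h5 := ch_sq hd'
        have h6 := ch_sq hu
        rw [ch_mul, ch_mul, sq, sq, ch_mul, ch_mul, ← sq, ← sq, h5, h6] at h4
        linarith
      rw [h3, sub_self, abs_zero]) (by
      intro u
      rw [div_mul_cancel₀ _ hq.ne']
      refine (abs_sub _ _).trans ?_
      have := ch_abs (MvPolynomial.eval₂Hom φ u p)
      have := ch_abs (φ δ)
      linarith)
  rw [sum_sub_distrib, sum_const, card_univ, Fintype.card_fun, Fintype.card_fin, nsmul_eq_mul] at h1
  have e : ((Fintype.card κ ^ k : ℕ) : ℝ) * ch (φ δ) = ch (φ δ) * (Fintype.card κ : ℝ) ^ k := by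
    push_cast
    ring
  rw [e] at h1
  have hqk : (0 : ℝ) ≤ (Fintype.card κ : ℝ) ^ k := by positivity
  have hw0 : 0 ≤ w := by linarith
  refine (mul_le_mul_of_nonneg_right h1 hw0).trans ?_
  have h7 : (0 + 2 / (Fintype.card κ : ℝ) * D) * (Fintype.card κ : ℝ) ^ k * w =
      (2 * D * (Fintype.card κ : ℝ) ^ k) * (w / Fintype.card κ) := by
    field_simp
    ring
  rw [h7]
  have h8 : w / Fintype.card κ ≤ 1 := (div_le_one hq).2 hr3
  exact mul_le_of_le_one_right (by positivity) h8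

open Classical in
/-- both cases -/
theorem csum_all [CharZero R] (p : MvPolynomial (Fin k) R) (hp : p ≠ 0) : ∃ (δ : R) (B : ℝ) (c : R),
    0 ≤ B ∧ c ≠ 0 ∧ (IsConstSq p → δ ≠ 0 ∧ ∃ (d : R) (H : MvPolynomial (Fin k) R), d ≠ 0 ∧ H ≠ 0 ∧
      MvPolynomial.C (d ^ 2) * p = MvPolynomial.C δ * H ^ 2) ∧
    ∀ (κ : Type) [Field κ] [Fintype κ] (φ : R →+* κ), φ c ≠ 0 →
      |∑ x : Fin k → κ, ch (MvPolynomial.eval₂Hom φ x p) -
        (if IsConstSq p then ch (φ δ) else 0) * (Fintype.card κ : ℝ) ^ k| *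
        Real.sqrt (Fintype.card κ) ≤ B * (Fintype.card κ : ℝ) ^ k := by
  by_cases h : IsConstSq p
  · obtain ⟨c, d, hc, hd, H, hH⟩ := h
    have hH0 : H ≠ 0 := by
      rintro rfl
      rw [zero_pow two_ne_zero, mul_zero, mul_eq_zero, MvPolynomial.C_eq_zero] at hH
      exact hH.elim hd hp
    have e : MvPolynomial.C (d ^ 2) * p = MvPolynomial.C (c * d) * H ^ 2 := by
      rw [MvPolynomial.C_pow, MvPolynomial.C_mul]
      linear_combination (MvPolynomial.C d) * hH
    obtain ⟨B, c', hB, hc', hb⟩ := csum_sq hd hH0 e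
    refine ⟨c * d, B, c', hB, hc', fun _ => ⟨mul_ne_zero hc hd, d, H, hd, hH0, e⟩, ?_⟩
    intro κ _ _ φ hφ
    rw [if_pos ⟨c, d, hc, hd, H, hH⟩]
    exact hb κ φ hφ
  · obtain ⟨B, c', hB, hc', hb⟩ := csum k p h
    refine ⟨1, B, c', hB, hc', fun h0 => (h h0).elim, ?_⟩
    intro κ _ _ φ hφ
    rw [if_neg h, zero_mul, sub_zero]
    exact hb κ φ hφ

end

section
variable {K : Type} [Field K] [NumberField K] {k l r g : ℕ}
  {G : Fin l → MvPolynomial (Fin k) (𝓞 K)}
  {a : (MvPolynomial (Fin k) (𝓞 K))[X]} {α : Fin r → MvPolynomial (Fin k) (𝓞 K)}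

theorem nx_expand {κ : Type} [Field κ] [Fintype κ] (φ : 𝓞 K →+* κ) (x : Fin k → κ) :
    nx G φ x = ∑ S : Finset (Fin l), ch (MvPolynomial.eval₂Hom φ x (∏ i ∈ S, G i)) := by
  classical
  unfold nx
  rw [prod_one_add, powerset_univ]
  refine sum_congr rfl fun S hS => ?_
  clear hS
  rw [map_prod]
  induction S using Finset.induction_on with
  | empty =>
    rw [prod_empty, prod_empty]
    have := ch_sq (one_ne_zero (α := κ))
    have h2 : ch (1 : κ) * ch (1 : κ) = ch (1 : κ) := by rw [← ch_mul, one_mul]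
    rw [sq, h2] at this
    exact this.symm
  | insert i S hi ih => rw [prod_insert hi, prod_insert hi, ch_mul, ih]

theorem asy1 (ha : a.Monic) (hd : a.natDegree = 2 * g + 1) (hr : r ≤ 2 * g)
    (haα : ∀ j, a.eval (α j) ≠ 0) (hα : Function.Injective α) (hG : ∀ i, G i ≠ 0) :
    ∃ (B : ℝ) (c : 𝓞 K), 0 ≤ B ∧ c ≠ 0 ∧
    ∀ (κ : Type) [Field κ] [Fintype κ] (φ : 𝓞 K →+* κ), φ c ≠ 0 →
      |TT g G a α φ - Fintype.card κ * ∑ j : Fin r, ∑ S : Finset (Fin l), ∑ x : Fin k → κ,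
        ch (MvPolynomial.eval₂Hom φ x (a.eval (α j) * ∏ i ∈ S, G i))| *
        Real.sqrt (Fintype.card κ) ≤ B * (Fintype.card κ : ℝ) ^ (k + 1) := by
  classical
  set P : (MvPolynomial (Fin k) (𝓞 K))[X] := dsc g a α C X with hP
  have hP0 : P ≠ 0 := dsc_gen ha hd hr haα
  set N : MvPolynomial (Fin k) (𝓞 K) := (∏ i, G i) * (P.leadingCoeff *
    ∏ z ∈ univ.filter (fun z : Fin r × Fin r => z.1 ≠ z.2), (α z.1 - α z.2)) with hN
  have hN0 : N ≠ 0 := by
    refine mul_ne_zero (prod_ne_zero_iff.2 fun i _ => hG i) (mul_ne_zero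
      (leadingCoeff_ne_zero.2 hP0) (prod_ne_zero_iff.2 fun z hz => ?_))
    rw [mem_filter] at hz
    exact sub_ne_zero.2 fun h => hz.2 (hα h)
  obtain ⟨D, c, hD, hc, hfam⟩ := fam_sum hN0
  set c1 : ℝ := 2 ^ l * (P.natDegree * (2 * g)) with hc1
  set c2 : ℝ := 2 ^ l * (r + P.natDegree * (2 * g)) + r * 2 ^ l with hc2
  refine ⟨c1 + c2 * D, 2 * c, by positivity, mul_ne_zero two_ne_zero hc, ?_⟩
  intro κ _ _ φ hφ
  rw [map_mul, map_ofNat] at hφ
  have h2 : ringChar κ ≠ 2 := ringChar_of_two (left_ne_zero_of_mul hφ)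
  obtain ⟨hr1, hr2, hr3⟩ := sqrt_facts κ
  set w := Real.sqrt (Fintype.card κ) with hw
  have hw0 : 0 ≤ w := by linarith
  -- the local difference
  set T : (Fin k → κ) → ℝ := fun x => (if ∀ i, MvPolynomial.eval₂Hom φ x (G i) ≠ 0 then
      nx G φ x * Sx g a α (MvPolynomial.eval₂Hom φ x) else 0) -
      Fintype.card κ * ∑ j : Fin r, ∑ S : Finset (Fin l),
        ch (MvPolynomial.eval₂Hom φ x (a.eval (α j) * ∏ i ∈ S, G i)) with hT
  have hexp : ∀ x : Fin k → κ, ∑ j : Fin r, ∑ S : Finset (Fin l),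
      ch (MvPolynomial.eval₂Hom φ x (a.eval (α j) * ∏ i ∈ S, G i)) =
      nx G φ x * ∑ j : Fin r, ch (MvPolynomial.eval₂Hom φ x (a.eval (α j))) := by
    intro x
    rw [nx_expand, sum_mul, sum_comm]
    refine sum_congr rfl fun S _ => ?_
    rw [mul_sum]
    refine sum_congr rfl fun j _ => ?_
    rw [map_mul, ch_mul, mul_comm]
  have h1 := hfam κ φ (right_ne_zero_of_mul hφ) T (c1 * w) c2 (by positivity) (by positivity) (by
    intro x hx
    rw [hN, map_mul, map_mul, map_prod, map_prod] at hx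
    have hG' : ∀ i, MvPolynomial.eval₂Hom φ x (G i) ≠ 0 := fun i =>
      prod_ne_zero_iff.1 (left_ne_zero_of_mul hx) i (mem_univ i)
    have hP' : P.map (MvPolynomial.eval₂Hom φ x) ≠ 0 := by
      intro h0
      have := congrArg (fun q => coeff q P.natDegree) h0
      simp only [coeff_map, coeff_natDegree, coeff_zero] at this
      exact left_ne_zero_of_mul (right_ne_zero_of_mul hx) this
    have hα' : Function.Injective fun j => MvPolynomial.eval₂Hom φ x (α j) := by
      intro i j hij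
      by_contra hne
      have h3 := prod_ne_zero_iff.1 (right_ne_zero_of_mul (right_ne_zero_of_mul hx)) (i, j)
        (mem_filter.2 ⟨mem_univ _, hne⟩)
      rw [map_sub] at h3
      exact h3 (sub_eq_zero.2 hij)
    have e : T x = nx G φ x * (Sx g a α (MvPolynomial.eval₂Hom φ x) -
        Fintype.card κ * bas a α (MvPolynomial.eval₂Hom φ x)) := by
      rw [hT]
      simp only
      rw [if_pos hG', hexp, bas_eq hα']
      ring
    rw [e, abs_mul, abs_of_nonneg (nx_bd φ x).1]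
    refine (mul_le_mul (nx_bd φ x).2 (Sx_main h2 ha hd hr hP') (abs_nonneg _)
      (by positivity)).trans (le_of_eq ?_)
    rw [hc1]
    ring) (by
    intro x
    rw [hT]
    simp only
    rw [hexp]
    refine (abs_sub _ _).trans ?_
    have h3 : |if ∀ i, MvPolynomial.eval₂Hom φ x (G i) ≠ 0 then
        nx G φ x * Sx g a α (MvPolynomial.eval₂Hom φ x) else 0| ≤
        2 ^ l * ((r + P.natDegree * (2 * g)) * Fintype.card κ) := by
      split_ifs
      · rw [abs_mul, abs_of_nonneg (nx_bd φ x).1]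
        exact mul_le_mul (nx_bd φ x).2 (Sx_bound h2 ha hd hr) (abs_nonneg _) (by positivity)
      · rw [abs_zero]
        positivity
    have h4 : |(Fintype.card κ : ℝ) * (nx G φ x *
        ∑ j : Fin r, ch (MvPolynomial.eval₂Hom φ x (a.eval (α j))))| ≤
        Fintype.card κ * (2 ^ l * r) := by
      rw [abs_mul, abs_mul, Nat.abs_cast, abs_of_nonneg (nx_bd φ x).1]
      refine mul_le_mul_of_nonneg_left (mul_le_mul (nx_bd φ x).2 ?_ (abs_nonneg _)
        (by positivity)) (Nat.cast_nonneg _)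
      refine (abs_sum_le_sum_abs _ _).trans ((sum_le_sum fun j _ => ch_abs _).trans ?_)
      simp
    rw [hc2]
    linarith)
  have e : TT g G a α φ - Fintype.card κ * ∑ j : Fin r, ∑ S : Finset (Fin l), ∑ x : Fin k → κ,
      ch (MvPolynomial.eval₂Hom φ x (a.eval (α j) * ∏ i ∈ S, G i)) = ∑ x, T x := by
    rw [hT]
    unfold TT
    rw [if_neg h2, sum_sub_distrib, ← mul_sum]
    congr 2
    have e1 : ∀ j : Fin r, (∑ S : Finset (Fin l), ∑ x : Fin k → κ,
        ch (MvPolynomial.eval₂Hom φ x (a.eval (α j) * ∏ i ∈ S, G i))) =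
        ∑ x : Fin k → κ, ∑ S : Finset (Fin l),
        ch (MvPolynomial.eval₂Hom φ x (a.eval (α j) * ∏ i ∈ S, G i)) := fun j => sum_comm
    rw [sum_congr rfl fun j _ => e1 j, sum_comm]
  rw [e]
  refine (mul_le_mul_of_nonneg_right h1 hw0).trans ?_
  have hqk : (0 : ℝ) ≤ (Fintype.card κ : ℝ) ^ k := by positivity
  calc (c1 * w + c2 * D) * (Fintype.card κ : ℝ) ^ k * w =
        (c1 * w ^ 2 + c2 * D * w) * (Fintype.card κ : ℝ) ^ k := by ring
    _ ≤ (c1 * Fintype.card κ + c2 * D * Fintype.card κ) * (Fintype.card κ : ℝ) ^ k := by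
        refine mul_le_mul_of_nonneg_right ?_ hqk
        rw [hr2]
        have : (0 : ℝ) ≤ c2 * D := by positivity
        have := mul_le_mul_of_nonneg_left hr3 this
        linarith
    _ = _ := by
        rw [pow_succ]
        ring

end

end Pool.Agent.Y707.PC
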