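import Pool.Agent.Y707.PC.Asy
import Pool.Agent.H341R2.NF.Orth

/-! The fibre averages of a linear pencil: the limit, and independence of the residue field. -/

set_option autoImplicit false
set_option maxHeartbeats 400000

namespace Pool.Agent.Y707.PC

open Polynomial Finset NumberField

section
variable {K : Type} [Field K] [NumberField K] {k l r g : ℕ}
  {G : Fin l → MvPolynomial (Fin k) (𝓞 K)}
  {a : (MvPolynomial (Fin k) (𝓞 K))[X]} {α : Fin r → MvPolynomial (Fin k) (𝓞 K)}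

variable (G a α) in
/-- the values at the base points, with twists -/
noncomputable def pz (z : Fin r × Finset (Fin l)) : MvPolynomial (Fin k) (𝓞 K) :=
  a.eval (α z.1) * ∏ i ∈ z.2, G i

theorem pz_ne (haα : ∀ j, a.eval (α j) ≠ 0) (hG : ∀ i, G i ≠ 0) (z : Fin r × Finset (Fin l)) :
    pz G a α z ≠ 0 := mul_ne_zero (haα _) (prod_ne_zero_iff.2 fun i _ => hG i)

open Classical in
theorem asy2 (ha : a.Monic) (hd : a.natDegree = 2 * g + 1) (hr : r ≤ 2 * g)
    (haα : ∀ j, a.eval (α j) ≠ 0) (hα : Function.Injective α) (hG : ∀ i, G i ≠ 0) :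
    ∃ (δ : Fin r × Finset (Fin l) → 𝓞 K) (B : ℝ) (c : 𝓞 K), 0 ≤ B ∧ c ≠ 0 ∧
    (∀ z, IsConstSq (pz G a α z) → δ z ≠ 0 ∧
      ∃ (d : 𝓞 K) (H : MvPolynomial (Fin k) (𝓞 K)), d ≠ 0 ∧ H ≠ 0 ∧
        MvPolynomial.C (d ^ 2) * pz G a α z = MvPolynomial.C (δ z) * H ^ 2) ∧
    ∀ (κ : Type) [Field κ] [Fintype κ] (φ : 𝓞 K →+* κ), φ c ≠ 0 →
      |((Nat.card κ : ℝ) ^ (k + 1))⁻¹ * TT g G a α φ -
        ∑ z, (if IsConstSq (pz G a α z) then ch (φ (δ z)) else 0)| *
        Real.sqrt (Nat.card κ) ≤ B := by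
  obtain ⟨B0, c0, hB0, hc0, h0⟩ := asy1 (G := G) ha hd hr haα hα hG
  choose δ Bz cz hBz hcz h1 h2 using fun z : Fin r × Finset (Fin l) =>
    csum_all (pz G a α z) (pz_ne haα hG z)
  refine ⟨δ, B0 + ∑ z, Bz z, c0 * ∏ z, cz z, add_nonneg hB0 (sum_nonneg fun z _ => hBz z),
    mul_ne_zero hc0 (prod_ne_zero_iff.2 fun z _ => hcz z), h1, ?_⟩
  intro κ _ _ φ hφ
  rw [map_mul, map_prod] at hφ
  have h3 := h0 κ φ (left_ne_zero_of_mul hφ)
  have h4 : ∀ z, _ := fun z => h2 z κ φ (prod_ne_zero_iff.1 (right_ne_zero_of_mul hφ) z (mem_univ z))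
  rw [Nat.card_eq_fintype_card]
  set w := Real.sqrt (Fintype.card κ) with hw
  have hw0 : 0 ≤ w := Real.sqrt_nonneg _
  have hq : (0 : ℝ) < Fintype.card κ := by exact_mod_cast Fintype.card_pos (α := κ)
  have hqk : (0 : ℝ) < (Fintype.card κ : ℝ) ^ k := by positivity
  have hqk1 : (0 : ℝ) < (Fintype.card κ : ℝ) ^ (k + 1) := by positivity
  set U : Fin r × Finset (Fin l) → ℝ := fun z =>
    ∑ x : Fin k → κ, ch (MvPolynomial.eval₂Hom φ x (pz G a α z)) with hU
  have e1 : ∑ j : Fin r, ∑ S : Finset (Fin l), ∑ x : Fin k → κ,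
        ch (MvPolynomial.eval₂Hom φ x (a.eval (α j) * ∏ i ∈ S, G i)) = ∑ z, U z :=
    (Fintype.sum_prod_type U).symm
  rw [e1] at h3
  set V : Fin r × Finset (Fin l) → ℝ := fun z =>
    if IsConstSq (pz G a α z) then ch (φ (δ z)) else 0 with hV
  set Mz : ℝ := ∑ z, |U z - V z * (Fintype.card κ : ℝ) ^ k| with hMz
  have h6 : Mz * w ≤ (∑ z, Bz z) * (Fintype.card κ : ℝ) ^ k := by
    rw [hMz, sum_mul, sum_mul]
    exact sum_le_sum fun z _ => h4 z
  have h5 : |TT g G a α φ - Fintype.card κ * ∑ z, U z| * w + Fintype.card κ * (Mz * w) ≤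
      (B0 + ∑ z, Bz z) * (Fintype.card κ : ℝ) ^ (k + 1) := by
    have h7 := mul_le_mul_of_nonneg_left h6 hq.le
    have e3 : (B0 + ∑ z, Bz z) * (Fintype.card κ : ℝ) ^ (k + 1) =
        B0 * (Fintype.card κ : ℝ) ^ (k + 1) +
          Fintype.card κ * ((∑ z, Bz z) * (Fintype.card κ : ℝ) ^ k) := by
      rw [pow_succ]
      ring
    rw [e3]
    exact add_le_add h3 h7
  have e2 : ((Fintype.card κ : ℝ) ^ (k + 1))⁻¹ * TT g G a α φ - ∑ z, V z =
      ((Fintype.card κ : ℝ) ^ (k + 1))⁻¹ * ((TT g G a α φ - Fintype.card κ * ∑ z, U z) +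
        Fintype.card κ * ∑ z, (U z - V z * (Fintype.card κ : ℝ) ^ k)) := by
    rw [sum_sub_distrib, ← sum_mul]
    field_simp
    ring
  have h8 : |(TT g G a α φ - Fintype.card κ * ∑ z, U z) +
      Fintype.card κ * ∑ z, (U z - V z * (Fintype.card κ : ℝ) ^ k)| * w ≤
      (B0 + ∑ z, Bz z) * (Fintype.card κ : ℝ) ^ (k + 1) := by
    refine le_trans ?_ h5
    have h9 : |(TT g G a α φ - Fintype.card κ * ∑ z, U z) +
        Fintype.card κ * ∑ z, (U z - V z * (Fintype.card κ : ℝ) ^ k)| ≤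
        |TT g G a α φ - Fintype.card κ * ∑ z, U z| + Fintype.card κ * Mz := by
      refine (abs_add_le _ _).trans (add_le_add le_rfl ?_)
      rw [abs_mul, Nat.abs_cast]
      exact mul_le_mul_of_nonneg_left (abs_sum_le_sum_abs _ _) hq.le
    refine (mul_le_mul_of_nonneg_right h9 hw0).trans (le_of_eq ?_)
    ring
  show |((Fintype.card κ : ℝ) ^ (k + 1))⁻¹ * TT g G a α φ - ∑ z, V z| * w ≤ _
  rw [e2, abs_mul, abs_of_pos (inv_pos.2 hqk1), mul_assoc, inv_mul_le_iff₀ hqk1, mul_comm _ (B0 + _)]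
  exact h8

end

section
variable {A : Type} [CommRing A] {r g : ℕ} {a : A[X]} {α : Fin r → A}
  {κ κ' : Type} [Field κ] [Field κ'] [Fintype κ] [Fintype κ']

theorem ch_iso (θ : κ ≃+* κ') (x : κ) : ch (θ x) = ch x := by
  classical
  unfold ch
  rw [Pool.Agent.H341R2.quadraticChar_congr θ x]

theorem msum_iso (θ : κ ≃+* κ') (ψ : A →+* κ) (w : κ) :
    msum a α ((θ : κ →+* κ').comp ψ) (θ w) = msum a α ψ w := by
  unfold msum
  refine (θ.toEquiv.sum_comp _).symm.trans (sum_congr rfl fun x _ => ?_)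
  have h := pen_map (a := a) (α := α) (ψ := ψ) (w := w) (θ : κ →+* κ')
  have h2 : (θ : κ →+* κ') w = θ w := rfl
  rw [h2] at h
  rw [← h, eval_map]
  have h3 : (pen a α ψ w).eval₂ (θ : κ →+* κ') (θ.toEquiv x) = θ ((pen a α ψ w).eval x) :=
    Polynomial.eval₂_at_apply (θ : κ →+* κ') x
  rw [h3, ch_iso]

theorem Sx_iso (θ : κ ≃+* κ') (ψ : A →+* κ) :
    Sx g a α ((θ : κ →+* κ').comp ψ) = Sx g a α ψ := by
  classical
  unfold Sx
  refine (θ.toEquiv.sum_comp _).symm.trans (sum_congr rfl fun w _ => ?_)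
  have h1 : dsc g a α ((θ : κ →+* κ').comp ψ) (θ.toEquiv w) = θ (dsc g a α ψ w) :=
    (dsc_map (g := g) (a := a) (α := α) (ψ := ψ) (w := w) (θ : κ →+* κ')).symm
  have h2 : msum a α ((θ : κ →+* κ').comp ψ) (θ.toEquiv w) = msum a α ψ w := msum_iso θ ψ w
  rw [h1, h2]
  by_cases h : dsc g a α ψ w = 0
  · rw [if_neg (not_not.2 h), if_neg (not_not.2 (by rw [h, map_zero]))]
  · rw [if_pos h, if_pos fun h0 => h ((map_eq_zero_iff θ θ.injective).1 h0)]

end

section
variable {K : Type} [Field K] [NumberField K] {k l r g : ℕ}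
  {G : Fin l → MvPolynomial (Fin k) (𝓞 K)}
  {a : (MvPolynomial (Fin k) (𝓞 K))[X]} {α : Fin r → MvPolynomial (Fin k) (𝓞 K)}
  {κ κ' : Type} [Field κ] [Field κ'] [Fintype κ] [Fintype κ']

theorem TT_iso (θ : κ ≃+* κ') (φ : 𝓞 K →+* κ) :
    TT g G a α ((θ : κ →+* κ').comp φ) = TT g G a α φ := by
  classical
  unfold TT
  have hc : ringChar κ' = ringChar κ := ringChar_ext (θ : κ →+* κ')
  rw [hc]
  split_ifs
  · rfl
  · refine (((Equiv.refl (Fin k)).arrowCongr θ.toEquiv).sum_comp _).symm.trans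
      (sum_congr rfl fun x _ => ?_)
    have hev : MvPolynomial.eval₂Hom ((θ : κ →+* κ').comp φ)
        (((Equiv.refl (Fin k)).arrowCongr θ.toEquiv) x) =
        (θ : κ →+* κ').comp (MvPolynomial.eval₂Hom φ x) := by
      apply MvPolynomial.ringHom_ext
      · intro z
        simp
      · intro i
        simp
    have hev' : ∀ p, MvPolynomial.eval₂Hom ((θ : κ →+* κ').comp φ)
        (((Equiv.refl (Fin k)).arrowCongr θ.toEquiv) x) p = θ (MvPolynomial.eval₂Hom φ x p) := by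
      intro p
      rw [hev]
      rfl
    have h1 : nx G ((θ : κ →+* κ').comp φ) (((Equiv.refl (Fin k)).arrowCongr θ.toEquiv) x) =
        nx G φ x := by
      unfold nx
      refine prod_congr rfl fun i _ => ?_
      rw [hev', ch_iso]
    rw [h1, hev, Sx_iso]
    by_cases h : ∀ i, MvPolynomial.eval₂Hom φ x (G i) ≠ 0
    · have h3 : ∀ i, ((θ : κ →+* κ').comp (MvPolynomial.eval₂Hom φ x)) (G i) ≠ 0 := by
        intro i h0
        have h0' : θ (MvPolynomial.eval₂Hom φ x (G i)) = 0 := h0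
        exact h i ((map_eq_zero_iff θ θ.injective).1 h0')
      rw [if_pos h, if_pos h3]
    · have h3 : ¬ ∀ i, ((θ : κ →+* κ').comp (MvPolynomial.eval₂Hom φ x)) (G i) ≠ 0 := by
        intro h2
        apply h
        intro i h0
        apply h2 i
        show θ (MvPolynomial.eval₂Hom φ x (G i)) = 0
        rw [h0, map_zero]
      rw [if_neg h, if_neg h3]

end

end Pool.Agent.Y707.PC
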