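import Pool.Agent.Y707.PC.Val
import Pool.Agent.Y707.RX.Fam

/-! The fibre averages of a linear pencil: value and bounds. -/

set_option autoImplicit false
set_option maxHeartbeats 400000

namespace Pool.Agent.Y707.PC

open Polynomial Finset NumberField IsDedekindDomain
open Pool.Agent.Y707.PH (IsEigen averageValue)
open Pool.Agent.W353.FB (Fibration IsTrace)
open Pool.Agent.Y707.RX (IsSmoothFamily IsBounded)

section
variable {K : Type} [Field K] {k l r g : ℕ} {G : Fin l → MvPolynomial (Fin k) (𝓞 K)}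
  {a : (MvPolynomial (Fin k) (𝓞 K))[X]} {α : Fin r → MvPolynomial (Fin k) (𝓞 K)}
  {κ : Type} [Field κ]

theorem pen_at (φ : 𝓞 K →+* κ) (t : Fin (k + l + 1) → κ) :
    (pen a α (inc (𝓞 K) k l) (MvPolynomial.X (Fin.last (k + l)))).map
      (MvPolynomial.eval₂Hom φ t) = pen a α
        (MvPolynomial.eval₂Hom φ fun i => t (Fin.castAdd l i).castSucc) (t (Fin.last (k + l))) := by
  rw [pen_map, inc_ev, MvPolynomial.eval₂Hom_X']

theorem ev_two {φ : 𝓞 K →+* κ} {t : Fin (k + l + 1) → κ} (ht : t ∈ pts g G a α φ) :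
    (2 : κ) ≠ 0 ∧ dsc g a α (MvPolynomial.eval₂Hom φ fun i => t (Fin.castAdd l i).castSucc)
      (t (Fin.last (k + l))) ≠ 0 := by
  obtain ⟨z, rfl⟩ := (ptE κ k l).surjective t
  have hx : (fun i => ptE κ k l z (Fin.castAdd l i).castSucc) = z.1 := by
    funext i
    exact ptE_x z i
  rw [mem_points] at ht
  rw [hx, ptE_w]
  exact ⟨ht.2.1, ht.2.2.2⟩

theorem ringChar_of_two (h : (2 : κ) ≠ 0) : ringChar κ ≠ 2 := by
  intro hc
  have h3 : ((ringChar κ : ℕ) : κ) = 0 := ringChar.Nat.cast_ringChar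
  rw [hc] at h3
  exact h (by exact_mod_cast h3)

variable [Fintype κ]

theorem pts_eigen [NumberField K] (ha : a.Monic) (hd : a.natDegree = 2 * g + 1) (hr : r ≤ 2 * g)
    {φ : 𝓞 K →+* κ} {t : Fin (k + l + 1) → κ} (ht : t ∈ pts g G a α φ) :
    ∃ γ : Multiset ℂ, IsEigen (pencil g G a α).eqFibre 1 1 (MvPolynomial.eval₂Hom φ t) γ ∧
      γ.card = 2 * g ∧ γ.sum = ((-msum a α (MvPolynomial.eval₂Hom φ
        fun i => t (Fin.castAdd l i).castSucc) (t (Fin.last (k + l))) : ℝ) : ℂ) := by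
  obtain ⟨h2, h3⟩ := ev_two ht
  have hp := pen_at (a := a) (α := α) (l := l) φ t
  have h4 := pen_deg (α := α) (ψ := inc (𝓞 K) k l) (w := MvPolynomial.X (Fin.last (k + l)))
    ha hd hr
  have h5 := pen_deg (α := α) (ψ := MvPolynomial.eval₂Hom φ
        fun i => t (Fin.castAdd l i).castSucc) (w := t (Fin.last (k + l))) ha hd hr
  obtain ⟨γ, h6, h7, h8⟩ := isEigen_model (ringChar_of_two h2) (g := g)
    (f := pen a α (inc (𝓞 K) k l) (MvPolynomial.X (Fin.last (k + l)))) h4.2.le
    (MvPolynomial.eval₂Hom φ t) (by rw [hp]; exact h5.1) (by rw [hp]; exact h5.2)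
    (by rw [hp]; exact (sep_of_dsc ha hd hr h3).squarefree)
  refine ⟨γ, h6, h7, ?_⟩
  rw [h8, hp]
  unfold cs msum ch
  push_cast
  rfl

open Classical in
variable (g G a α) in
/-- the total sum -/
noncomputable def TT (φ : 𝓞 K →+* κ) : ℝ :=
  if ringChar κ = 2 then 0 else ∑ x : Fin k → κ,
    if ∀ i, MvPolynomial.eval₂Hom φ x (G i) ≠ 0 then
      nx G φ x * Sx g a α (MvPolynomial.eval₂Hom φ x) else 0

theorem isAverage_TT [NumberField K] (ha : a.Monic) (hd : a.natDegree = 2 * g + 1)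
    (hr : r ≤ 2 * g) (φ : 𝓞 K →+* κ) :
    (pencil g G a α).IsAverage 1 φ (-(((Nat.card κ : ℝ) ^ (k + 1))⁻¹ * TT g G a α φ)) := by
  classical
  refine ⟨fun t : Fin (k + l + 1) → κ => -msum a α (MvPolynomial.eval₂Hom φ
        fun i => t (Fin.castAdd l i).castSucc) (t (Fin.last (k + l))), ?_, ?_⟩
  · intro t ht
    obtain ⟨γ, h1, h2, h3⟩ := pts_eigen ha hd hr (show t ∈ pts g G a α φ from ht)
    exact h1.isTrace h3
  · have e : ∑ᶠ t ∈ pts g G a α φ, -msum a α (MvPolynomial.eval₂Hom φ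
        fun i => t (Fin.castAdd l i).castSucc) (t (Fin.last (k + l))) = -TT g G a α φ := by
      unfold TT
      by_cases h2 : ringChar κ = 2
      · rw [if_pos h2, points_char2 φ h2, finsum_mem_empty, neg_zero]
      · rw [if_neg h2]
        have h3 := sum_points (g := g) (G := G) (a := a) (α := α) φ h2
          (fun x w => -msum a α (MvPolynomial.eval₂Hom φ x) w)
        rw [h3, ← sum_neg_distrib]
        refine sum_congr rfl fun x _ => ?_
        unfold Sx
        split_ifs with h4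
        · rw [← mul_neg, ← sum_neg_distrib]
          congr 1
          refine sum_congr rfl fun w _ => ?_
          split_ifs
          · rfl
          · rw [neg_zero]
        · rw [neg_zero]
    have e2 : ((Nat.card κ : ℝ) ^ (k + 1))⁻¹ * ∑ᶠ t ∈ pts g G a α φ,
        -msum a α (MvPolynomial.eval₂Hom φ fun i => t (Fin.castAdd l i).castSucc)
          (t (Fin.last (k + l))) = -(((Nat.card κ : ℝ) ^ (k + 1))⁻¹ * TT g G a α φ) := by
      rw [e]
      ring
    exact e2.symm

theorem card_pts (φ : 𝓞 K →+* κ) :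
    (Nat.card (pts g G a α φ) : ℝ) ≤ 2 ^ l * (Fintype.card κ : ℝ) ^ (k + 1) := by
  classical
  by_cases h2 : ringChar κ = 2
  · rw [points_char2 φ h2]
    simp
  · have h1 : (Nat.card (pts g G a α φ) : ℝ) = ∑ᶠ t ∈ pts g G a α φ, (1 : ℝ) := by
      rw [finsum_mem_def, finsum_eq_sum_of_fintype]
      simp only [Set.indicator_apply]
      rw [sum_boole, Nat.card_eq_fintype_card]
      congr 1
      rw [← Set.toFinset_card]
      congr 1
      ext t
      simp
    have h3 := sum_points (g := g) (G := G) (a := a) (α := α) φ h2 (fun _ _ => 1)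
    rw [h1, h3]
    have h4 : ∀ x : Fin k → κ, (if ∀ i, MvPolynomial.eval₂Hom φ x (G i) ≠ 0 then
        nx G φ x * ∑ w : κ, (if dsc g a α (MvPolynomial.eval₂Hom φ x) w ≠ 0 then (1 : ℝ) else 0)
        else 0) ≤ 2 ^ l * Fintype.card κ := by
      intro x
      split_ifs
      · refine mul_le_mul (nx_bd φ x).2 ?_ (sum_nonneg fun w _ => by split_ifs <;> norm_num)
          (by positivity)
        refine (sum_le_sum (g := fun _ => (1 : ℝ)) fun w _ => ?_).trans ?_
        · split_ifs
          · exact le_rfl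
          · exact zero_le_one
        · simp
      · positivity
    refine (sum_le_sum fun x _ => h4 x).trans ?_
    rw [sum_const, card_univ, Fintype.card_fun, Fintype.card_fin, nsmul_eq_mul, pow_succ]
    push_cast
    linarith

theorem TT_bound (ha : a.Monic) (hd : a.natDegree = 2 * g + 1)
    (hr : r ≤ 2 * g) (φ : 𝓞 K →+* κ) : |TT g G a α φ| ≤
      2 ^ l * (r + (dsc g a α (C : MvPolynomial (Fin k) (𝓞 K) →+* _) X).natDegree * (2 * g)) *
        (Fintype.card κ : ℝ) ^ (k + 1) := by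
  classical
  unfold TT
  split_ifs with h2
  · rw [abs_zero]
    positivity
  · have h4 : ∀ x : Fin k → κ, |if ∀ i, MvPolynomial.eval₂Hom φ x (G i) ≠ 0 then
        nx G φ x * Sx g a α (MvPolynomial.eval₂Hom φ x) else 0| ≤ 2 ^ l *
        ((r + (dsc g a α (C : MvPolynomial (Fin k) (𝓞 K) →+* _) X).natDegree * (2 * g)) *
          Fintype.card κ) := by
      intro x
      split_ifs
      · rw [abs_mul, abs_of_nonneg (nx_bd φ x).1]
        exact mul_le_mul (nx_bd φ x).2 (Sx_bound h2 ha hd hr) (abs_nonneg _) (by positivity)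
      · rw [abs_zero]
        positivity
    refine (abs_sum_le_sum_abs _ _).trans ((sum_le_sum fun x _ => h4 x).trans ?_)
    rw [sum_const, card_univ, Fintype.card_fun, Fintype.card_fin, nsmul_eq_mul, pow_succ]
    push_cast
    linarith

end

section
variable {K : Type} [Field K] [NumberField K] {k l r g : ℕ}
  {G : Fin l → MvPolynomial (Fin k) (𝓞 K)}
  {a : (MvPolynomial (Fin k) (𝓞 K))[X]} {α : Fin r → MvPolynomial (Fin k) (𝓞 K)}

variable (g a α l) in
/-- the constant -/
noncomputable def CC : ℝ :=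
  2 ^ l * (r + (dsc g a α (C : MvPolynomial (Fin k) (𝓞 K) →+* _) X).natDegree * (2 * g)) +
    2 ^ l + 2 * g

theorem smooth (ha : a.Monic) (hd : a.natDegree = 2 * g + 1) (hr : r ≤ 2 * g)
    (R : Finset (HeightOneSpectrum (𝓞 K))) :
    IsSmoothFamily (pencil g G a α) R (CC l g a α) := by
  intro κ _ _ φ _
  let _ := Fintype.ofFinite κ
  have h0 : (0 : ℝ) ≤ 2 ^ l * (r + (dsc g a α (C : MvPolynomial (Fin k) (𝓞 K) →+* _)
    X).natDegree * (2 * g)) := by positivity
  have h00 : (0 : ℝ) ≤ 2 ^ l := by positivity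
  have h01 : (0 : ℝ) ≤ 2 * (g : ℝ) := by positivity
  constructor
  · have h1 := card_pts (g := g) (G := G) (a := a) (α := α) φ
    refine le_trans (h1 : (Nat.card ((pencil g G a α).points φ) : ℝ) ≤ _) ?_
    rw [Nat.card_eq_fintype_card]
    refine mul_le_mul_of_nonneg_right ?_ (by positivity)
    unfold CC
    linarith
  · intro t ht
    obtain ⟨γ, h1, h2, h3⟩ := pts_eigen ha hd hr (show t ∈ pts g G a α φ from ht)
    refine ⟨γ, h1, ?_⟩
    rw [h2]
    unfold CC
    push_cast
    linarith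

theorem averageValue_iff (ha : a.Monic) (hd : a.natDegree = 2 * g + 1) (hr : r ≤ 2 * g)
    {κ : Type} [Field κ] [Fintype κ] (φ : 𝓞 K →+* κ) (z : ℝ) :
    averageValue (pencil g G a α) κ φ z ↔ z = (((Nat.card κ : ℝ) ^ (k + 1))⁻¹ * TT g G a α φ) := by
  constructor
  · rintro ⟨A, hA, rfl⟩
    rw [Pool.Agent.W353.FB.average_unique (pencil g G a α) (by show 1 ≤ 2 * 1; omega) hA
      (isAverage_TT ha hd hr φ), neg_neg]
  · rintro rfl
    exact ⟨_, isAverage_TT ha hd hr φ, (neg_neg _).symm⟩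

theorem bounded (ha : a.Monic) (hd : a.natDegree = 2 * g + 1) (hr : r ≤ 2 * g)
    (R : Finset (HeightOneSpectrum (𝓞 K))) :
    IsBounded (averageValue (pencil g G a α)) R (CC l g a α) := by
  intro κ _ _ φ _ z hz
  let _ := Fintype.ofFinite κ
  rw [averageValue_iff ha hd hr] at hz
  have h1 := TT_bound (G := G) (α := α) ha hd hr φ
  have h0 : (0 : ℝ) ≤ 2 ^ l := by positivity
  have h01 : (0 : ℝ) ≤ 2 * (g : ℝ) := by positivity
  have hq : (0 : ℝ) < (Fintype.card κ : ℝ) ^ (k + 1) := by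
    have : (0 : ℝ) < Fintype.card κ := by exact_mod_cast Fintype.card_pos (α := κ)
    positivity
  rw [hz, Nat.card_eq_fintype_card, abs_mul, abs_of_pos (inv_pos.2 hq), inv_mul_le_iff₀ hq]
  refine h1.trans ?_
  rw [mul_comm]
  refine mul_le_mul_of_nonneg_left ?_ hq.le
  unfold CC
  linarith

end

end Pool.Agent.Y707.PC
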