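import Pool.Agent.Y707.PH.Defs
import Pool.Agent.H82R3.EK.FF

/-! The smooth projective model of a hyperelliptic curve of odd degree: number of points. -/

set_option autoImplicit false
set_option maxHeartbeats 400000

namespace Pool.Agent.Y707.PC

open Pool.Agent.W353.FB (cone)

section
variable {R : Type} [CommRing R]

/-- The equations, in the homogeneous coordinates `u_0, ..., u_{g+1}` and `v = u_{g+2}`, of the smooth
projective model of `y ^ 2 = f(x)`, for `f` of degree `2 g + 1`: `u_i u_j = u_{i'} u_{j'}` for all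
`i + j = i' + j'`, and `v ^ 2 = ∑ f_m u_⌊m/2⌋ u_⌈m/2⌉`. -/
def modelEquations (g : ℕ) (f : Polynomial R) : Set (MvPolynomial (Fin (g + 3)) R) :=
  {p | (∃ i j i' j' : Fin (g + 2), (i : ℕ) + j = i' + j' ∧
      p = MvPolynomial.X i.castSucc * MvPolynomial.X j.castSucc -
        MvPolynomial.X i'.castSucc * MvPolynomial.X j'.castSucc) ∨
    p = MvPolynomial.X (Fin.last (g + 2)) ^ 2 - ∑ m : Fin (2 * g + 2),
      MvPolynomial.C (f.coeff m) * MvPolynomial.X ⟨(m : ℕ) / 2, by omega⟩ *
        MvPolynomial.X ⟨((m : ℕ) + 1) / 2, by omega⟩}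

variable {κ : Type} [Field κ]

/-- the solutions -/
def IsSol (g : ℕ) (f : Polynomial R) (φ : R →+* κ) (u : Fin (g + 3) → κ) : Prop :=
  (∀ i j i' j' : Fin (g + 2), (i : ℕ) + j = i' + j' →
    u i.castSucc * u j.castSucc = u i'.castSucc * u j'.castSucc) ∧
  u (Fin.last (g + 2)) ^ 2 = ∑ m : Fin (2 * g + 2), φ (f.coeff m) * u ⟨(m : ℕ) / 2, by omega⟩ *
    u ⟨((m : ℕ) + 1) / 2, by omega⟩

theorem sol_iff (g : ℕ) (f : Polynomial R) (φ : R →+* κ) (u : Fin (g + 3) → κ) :
    (∀ p ∈ modelEquations g f, MvPolynomial.eval₂ φ u p = 0) ↔ IsSol g f φ u := by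
  have e1 : ∀ i j i' j' : Fin (g + 3), MvPolynomial.eval₂ φ u
      (MvPolynomial.X i * MvPolynomial.X j - MvPolynomial.X i' * MvPolynomial.X j') =
        u i * u j - u i' * u j' := by
    intro i j i' j'
    rw [MvPolynomial.eval₂_sub, MvPolynomial.eval₂_mul, MvPolynomial.eval₂_mul]
    simp only [MvPolynomial.eval₂_X]
  have e2 : MvPolynomial.eval₂ φ u (MvPolynomial.X (Fin.last (g + 2)) ^ 2 -
      ∑ m : Fin (2 * g + 2), MvPolynomial.C (f.coeff m) *
        MvPolynomial.X ⟨(m : ℕ) / 2, by omega⟩ * MvPolynomial.X ⟨((m : ℕ) + 1) / 2, by omega⟩) =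
      u (Fin.last (g + 2)) ^ 2 - ∑ m : Fin (2 * g + 2), φ (f.coeff m) *
        u ⟨(m : ℕ) / 2, by omega⟩ * u ⟨((m : ℕ) + 1) / 2, by omega⟩ := by
    rw [MvPolynomial.eval₂_sub, MvPolynomial.eval₂_pow, MvPolynomial.eval₂_sum]
    simp only [MvPolynomial.eval₂_X, MvPolynomial.eval₂_mul, MvPolynomial.eval₂_C]
  constructor
  · intro h
    refine ⟨fun i j i' j' hij => ?_, ?_⟩
    · have := h _ (Or.inl ⟨i, j, i', j', hij, rfl⟩)
      rw [e1, sub_eq_zero] at this
      exact this
    · have := h _ (Or.inr rfl)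
      rw [e2, sub_eq_zero] at this
      exact this
  · rintro ⟨h1, h2⟩ p (⟨i, j, i', j', hij, rfl⟩ | rfl)
    · rw [e1, h1 i j i' j' hij, sub_self]
    · rw [e2, h2, sub_self]

/-- the point of the affine curve -/
def ptA (g : ℕ) (c x y : κ) : Fin (g + 3) → κ :=
  fun i => if (i : ℕ) < g + 2 then c * x ^ (i : ℕ) else c * y

/-- the point at infinity -/
def ptI (g : ℕ) (c : κ) : Fin (g + 3) → κ := fun i => if (i : ℕ) = g + 1 then c else 0

theorem isSol_ptA {g : ℕ} {f : Polynomial R} {φ : R →+* κ} (hf : f.natDegree ≤ 2 * g + 1)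
    {c x y : κ} (h : y ^ 2 = (f.map φ).eval x) : IsSol g f φ (ptA g c x y) := by
  have e : ∀ i : Fin (g + 2), ptA g c x y i.castSucc = c * x ^ (i : ℕ) := by
    intro i
    unfold ptA
    rw [if_pos (by rw [Fin.val_castSucc]; exact i.2), Fin.val_castSucc]
  have e' : ∀ (n : ℕ) (hn : n < g + 2), ptA g c x y ⟨n, by omega⟩ = c * x ^ n := by
    intro n hn
    unfold ptA
    exact if_pos hn
  refine ⟨fun i j i' j' hij => ?_, ?_⟩
  · rw [e, e, e, e]
    have : x ^ (i : ℕ) * x ^ (j : ℕ) = x ^ (i' : ℕ) * x ^ (j' : ℕ) := by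
      rw [← pow_add, ← pow_add, hij]
    linear_combination c ^ 2 * this
  · have h1 : ptA g c x y (Fin.last (g + 2)) = c * y := by
      unfold ptA
      rw [if_neg (by rw [Fin.val_last]; omega)]
    have h2 : (f.map φ).eval x = ∑ m : Fin (2 * g + 2), φ (f.coeff m) * x ^ (m : ℕ) := by
      rw [Polynomial.eval_map, Polynomial.eval₂_eq_sum_range' φ (n := 2 * g + 2) (by omega),
        Fin.sum_univ_eq_sum_range (fun m => φ (f.coeff m) * x ^ m)]
    rw [h1, mul_pow, h, h2, Finset.mul_sum]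
    refine Finset.sum_congr rfl fun m _ => ?_
    rw [e' _ (by omega), e' _ (by omega)]
    have h3 : x ^ (m : ℕ) = x ^ ((m : ℕ) / 2) * x ^ (((m : ℕ) + 1) / 2) := by
      rw [← pow_add]
      congr 1
      omega
    rw [h3]
    ring

theorem isSol_ptI {g : ℕ} {f : Polynomial R} {φ : R →+* κ} (c : κ) :
    IsSol g f φ (ptI g c) := by
  have e : ∀ i : Fin (g + 2), ptI g c i.castSucc = if (i : ℕ) = g + 1 then c else 0 :=
    fun i => rfl
  refine ⟨fun i j i' j' hij => ?_, ?_⟩
  · rw [e, e, e, e]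
    have hi := i.2
    have hj := j.2
    have hi' := i'.2
    have hj' := j'.2
    by_cases h1 : (i : ℕ) = g + 1 ∧ (j : ℕ) = g + 1
    · rw [if_pos h1.1, if_pos h1.2, if_pos (by omega), if_pos (by omega)]
    · have h2 : ¬ ((i' : ℕ) = g + 1 ∧ (j' : ℕ) = g + 1) := by omega
      have h3 : (if (i : ℕ) = g + 1 then c else 0) * (if (j : ℕ) = g + 1 then c else 0) = 0 := by
        by_cases h4 : (i : ℕ) = g + 1
        · rw [if_neg (fun h5 => h1 ⟨h4, h5⟩), mul_zero]
        · rw [if_neg h4, zero_mul]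
      have h4 : (if (i' : ℕ) = g + 1 then c else 0) * (if (j' : ℕ) = g + 1 then c else 0) = 0 := by
        by_cases h4 : (i' : ℕ) = g + 1
        · rw [if_neg (fun h5 => h2 ⟨h4, h5⟩), mul_zero]
        · rw [if_neg h4, zero_mul]
      rw [h3, h4]
  · have h1 : ptI g c (Fin.last (g + 2)) = 0 := by
      unfold ptI
      rw [if_neg (by rw [Fin.val_last]; omega)]
    rw [h1]
    symm
    rw [zero_pow two_ne_zero]
    refine Finset.sum_eq_zero fun m _ => ?_
    have h2 : ptI g c ⟨(m : ℕ) / 2, by omega⟩ = 0 := by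
      unfold ptI
      refine if_neg ?_
      show ¬ (m : ℕ) / 2 = g + 1
      have := m.2
      omega
    rw [h2, mul_zero, zero_mul]

/-- all solutions -/
theorem sol_cases {g : ℕ} {f : Polynomial R} {φ : R →+* κ} (hf : f.natDegree ≤ 2 * g + 1)
    {u : Fin (g + 3) → κ} (hu : IsSol g f φ u) (h0 : u ≠ 0) :
    (∃ c x y : κ, c ≠ 0 ∧ y ^ 2 = (f.map φ).eval x ∧ u = ptA g c x y) ∨
    (∃ c : κ, c ≠ 0 ∧ u = ptI g c) := by
  obtain ⟨h1, h2⟩ := hu
  by_cases hz : u ⟨0, by omega⟩ = 0
  · right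
    have hv : ∀ n (hn : n ≤ g), u ⟨n, by omega⟩ = 0 := by
      intro n
      induction n with
      | zero => intro _; exact hz
      | succ n ih =>
        intro hn
        have h3 := h1 ⟨n + 1, by omega⟩ ⟨n + 1, by omega⟩ ⟨n, by omega⟩ ⟨n + 2, by omega⟩ (by
          show n + 1 + (n + 1) = n + (n + 2)
          omega)
        have h4 : u (Fin.castSucc ⟨n, by omega⟩) = 0 := ih (by omega)
        rw [h4, zero_mul] at h3
        exact mul_self_eq_zero.1 h3
    have hlast : u (Fin.last (g + 2)) = 0 := by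
      have h3 : u (Fin.last (g + 2)) ^ 2 = 0 := by
        rw [h2]
        refine Finset.sum_eq_zero fun m _ => ?_
        have := m.2
        rw [hv ((m : ℕ) / 2) (by omega), mul_zero, zero_mul]
      exact pow_eq_zero_iff (two_ne_zero) |>.1 h3
    have hui : u = ptI g (u ⟨g + 1, by omega⟩) := by
      funext i
      unfold ptI
      by_cases h3 : (i : ℕ) = g + 1
      · rw [if_pos h3]
        congr 1
        exact Fin.ext h3
      · rw [if_neg h3]
        by_cases h4 : (i : ℕ) ≤ g
        · have h5 := hv i h4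
          have h6 : (⟨(i : ℕ), by omega⟩ : Fin (g + 3)) = i := Fin.ext rfl
          rwa [h6] at h5
        · have h5 : i = Fin.last (g + 2) := by
            apply Fin.ext
            rw [Fin.val_last]
            have := i.2
            omega
          rw [h5]
          exact hlast
    refine ⟨_, ?_, hui⟩
    intro h3
    apply h0
    rw [hui, h3]
    funext i
    unfold ptI
    split_ifs <;> rfl
  · left
    obtain ⟨c, hc⟩ : ∃ c, c = u ⟨0, by omega⟩ := ⟨_, rfl⟩
    obtain ⟨x, hx⟩ : ∃ x, x = u ⟨1, by omega⟩ / c := ⟨_, rfl⟩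
    obtain ⟨y, hy⟩ : ∃ y, y = u (Fin.last (g + 2)) / c := ⟨_, rfl⟩
    have hc0 : c ≠ 0 := by rw [hc]; exact hz
    have hcx : u ⟨1, by omega⟩ = c * x := by rw [hx]; field_simp
    have hcy : u (Fin.last (g + 2)) = c * y := by rw [hy]; field_simp
    have hv : ∀ n (hn : n < g + 2), u ⟨n, by omega⟩ = c * x ^ n := by
      intro n
      induction n with
      | zero =>
        intro _
        rw [pow_zero, mul_one]
        exact hc.symm
      | succ n ih =>
        intro hn
        have h3 := h1 ⟨0, by omega⟩ ⟨n + 1, by omega⟩ ⟨1, by omega⟩ ⟨n, by omega⟩ (by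
          show 0 + (n + 1) = 1 + n
          omega)
        have h4 : u (Fin.castSucc ⟨0, by omega⟩) = c := hc.symm
        have h5 : u (Fin.castSucc ⟨1, by omega⟩) = c * x := hcx
        have h6 : u (Fin.castSucc ⟨n, by omega⟩) = c * x ^ n := ih (by omega)
        have h7 : u (Fin.castSucc ⟨n + 1, by omega⟩) = u ⟨n + 1, by omega⟩ := rfl
        rw [h4, h5, h6, h7] at h3
        apply mul_left_cancel₀ hc0
        rw [h3, pow_succ]
        ring
    have hue : u = ptA g c x y := by
      funext i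
      unfold ptA
      by_cases h3 : (i : ℕ) < g + 2
      · rw [if_pos h3]
        have h5 := hv i h3
        have h6 : (⟨(i : ℕ), by omega⟩ : Fin (g + 3)) = i := Fin.ext rfl
        rwa [h6] at h5
      · rw [if_neg h3, ← hcy]
        congr 1
        apply Fin.ext
        rw [Fin.val_last]
        have := i.2
        omega
    refine ⟨c, x, y, hc0, ?_, hue⟩
    have h3 : (f.map φ).eval x = ∑ m : Fin (2 * g + 2), φ (f.coeff m) * x ^ (m : ℕ) := by
      rw [Polynomial.eval_map, Polynomial.eval₂_eq_sum_range' φ (n := 2 * g + 2) (by omega),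
        Fin.sum_univ_eq_sum_range (fun m => φ (f.coeff m) * x ^ m)]
    rw [hcy] at h2
    have h4 : ∑ m : Fin (2 * g + 2), φ (f.coeff m) * u ⟨(m : ℕ) / 2, by omega⟩ *
        u ⟨((m : ℕ) + 1) / 2, by omega⟩ =
        c ^ 2 * ∑ m : Fin (2 * g + 2), φ (f.coeff m) * x ^ (m : ℕ) := by
      rw [Finset.mul_sum]
      refine Finset.sum_congr rfl fun m _ => ?_
      have := m.2
      rw [hv _ (by omega), hv _ (by omega)]
      have h5 : x ^ (m : ℕ) = x ^ ((m : ℕ) / 2) * x ^ (((m : ℕ) + 1) / 2) := by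
        rw [← pow_add]
        congr 1
        omega
      rw [h5]
      ring
    rw [h4, ← h3, mul_pow] at h2
    exact mul_left_cancel₀ (pow_ne_zero 2 hc0) h2

/-- **The number of the points.** -/
theorem cone_eq (g : ℕ) {f : Polynomial R} (hf : f.natDegree ≤ 2 * g + 1) [Finite κ]
    (φ : R →+* κ) :
    cone (modelEquations g f) φ =
      (Nat.card κ - 1) * (Nat.card {z : κ × κ // z.2 ^ 2 = (f.map φ).eval z.1} + 1) := by
  classical
  have : Fintype κ := Fintype.ofFinite κ
  unfold cone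
  let ψ : κˣ × (({z : κ × κ // z.2 ^ 2 = (f.map φ).eval z.1}) ⊕ Unit) →
      {u : Fin (g + 3) → κ // u ≠ 0 ∧ ∀ p ∈ modelEquations g f, MvPolynomial.eval₂ φ u p = 0} :=
    fun z => match z with
    | (c, Sum.inl w) => ⟨ptA g c w.1.1 w.1.2, by
        refine ⟨fun h => ?_, (sol_iff g f φ _).2 (isSol_ptA hf w.2)⟩
        have h1 := congrFun h ⟨0, by omega⟩
        unfold ptA at h1
        rw [if_pos (by show 0 < g + 2; omega)] at h1
        have h2 : (c : κ) * w.1.1 ^ 0 = 0 := h1
        rw [pow_zero, mul_one] at h2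
        exact c.ne_zero h2⟩
    | (c, Sum.inr _) => ⟨ptI g c, by
        refine ⟨fun h => ?_, (sol_iff g f φ _).2 (isSol_ptI _)⟩
        have h1 := congrFun h ⟨g + 1, by omega⟩
        unfold ptI at h1
        rw [if_pos rfl] at h1
        exact c.ne_zero h1⟩
  have hψ : Function.Bijective ψ := by
    constructor
    · rintro ⟨c, w⟩ ⟨c', w'⟩ h
      have h1 : ∀ i, (ψ (c, w)).1 i = (ψ (c', w')).1 i := fun i => by rw [h]
      have hA0 : ∀ (c x y : κ), ptA g c x y ⟨0, by omega⟩ = c := by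
        intro c x y
        unfold ptA
        rw [if_pos (by show 0 < g + 2; omega)]
        show c * x ^ 0 = c
        rw [pow_zero, mul_one]
      have hA1 : ∀ (c x y : κ), ptA g c x y ⟨1, by omega⟩ = c * x := by
        intro c x y
        unfold ptA
        rw [if_pos (by show 1 < g + 2; omega)]
        show c * x ^ 1 = c * x
        rw [pow_one]
      have hA2 : ∀ (c x y : κ), ptA g c x y (Fin.last (g + 2)) = c * y := by
        intro c x y
        unfold ptA
        rw [if_neg (by rw [Fin.val_last]; omega)]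
      have hI0 : ∀ c : κ, ptI g c ⟨0, by omega⟩ = 0 := by
        intro c
        unfold ptI
        exact if_neg (by show ¬ 0 = g + 1; omega)
      have hI1 : ∀ c : κ, ptI g c ⟨g + 1, by omega⟩ = c := by
        intro c
        unfold ptI
        exact if_pos rfl
      rcases w with ⟨⟨x, y⟩, hw⟩ | u <;> rcases w' with ⟨⟨x', y'⟩, hw'⟩ | u'
      · have e0 : ptA g (c : κ) x y ⟨0, by omega⟩ = ptA g (c' : κ) x' y' ⟨0, by omega⟩ :=
          h1 ⟨0, by omega⟩
        have e1 : ptA g (c : κ) x y ⟨1, by omega⟩ = ptA g (c' : κ) x' y' ⟨1, by omega⟩ :=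
          h1 ⟨1, by omega⟩
        have e2 : ptA g (c : κ) x y (Fin.last (g + 2)) =
          ptA g (c' : κ) x' y' (Fin.last (g + 2)) := h1 (Fin.last (g + 2))
        rw [hA0, hA0] at e0
        have hcc : c = c' := Units.ext e0
        subst hcc
        rw [hA1, hA1] at e1
        rw [hA2, hA2] at e2
        have hx := mul_left_cancel₀ c.ne_zero e1
        have hy := mul_left_cancel₀ c.ne_zero e2
        subst hx
        subst hy
        rfl
      · exfalso
        have e0 : ptA g (c : κ) x y ⟨0, by omega⟩ = ptI g (c' : κ) ⟨0, by omega⟩ :=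
          h1 ⟨0, by omega⟩
        rw [hA0, hI0] at e0
        exact c.ne_zero e0
      · exfalso
        have e0 : ptI g (c : κ) ⟨0, by omega⟩ = ptA g (c' : κ) x' y' ⟨0, by omega⟩ :=
          h1 ⟨0, by omega⟩
        rw [hA0, hI0] at e0
        exact c'.ne_zero e0.symm
      · have e0 : ptI g (c : κ) ⟨g + 1, by omega⟩ = ptI g (c' : κ) ⟨g + 1, by omega⟩ :=
          h1 ⟨g + 1, by omega⟩
        rw [hI1, hI1] at e0
        rw [Units.ext e0]
    · rintro ⟨u, hu0, hu⟩
      rcases sol_cases hf ((sol_iff g f φ u).1 hu) hu0 with ⟨c, x, y, hc, hxy, rfl⟩ | ⟨c, hc, rfl⟩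
      · exact ⟨(Units.mk0 c hc, Sum.inl ⟨(x, y), hxy⟩), rfl⟩
      · exact ⟨(Units.mk0 c hc, Sum.inr ()), rfl⟩
  rw [← Nat.card_congr (Equiv.ofBijective ψ hψ), Nat.card_prod, Nat.card_sum,
    Nat.card_units, Nat.card_unique (α := Unit)]

end

end Pool.Agent.Y707.PC
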