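import Mathlib

/-! Products of a constant and a square. -/

set_option autoImplicit false
set_option maxHeartbeats 400000

namespace Pool.Agent.Y707.PC

open Polynomial

/-- `p` is a constant times a square, up to denominators -/
def IsConstSq {R : Type} [CommRing R] {k : ℕ} (p : MvPolynomial (Fin k) R) : Prop :=
  ∃ c d : R, c ≠ 0 ∧ d ≠ 0 ∧ ∃ H : MvPolynomial (Fin k) R,
    MvPolynomial.C d * p = MvPolynomial.C c * H ^ 2

section
variable {F : Type} [Field F]

theorem sq_decomp (n : ℕ) : ∀ P : F[X], P.natDegree ≤ n → P ≠ 0 →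
    ∃ s H : F[X], P = s * H ^ 2 ∧ Squarefree s := by
  induction n with
  | zero =>
    intro P hP h0
    refine ⟨P, 1, by ring, ?_⟩
    have : IsUnit P := by
      rw [eq_C_of_natDegree_le_zero hP] at h0 ⊢
      exact isUnit_C.2 (isUnit_iff_ne_zero.2 fun h => h0 (by rw [h, C_0]))
    exact this.squarefree
  | succ n ih =>
    intro P hP h0
    by_cases hs : Squarefree P
    · exact ⟨P, 1, by ring, hs⟩
    · rw [Squarefree] at hs
      push Not at hs
      obtain ⟨x, ⟨Q, hQ⟩, hx⟩ := hs
      have hx0 : x ≠ 0 := by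
        rintro rfl
        apply h0
        rw [hQ]
        ring
      have hQ0 : Q ≠ 0 := by
        rintro rfl
        apply h0
        rw [hQ, mul_zero]
      have h1 : 1 ≤ x.natDegree := by
        by_contra hcon
        apply hx
        have h2 : x.natDegree ≤ 0 := by omega
        rw [eq_C_of_natDegree_le_zero h2] at hx0 ⊢
        exact isUnit_C.2 (isUnit_iff_ne_zero.2 fun h => hx0 (by rw [h, C_0]))
      have h3 : P.natDegree = x.natDegree + x.natDegree + Q.natDegree := by
        rw [hQ, natDegree_mul (mul_ne_zero hx0 hx0) hQ0, natDegree_mul hx0 hx0]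
      obtain ⟨s, H, h4, h5⟩ := ih Q (by omega) hQ0
      exact ⟨s, x * H, by rw [hQ, h4]; ring, h5⟩

end

section
variable {A : Type} [CommRing A] [IsDomain A]

theorem clear_sq (P : A[X]) (hP : P ≠ 0) : ∃ (d : A) (s H : A[X]), d ≠ 0 ∧ H ≠ 0 ∧
    C d * P = s * H ^ 2 ∧ Squarefree (s.map (algebraMap A (FractionRing A))) := by
  have hinj : Function.Injective (algebraMap A (FractionRing A)) := IsFractionRing.injective A _
  have hP' : P.map (algebraMap A (FractionRing A)) ≠ 0 := by
    rwa [Ne, Polynomial.map_eq_zero_iff hinj]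
  obtain ⟨s, H, h1, h2⟩ := sq_decomp _ _ le_rfl hP'
  obtain ⟨ca, hca, ha⟩ := IsLocalization.integerNormalization_spec (nonZeroDivisors A) s
  obtain ⟨cb, hcb, hb⟩ := IsLocalization.integerNormalization_spec (nonZeroDivisors A) H
  have hca0 : ca ≠ 0 := nonZeroDivisors.ne_zero hca
  have hcb0 : cb ≠ 0 := nonZeroDivisors.ne_zero hcb
  have e : ∀ (c : A) (p : (FractionRing A)[X]), c • p = C (algebraMap A _ c) * p := by
    intro c p
    rw [← Polynomial.smul_eq_C_mul, algebraMap_smul]
  rw [e] at ha hb
  have hca1 : algebraMap A (FractionRing A) ca ≠ 0 := by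
    rwa [Ne, map_eq_zero_iff _ hinj]
  have hH0 : H ≠ 0 := by
    rintro rfl
    apply hP'
    rw [h1]
    ring
  have hcb1 : algebraMap A (FractionRing A) cb ≠ 0 := by
    rwa [Ne, map_eq_zero_iff _ hinj]
  refine ⟨ca * cb ^ 2, IsLocalization.integerNormalization (nonZeroDivisors A) s,
    IsLocalization.integerNormalization (nonZeroDivisors A) H,
    mul_ne_zero hca0 (pow_ne_zero 2 hcb0), ?_, ?_, ?_⟩
  · intro h0
    rw [h0, Polynomial.map_zero] at hb
    have := hb.symm
    rw [mul_eq_zero, C_eq_zero] at this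
    exact this.elim hcb1 hH0
  · apply Polynomial.map_injective (algebraMap A (FractionRing A)) hinj
    rw [Polynomial.map_mul, Polynomial.map_mul, Polynomial.map_pow, ha, hb, h1, Polynomial.map_C,
      map_mul, map_pow, C_mul, C_pow]
    ring
  · rw [ha]
    have hu : IsUnit (C (algebraMap A (FractionRing A) ca)) := isUnit_C.2 (isUnit_iff_ne_zero.2 hca1)
    intro x hx
    exact h2 x ((hu.dvd_mul_left).1 hx)

/-- the resultant with the derivative -/
theorem bezout_sep' (h : A[X]) (hsep : (h.map (algebraMap A (FractionRing A))).Separable) :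
    ∃ (r : A) (U V : A[X]), r ≠ 0 ∧ U * h + V * derivative h = C r := by
  have hinj : Function.Injective (algebraMap A (FractionRing A)) := IsFractionRing.injective A _
  obtain ⟨a, b, hab⟩ := hsep
  obtain ⟨ca, hca, ha⟩ := IsLocalization.integerNormalization_spec (nonZeroDivisors A) a
  obtain ⟨cb, hcb, hb⟩ := IsLocalization.integerNormalization_spec (nonZeroDivisors A) b
  refine ⟨ca * cb, C cb * IsLocalization.integerNormalization (nonZeroDivisors A) a,
    C ca * IsLocalization.integerNormalization (nonZeroDivisors A) b,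
    mul_ne_zero (nonZeroDivisors.ne_zero hca) (nonZeroDivisors.ne_zero hcb), ?_⟩
  apply Polynomial.map_injective (algebraMap A (FractionRing A)) hinj
  rw [Polynomial.map_add, Polynomial.map_mul, Polynomial.map_mul, Polynomial.map_mul,
    Polynomial.map_mul, ← Polynomial.derivative_map, ha, hb, Polynomial.map_C, Polynomial.map_C,
    Polynomial.map_C, map_mul, Polynomial.C_mul]
  have e : ∀ (c : A) (p : Polynomial (FractionRing A)), c • p = C (algebraMap A _ c) * p := by
    intro c p
    rw [← Polynomial.smul_eq_C_mul, algebraMap_smul]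
  rw [e, e]
  linear_combination (C (algebraMap A (FractionRing A) ca) * C (algebraMap A (FractionRing A) cb)) * hab

end

section
variable {R : Type} [CommRing R] [IsDomain R] {n : ℕ}

theorem clear_mv (w : MvPolynomial (Fin n) (FractionRing R)) : ∃ (b : R)
    (w' : MvPolynomial (Fin n) R), b ≠ 0 ∧ MvPolynomial.C (algebraMap R (FractionRing R) b) * w =
      MvPolynomial.map (algebraMap R (FractionRing R)) w' := by
  let _ : Algebra (MvPolynomial (Fin n) R) (MvPolynomial (Fin n) (FractionRing R)) :=
    MvPolynomial.algebraMvPolynomial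
  obtain ⟨⟨x, ⟨_, b, hb, rfl⟩⟩, h⟩ := IsLocalization.surj
    (M := (nonZeroDivisors R).map (MvPolynomial.C (σ := Fin n))) w
  refine ⟨b, x, nonZeroDivisors.ne_zero hb, ?_⟩
  have h1 : w * MvPolynomial.map (algebraMap R (FractionRing R)) (MvPolynomial.C b) =
      MvPolynomial.map (algebraMap R (FractionRing R)) x := h
  rw [MvPolynomial.map_C] at h1
  rw [← h1, mul_comm]

/-- descent -/
theorem IsConstSq.descend {p q H : MvPolynomial (Fin n) R} (hq : q ≠ 0) {f e : R} (hf : f ≠ 0)
    (he : e ≠ 0) (h : q ^ 2 * (MvPolynomial.C e * p) = MvPolynomial.C f * H ^ 2) :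
    IsConstSq p := by
  have hinj : Function.Injective (algebraMap R (FractionRing R)) := IsFractionRing.injective R _
  have hmi := MvPolynomial.map_injective (σ := Fin n) (algebraMap R (FractionRing R)) hinj
  set μ := MvPolynomial.map (σ := Fin n) (algebraMap R (FractionRing R)) with hμ
  have h1 := congrArg μ h
  rw [map_mul, map_mul, map_mul, map_pow, map_pow, MvPolynomial.map_C, MvPolynomial.map_C] at h1
  have hf1 : algebraMap R (FractionRing R) f ≠ 0 := by rwa [Ne, map_eq_zero_iff _ hinj]
  have hfu : IsUnit (MvPolynomial.C (σ := Fin n) (algebraMap R (FractionRing R) f)) :=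
    (isUnit_iff_ne_zero.2 hf1).map MvPolynomial.C
  have h2 : μ q ^ 2 ∣ μ H ^ 2 := by
    rw [← hfu.dvd_mul_left, ← h1]
    exact dvd_mul_right _ _
  have h3 : μ q ∣ μ H := (IsIntegrallyClosed.pow_dvd_pow_iff two_ne_zero).1 h2
  obtain ⟨w, hw⟩ := h3
  have hq1 : μ q ≠ 0 := fun h0 => hq (hmi (by rw [h0, map_zero]))
  have h4 : MvPolynomial.C (algebraMap R (FractionRing R) e) * μ p =
      MvPolynomial.C (algebraMap R (FractionRing R) f) * w ^ 2 := by
    apply mul_left_cancel₀ (pow_ne_zero 2 hq1)
    rw [h1, hw]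
    ring
  obtain ⟨b, w', hb, hw'⟩ := clear_mv w
  refine ⟨f, b ^ 2 * e, hf, mul_ne_zero (pow_ne_zero 2 hb) he, w', hmi ?_⟩
  rw [MvPolynomial.C_mul, MvPolynomial.C_pow, map_mul, map_mul, map_mul, map_pow, map_pow,
    MvPolynomial.map_C, MvPolynomial.map_C, MvPolynomial.map_C, ← hw']
  linear_combination (MvPolynomial.C (algebraMap R (FractionRing R) b)) ^ 2 * h4

theorem isConstSq_fin_zero (p : MvPolynomial (Fin 0) R) : IsConstSq p := by
  obtain ⟨c, rfl⟩ := MvPolynomial.C_surjective (Fin 0) p
  by_cases hc : c = 0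
  · exact ⟨1, 1, one_ne_zero, one_ne_zero, 0, by rw [hc, map_zero]; ring⟩
  · exact ⟨c, 1, hc, one_ne_zero, 1, by rw [map_one]; ring⟩

end

end Pool.Agent.Y707.PC
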