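import Pool.Agent.Y707.PC.Csq
import Pool.Agent.H126R3.CharM

/-! Sums of the quadratic character over the values of a polynomial in several variables. -/

set_option autoImplicit false
set_option maxHeartbeats 400000

namespace Pool.Agent.Y707.PC

open Polynomial Finset

section
variable {κ : Type} [Field κ] [Fintype κ]

open Classical in
/-- the real valued quadratic character -/
noncomputable def ch (x : κ) : ℝ := (quadraticChar κ x : ℝ)

theorem ch_zero : ch (0 : κ) = 0 := by
  classical
  unfold ch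
  rw [MulChar.map_zero]
  exact Int.cast_zero

theorem ch_mul (x y : κ) : ch (x * y) = ch x * ch y := by
  classical
  unfold ch
  rw [map_mul, Int.cast_mul]

theorem ch_sq {x : κ} (hx : x ≠ 0) : ch x ^ 2 = 1 := by
  classical
  unfold ch
  rw [← Int.cast_pow, quadraticChar_sq_one hx, Int.cast_one]

theorem ch_abs (x : κ) : |ch x| ≤ 1 := by
  by_cases hx : x = 0
  · rw [hx, ch_zero, abs_zero]
    exact zero_le_one
  · have h := ch_sq hx
    exact (sq_le_one_iff_abs_le_one _).1 h.le

open Classical in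
theorem card_zeros {H : κ[X]} (hH : H ≠ 0) :
    ((univ.filter fun x => H.eval x = 0).card : ℝ) ≤ H.natDegree := by
  have h1 : univ.filter (fun x => H.eval x = 0) ⊆ H.roots.toFinset := by
    intro x hx
    rw [mem_filter] at hx
    rw [Multiset.mem_toFinset, mem_roots hH]
    exact hx.2
  have h2 := (card_le_card h1).trans (H.roots.toFinset_card_le.trans (card_roots' H))
  exact_mod_cast h2

theorem lin_bound (h2 : ringChar κ ≠ 2) {P s H : κ[X]} {d : κ} (hd : d ≠ 0)
    (h : C d * P = s * H ^ 2) (hs : s.Separable) (hm : 1 ≤ s.natDegree) (hH : H ≠ 0) :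
    |∑ x : κ, ch (P.eval x)| ≤
      ((s.natDegree : ℝ) - 1) * Real.sqrt (Fintype.card κ) + H.natDegree := by
  classical
  have e : ∀ x : κ, ch (P.eval x) =
      ch d * (ch (s.eval x) - if H.eval x = 0 then ch (s.eval x) else 0) := by
    intro x
    have h3 := congrArg (eval x) h
    rw [eval_mul, eval_C, eval_mul, eval_pow] at h3
    have h4 : ch d * ch (P.eval x) = ch (s.eval x) * ch (H.eval x ^ 2) := by
      rw [← ch_mul, h3, ch_mul]
    have h5 : ch (H.eval x ^ 2) = if H.eval x = 0 then 0 else 1 := by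
      split_ifs with h0
      · rw [h0, zero_pow two_ne_zero, ch_zero]
      · rw [sq, ch_mul, ← sq, ch_sq h0]
    have h6 : ch (P.eval x) = ch d * (ch d * ch (P.eval x)) := by
      have := ch_sq hd
      linear_combination -(ch (P.eval x)) * this
    rw [h6, h4, h5]
    split_ifs <;> ring
  simp only [e]
  rw [← mul_sum, abs_mul, sum_sub_distrib]
  have h7 : |∑ x : κ, ch (s.eval x)| ≤
      ((s.natDegree : ℝ) - 1) * Real.sqrt (Fintype.card κ) := by
    have h3 := Pool.Agent.H341R2.Sharp.weil_sharp h2 s hm (by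
      intro c g hc
      have hsq := hs.squarefree
      have hg : IsUnit g := by
        apply hsq g
        rw [hc, ← sq]
        exact Dvd.intro_left _ rfl
      have hc0 : c ≠ 0 := by
        rintro rfl
        rw [Polynomial.C_0, zero_mul] at hc
        rw [hc, Polynomial.natDegree_zero] at hm
        omega
      rw [hc, Polynomial.natDegree_C_mul hc0, Polynomial.natDegree_pow,
        Polynomial.natDegree_eq_zero_of_isUnit hg] at hm
      omega)
    exact h3
  have h8 : |∑ x : κ, if H.eval x = 0 then ch (s.eval x) else 0| ≤ H.natDegree := by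
    rw [← sum_filter]
    refine (abs_sum_le_sum_abs _ _).trans ((sum_le_sum fun x _ => ch_abs _).trans ?_)
    rw [sum_const, nsmul_eq_mul, mul_one]
    exact card_zeros hH
  calc |ch d| * |∑ x : κ, ch (s.eval x) - ∑ x : κ, if H.eval x = 0 then ch (s.eval x) else 0|
      ≤ 1 * (|∑ x : κ, ch (s.eval x)| + |∑ x : κ, if H.eval x = 0 then ch (s.eval x) else 0|) :=
        mul_le_mul (ch_abs _) (abs_sub _ _) (abs_nonneg _) zero_le_one
    _ ≤ _ := by linarith

theorem lin_sq {P H : κ[X]} {c d : κ} (hc : c ≠ 0) (h : C c * P = C d * H ^ 2) (hH : H ≠ 0) :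
    |∑ x : κ, ch (P.eval x) - Fintype.card κ * ch (c * d)| ≤ H.natDegree := by
  classical
  have e : ∀ x : κ, ch (P.eval x) = ch (c * d) - if H.eval x = 0 then ch (c * d) else 0 := by
    intro x
    have h3 := congrArg (eval x) h
    rw [eval_mul, eval_C, eval_mul, eval_C, eval_pow] at h3
    have h4 : ch c * ch (P.eval x) = ch d * ch (H.eval x ^ 2) := by
      rw [← ch_mul, h3, ch_mul]
    have h5 : ch (H.eval x ^ 2) = if H.eval x = 0 then 0 else 1 := by
      split_ifs with h0
      · rw [h0, zero_pow two_ne_zero, ch_zero]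
      · rw [sq, ch_mul, ← sq, ch_sq h0]
    have h6 : ch (P.eval x) = ch c * (ch c * ch (P.eval x)) := by
      have := ch_sq hc
      linear_combination -(ch (P.eval x)) * this
    rw [h6, h4, h5, ch_mul]
    split_ifs <;> ring
  simp only [e]
  rw [sum_sub_distrib, sum_const, card_univ, nsmul_eq_mul]
  have h9 : (Fintype.card κ * ch (c * d) - ∑ x : κ, if H.eval x = 0 then ch (c * d) else 0) -
      Fintype.card κ * ch (c * d) = -∑ x : κ, if H.eval x = 0 then ch (c * d) else 0 := by ring
  rw [h9, abs_neg, ← sum_filter]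
  refine (abs_sum_le_sum_abs _ _).trans ((sum_le_sum fun x _ => ch_abs _).trans ?_)
  rw [sum_const, nsmul_eq_mul, mul_one]
  exact card_zeros hH

end

section
variable {R : Type} [CommRing R] [IsDomain R] {k : ℕ}

/-- sums over the points of affine space, with exceptions on a hypersurface -/
theorem fam_sum {N : MvPolynomial (Fin k) R} (hN : N ≠ 0) : ∃ (D : ℝ) (c : R), 0 ≤ D ∧ c ≠ 0 ∧
    ∀ (κ : Type) [Field κ] [Fintype κ] (φ : R →+* κ), φ c ≠ 0 →
      ∀ (T : (Fin k → κ) → ℝ) (c1 c2 : ℝ), 0 ≤ c1 → 0 ≤ c2 →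
      (∀ u, MvPolynomial.eval₂Hom φ u N ≠ 0 → |T u| ≤ c1) →
      (∀ u, |T u| ≤ c2 * Fintype.card κ) →
      |∑ u : Fin k → κ, T u| ≤ (c1 + c2 * D) * (Fintype.card κ : ℝ) ^ k := by
  classical
  obtain ⟨μ, hμ⟩ := MvPolynomial.exists_coeff_ne_zero hN
  refine ⟨N.totalDegree, MvPolynomial.coeff μ N, Nat.cast_nonneg _, hμ, ?_⟩
  intro κ _ _ φ hφ T c1 c2 hc1 hc2 h1 h2
  have hw' : MvPolynomial.map φ N ≠ 0 := by
    intro h0
    apply hφ
    have := congrArg (MvPolynomial.coeff μ) h0
    rw [MvPolynomial.coeff_map, MvPolynomial.coeff_zero] at this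
    exact this
  have hbad := Pool.Agent.H126R3.sz (MvPolynomial.map φ N) hw'
  have hev : ∀ t : Fin k → κ, MvPolynomial.eval t (MvPolynomial.map φ N) =
      MvPolynomial.eval₂Hom φ t N := by
    intro t
    rw [MvPolynomial.eval_map]
    rfl
  simp only [hev] at hbad
  rw [Nat.card_eq_fintype_card, Fintype.card_subtype, Fintype.card_fin] at hbad
  have hdeg : ((MvPolynomial.map φ N).totalDegree : ℝ) ≤ N.totalDegree := by
    exact_mod_cast Finset.sup_mono (MvPolynomial.support_map_subset _ _)
  have h4 : ((Finset.filter (fun u : Fin k → κ => MvPolynomial.eval₂Hom φ u N = 0)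
      Finset.univ).card : ℝ) * Fintype.card κ ≤ N.totalDegree * (Fintype.card κ : ℝ) ^ k :=
    hbad.trans (mul_le_mul_of_nonneg_right hdeg (by positivity))
  have h5 : ∀ u : Fin k → κ, |T u| ≤ c1 +
      if MvPolynomial.eval₂Hom φ u N = 0 then c2 * Fintype.card κ else 0 := by
    intro u
    split_ifs with h0
    · exact (h2 u).trans (by linarith)
    · exact (h1 u h0).trans (by linarith)
  refine (abs_sum_le_sum_abs _ _).trans ((sum_le_sum fun u _ => h5 u).trans ?_)
  rw [sum_add_distrib, sum_const, card_univ, Fintype.card_fun, Fintype.card_fin, nsmul_eq_mul,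
    ← sum_filter, sum_const, nsmul_eq_mul]
  push_cast
  have h6 := mul_le_mul_of_nonneg_left h4 hc2
  linarith

theorem eval_cons {κ : Type} [Field κ] (φ : R →+* κ) (y : κ) (u : Fin k → κ)
    (p : MvPolynomial (Fin (k + 1)) R) :
    MvPolynomial.eval₂Hom φ (Fin.cons y u : Fin (k + 1) → κ) p =
      ((MvPolynomial.finSuccEquiv R k p).map (MvPolynomial.eval₂Hom φ u)).eval y := by
  have h : (MvPolynomial.eval₂Hom φ (Fin.cons y u : Fin (k + 1) → κ)) =
      (Polynomial.evalRingHom y).comp ((Polynomial.mapRingHom (MvPolynomial.eval₂Hom φ u)).comp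
        (MvPolynomial.finSuccEquiv R k : MvPolynomial (Fin (k + 1)) R →+* _)) := by
    apply MvPolynomial.ringHom_ext
    · intro r
      simp [MvPolynomial.finSuccEquiv_apply]
    · intro i
      refine Fin.cases ?_ (fun j => ?_) i
      · simp [MvPolynomial.finSuccEquiv_X_zero]
      · simp [MvPolynomial.finSuccEquiv_X_succ]
  rw [h]
  rfl

theorem sum_cons {κ : Type} [Field κ] [Fintype κ] (φ : R →+* κ)
    (p : MvPolynomial (Fin (k + 1)) R) :
    ∑ x : Fin (k + 1) → κ, ch (MvPolynomial.eval₂Hom φ x p) = ∑ u : Fin k → κ, ∑ y : κ,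
      ch (((MvPolynomial.finSuccEquiv R k p).map (MvPolynomial.eval₂Hom φ u)).eval y) := by
  rw [← (Fin.consEquiv fun _ : Fin (k + 1) => κ).sum_comp, Fintype.sum_prod_type, sum_comm]
  refine sum_congr rfl fun u _ => sum_congr rfl fun y _ => ?_
  rw [← eval_cons]
  rfl

end

end Pool.Agent.Y707.PC
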