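import Pool.Agent.Y707.PC.Csum

/-! **Sums of the quadratic character over the values of a polynomial in several variables.** -/

set_option autoImplicit false
set_option maxHeartbeats 400000

namespace Pool.Agent.Y707.PC

open Polynomial Finset

section
variable {R : Type} [CommRing R] [IsDomain R] {k : ℕ}

theorem ringChar_ne {κ : Type} [Field κ] {A : Type} [CommRing A] (ψ : A →+* κ) {N : A}
    (h2 : 2 ∣ N) (h : ψ N ≠ 0) : ringChar κ ≠ 2 := by
  intro hc
  obtain ⟨M, rfl⟩ := h2
  have h3 : ((2 : ℕ) : κ) = 0 := by rw [← hc]; exact ringChar.Nat.cast_ringChar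
  apply h
  rw [map_mul, map_ofNat]
  push_cast at h3
  rw [h3, zero_mul]

theorem lin_triv {κ : Type} [Field κ] [Fintype κ] (P : κ[X]) :
    |∑ y : κ, ch (P.eval y)| ≤ Fintype.card κ := by
  refine (abs_sum_le_sum_abs _ _).trans ((sum_le_sum fun y _ => ch_abs _).trans ?_)
  simp

theorem sqrt_facts (κ : Type) [Field κ] [Fintype κ] : 1 ≤ Real.sqrt (Fintype.card κ) ∧
    Real.sqrt (Fintype.card κ) ^ 2 = Fintype.card κ ∧
    Real.sqrt (Fintype.card κ) ≤ Fintype.card κ := by
  have h0 : (1 : ℝ) ≤ Fintype.card κ := by exact_mod_cast Fintype.card_pos (α := κ)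
  have h1 : 1 ≤ Real.sqrt (Fintype.card κ) := by rwa [Real.one_le_sqrt]
  have h2 := Real.sq_sqrt (x := (Fintype.card κ : ℝ)) (by linarith)
  exact ⟨h1, h2, by nlinarith⟩

/-- **The bound.** -/
theorem csum [CharZero R] (k : ℕ) : ∀ p : MvPolynomial (Fin k) R, ¬ IsConstSq p →
    ∃ (B : ℝ) (c : R), 0 ≤ B ∧ c ≠ 0 ∧ ∀ (κ : Type) [Field κ] [Fintype κ] (φ : R →+* κ), φ c ≠ 0 →
      |∑ x : Fin k → κ, ch (MvPolynomial.eval₂Hom φ x p)| * Real.sqrt (Fintype.card κ) ≤
        B * (Fintype.card κ : ℝ) ^ k := by
  induction k with
  | zero => exact fun p hp => (hp (isConstSq_fin_zero p)).elim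
  | succ k ih =>
    intro p hp
    set P := MvPolynomial.finSuccEquiv R k p with hP
    have hp0 : p ≠ 0 := by
      rintro rfl
      exact hp ⟨1, 1, one_ne_zero, one_ne_zero, 0, by ring⟩
    have hP0 : P ≠ 0 := by
      rw [hP]
      exact fun h => hp0 ((map_eq_zero_iff _ (MvPolynomial.finSuccEquiv R k).injective).1 h)
    obtain ⟨d, s, H, hd, hH, hdP, hsq⟩ := clear_sq P hP0
    have hs0 : s ≠ 0 := by
      rintro rfl
      rw [zero_mul, mul_eq_zero, C_eq_zero] at hdP
      exact hdP.elim hd hP0
    by_cases hm : 1 ≤ s.natDegree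
    · -- a nonconstant squarefree part
      have hsep : (s.map (algebraMap (MvPolynomial (Fin k) R)
          (FractionRing (MvPolynomial (Fin k) R)))).Separable :=
        PerfectField.separable_iff_squarefree.2 hsq
      obtain ⟨ρ, U, V, hρ, hbez⟩ := bezout_sep' s hsep
      have h20 : (2 : MvPolynomial (Fin k) R) ≠ 0 := by
        have : (2 : MvPolynomial (Fin k) R) = MvPolynomial.C 2 := by rw [map_ofNat]
        rw [this, Ne, MvPolynomial.C_eq_zero]
        exact two_ne_zero
      set N : MvPolynomial (Fin k) R := 2 * (d * (ρ * (s.leadingCoeff * H.leadingCoeff))) with hN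
      have hN0 : N ≠ 0 := mul_ne_zero h20 (mul_ne_zero hd (mul_ne_zero hρ
        (mul_ne_zero (leadingCoeff_ne_zero.2 hs0) (leadingCoeff_ne_zero.2 hH))))
      obtain ⟨D, c, hD, hc, hfam⟩ := fam_sum hN0
      refine ⟨s.natDegree + H.natDegree + D, c, by positivity, hc, ?_⟩
      intro κ _ _ φ hφ
      obtain ⟨hr1, hr2, hr3⟩ := sqrt_facts κ
      set w := Real.sqrt (Fintype.card κ) with hw
      have h1 := hfam κ φ hφ (fun u => ∑ y : κ,
        ch ((P.map (MvPolynomial.eval₂Hom φ u)).eval y)) ((s.natDegree + H.natDegree) * w) 1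
        (by positivity) zero_le_one (by
          intro u hu
          set ψ := MvPolynomial.eval₂Hom φ u with hψ
          have hc2 : ringChar κ ≠ 2 := ringChar_ne ψ (Dvd.intro _ rfl) hu
          rw [hN, map_mul, map_mul, map_mul, map_mul] at hu
          have hd' : ψ d ≠ 0 := left_ne_zero_of_mul (right_ne_zero_of_mul hu)
          have hρ' : ψ ρ ≠ 0 :=
            left_ne_zero_of_mul (right_ne_zero_of_mul (right_ne_zero_of_mul hu))
          have hs' : ψ s.leadingCoeff ≠ 0 := left_ne_zero_of_mul
            (right_ne_zero_of_mul (right_ne_zero_of_mul (right_ne_zero_of_mul hu)))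
          have hH' : ψ H.leadingCoeff ≠ 0 := right_ne_zero_of_mul
            (right_ne_zero_of_mul (right_ne_zero_of_mul (right_ne_zero_of_mul hu)))
          have hsd : (s.map ψ).natDegree = s.natDegree :=
            natDegree_map_of_leadingCoeff_ne_zero _ hs'
          have hHm : H.map ψ ≠ 0 := by
            intro h0
            have := congrArg (fun q => coeff q H.natDegree) h0
            simp only [coeff_map, coeff_natDegree, coeff_zero] at this
            exact hH' this
          have hsep' : (s.map ψ).Separable := by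
            have hb := congrArg (Polynomial.map ψ) hbez
            rw [Polynomial.map_add, Polynomial.map_mul, Polynomial.map_mul, Polynomial.map_C,
              ← Polynomial.derivative_map] at hb
            refine ⟨C (ψ ρ)⁻¹ * U.map ψ, C (ψ ρ)⁻¹ * V.map ψ, ?_⟩
            have hc : (C (ψ ρ)⁻¹ : Polynomial κ) * C (ψ ρ) = 1 := by
              rw [← C_mul, inv_mul_cancel₀ hρ', C_1]
            rw [← hc, ← hb]
            ring
          have hmap := congrArg (Polynomial.map ψ) hdP
          rw [Polynomial.map_mul, Polynomial.map_mul, Polynomial.map_pow, Polynomial.map_C] at hmap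
          have h3 := lin_bound hc2 hd' hmap hsep' (by rw [hsd]; exact hm) hHm
          rw [hsd, ← hw] at h3
          have h4 : ((H.map ψ).natDegree : ℝ) ≤ H.natDegree := by
            exact_mod_cast natDegree_map_le
          refine h3.trans ?_
          have h5 : (H.natDegree : ℝ) ≤ H.natDegree * w :=
            le_mul_of_one_le_right (Nat.cast_nonneg _) hr1
          have h6 : (0 : ℝ) ≤ w := by linarith
          nlinarith) (fun u => by rw [one_mul]; exact lin_triv _)
      rw [sum_cons, ← hP]
      have hq : (0 : ℝ) ≤ (Fintype.card κ : ℝ) ^ k := by positivity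
      have hw0 : 0 ≤ w := by linarith
      calc |∑ u : Fin k → κ, ∑ y : κ, ch ((P.map (MvPolynomial.eval₂Hom φ u)).eval y)| * w
          ≤ (((s.natDegree + H.natDegree) * w + 1 * D) * (Fintype.card κ : ℝ) ^ k) * w :=
            mul_le_mul_of_nonneg_right h1 hw0
        _ = ((s.natDegree + H.natDegree) * w ^ 2 + D * w) * (Fintype.card κ : ℝ) ^ k := by ring
        _ ≤ ((s.natDegree + H.natDegree) * w ^ 2 + D * Fintype.card κ) *
            (Fintype.card κ : ℝ) ^ k := by
            refine mul_le_mul_of_nonneg_right ?_ hq
            have := mul_le_mul_of_nonneg_left hr3 hD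
            linarith
        _ = _ := by
            rw [hr2, pow_succ]
            ring
    · -- a constant squarefree part
      obtain ⟨b, rfl⟩ : ∃ b, s = C b := ⟨_, eq_C_of_natDegree_le_zero (by omega)⟩
      have hb : b ≠ 0 := fun h => hs0 (by rw [h, C_0])
      have hcd : ¬ IsConstSq (d * b) := by
        rintro ⟨f, e, hf, he, h, hh⟩
        apply hp
        have hq : (MvPolynomial.finSuccEquiv R k).symm (C d) ≠ 0 := by
          intro h0
          rw [map_eq_zero_iff _ (MvPolynomial.finSuccEquiv R k).symm.injective, C_eq_zero] at h0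
          exact hd h0
        refine IsConstSq.descend (q := (MvPolynomial.finSuccEquiv R k).symm (C d))
          (H := (MvPolynomial.finSuccEquiv R k).symm (C h * H)) hq hf he ?_
        apply (MvPolynomial.finSuccEquiv R k).injective
        have hCe : ∀ e : R, MvPolynomial.finSuccEquiv R k (MvPolynomial.C e) =
            C (MvPolynomial.C e) := by
          intro e
          rw [MvPolynomial.finSuccEquiv_apply, MvPolynomial.eval₂Hom_C]
          rfl
        rw [map_mul, map_mul, map_mul, map_pow, map_pow, AlgEquiv.apply_symm_apply,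
          AlgEquiv.apply_symm_apply, hCe, hCe, ← hP]
        have h5 := congrArg C hh
        rw [C_mul, C_mul, C_mul, C_pow] at h5
        linear_combination (C d * C (MvPolynomial.C e)) * hdP + H ^ 2 * h5
      obtain ⟨B, c', hB, hc', hsum⟩ := ih _ hcd
      set N : MvPolynomial (Fin k) R := d * H.leadingCoeff with hN
      have hN0 : N ≠ 0 := mul_ne_zero hd (leadingCoeff_ne_zero.2 hH)
      obtain ⟨D, c, hD, hc, hfam⟩ := fam_sum hN0
      refine ⟨B + H.natDegree + 2 * D, c' * c, by positivity, mul_ne_zero hc' hc, ?_⟩
      intro κ _ _ φ hφ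
      rw [map_mul] at hφ
      obtain ⟨hr1, hr2, hr3⟩ := sqrt_facts κ
      have h2 := hsum κ φ (left_ne_zero_of_mul hφ)
      set w := Real.sqrt (Fintype.card κ) with hw
      have h1 := hfam κ φ (right_ne_zero_of_mul hφ) (fun u => ∑ y : κ,
        ch ((P.map (MvPolynomial.eval₂Hom φ u)).eval y) -
          Fintype.card κ * ch (MvPolynomial.eval₂Hom φ u (d * b))) H.natDegree 2
        (by positivity) zero_le_two (by
          intro u hu
          set ψ := MvPolynomial.eval₂Hom φ u with hψ
          rw [hN, map_mul] at hu
          have hd' : ψ d ≠ 0 := left_ne_zero_of_mul hu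
          have hH' : ψ H.leadingCoeff ≠ 0 := right_ne_zero_of_mul hu
          have hHm : H.map ψ ≠ 0 := by
            intro h0
            have := congrArg (fun q => coeff q H.natDegree) h0
            simp only [coeff_map, coeff_natDegree, coeff_zero] at this
            exact hH' this
          have hmap := congrArg (Polynomial.map ψ) hdP
          rw [Polynomial.map_mul, Polynomial.map_mul, Polynomial.map_pow, Polynomial.map_C,
            Polynomial.map_C] at hmap
          have h3 := lin_sq hd' hmap hHm
          have h4 : ((H.map ψ).natDegree : ℝ) ≤ H.natDegree := by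
            exact_mod_cast natDegree_map_le
          rw [map_mul]
          exact h3.trans h4) (fun u => by
            refine (abs_sub _ _).trans ?_
            have h3 := lin_triv (P.map (MvPolynomial.eval₂Hom φ u))
            have h4 : |(Fintype.card κ : ℝ) * ch (MvPolynomial.eval₂Hom φ u (d * b))| ≤
                Fintype.card κ := by
              rw [abs_mul, Nat.abs_cast]
              exact mul_le_of_le_one_right (Nat.cast_nonneg _) (ch_abs _)
            linarith)
      rw [sum_cons, ← hP]
      rw [sum_sub_distrib, ← mul_sum] at h1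
      have hq : (0 : ℝ) ≤ (Fintype.card κ : ℝ) ^ k := by positivity
      have hw0 : 0 ≤ w := by linarith
      set S1 := ∑ u : Fin k → κ, ∑ y : κ, ch ((P.map (MvPolynomial.eval₂Hom φ u)).eval y)
      set S2 := ∑ u : Fin k → κ, ch (MvPolynomial.eval₂Hom φ u (d * b))
      have h5 : |S1| ≤ |S1 - Fintype.card κ * S2| + Fintype.card κ * |S2| := by
        have := abs_add_le (S1 - Fintype.card κ * S2) (Fintype.card κ * S2)
        rw [sub_add_cancel, abs_mul (Fintype.card κ : ℝ), Nat.abs_cast] at this
        exact this
      calc |S1| * w ≤ (|S1 - Fintype.card κ * S2| + Fintype.card κ * |S2|) * w :=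
            mul_le_mul_of_nonneg_right h5 hw0
        _ = |S1 - Fintype.card κ * S2| * w + Fintype.card κ * (|S2| * w) := by ring
        _ ≤ (H.natDegree + 2 * D) * (Fintype.card κ : ℝ) ^ k * w +
            Fintype.card κ * (B * (Fintype.card κ : ℝ) ^ k) := by
            refine add_le_add (mul_le_mul_of_nonneg_right h1 hw0)
              (mul_le_mul_of_nonneg_left h2 (Nat.cast_nonneg _))
        _ ≤ (H.natDegree + 2 * D) * (Fintype.card κ : ℝ) ^ k * Fintype.card κ +
            Fintype.card κ * (B * (Fintype.card κ : ℝ) ^ k) := by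
            have h6 : (0 : ℝ) ≤ (H.natDegree + 2 * D) * (Fintype.card κ : ℝ) ^ k := by positivity
            have := mul_le_mul_of_nonneg_left hr3 h6
            linarith
        _ = _ := by
            rw [pow_succ]
            ring

end

end Pool.Agent.Y707.PC
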