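import Pool.Agent.Y707.PC.Csq
import Pool.Agent.W353.FB.Defs

/-! Squares over extensions of the constant field. -/

set_option autoImplicit false
set_option maxHeartbeats 400000

namespace Pool.Agent.Y707.PC

open Finset NumberField

section
variable {R K : Type} [CommRing R] [IsDomain R] [Field K] [Algebra R K] [IsFractionRing R K] {n : ℕ}

theorem clear_mv' (w : MvPolynomial (Fin n) K) : ∃ (b : R)
    (w' : MvPolynomial (Fin n) R), b ≠ 0 ∧ MvPolynomial.C (algebraMap R K b) * w =
      MvPolynomial.map (algebraMap R K) w' := by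
  let _ : Algebra (MvPolynomial (Fin n) R) (MvPolynomial (Fin n) K) :=
    MvPolynomial.algebraMvPolynomial
  obtain ⟨⟨x, ⟨_, b, hb, rfl⟩⟩, h⟩ := IsLocalization.surj
    (M := (nonZeroDivisors R).map (MvPolynomial.C (σ := Fin n))) w
  refine ⟨b, x, nonZeroDivisors.ne_zero hb, ?_⟩
  have h1 : w * MvPolynomial.map (algebraMap R K) (MvPolynomial.C b) =
      MvPolynomial.map (algebraMap R K) x := h
  rw [MvPolynomial.map_C] at h1
  rw [← h1, mul_comm]

end

section
variable {K : Type} [Field K] [CharZero K] {k : ℕ}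

/-- descent of a square to a constant times a square -/
theorem desc_sq {p : MvPolynomial (Fin k) K} {P : MvPolynomial (Fin k) (AlgebraicClosure K)}
    (hp : p ≠ 0) (h : MvPolynomial.map (algebraMap K (AlgebraicClosure K)) p = P ^ 2) :
    ∃ (μ : K) (H : MvPolynomial (Fin k) K), p = MvPolynomial.C μ * H ^ 2 := by
  have hinj := MvPolynomial.map_injective (σ := Fin k) (algebraMap K (AlgebraicClosure K))
    (algebraMap K (AlgebraicClosure K)).injective
  have hP : P ≠ 0 := by
    rintro rfl
    apply hp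
    apply hinj
    rw [h, map_zero]
    ring
  obtain ⟨m, hm⟩ := MvPolynomial.exists_coeff_ne_zero hP
  set c := MvPolynomial.coeff m P with hc
  have hσ : ∀ σ : Gal(AlgebraicClosure K/K),
      (∀ n, σ (MvPolynomial.coeff n P) = MvPolynomial.coeff n P) ∨
      (∀ n, σ (MvPolynomial.coeff n P) = -MvPolynomial.coeff n P) := by
    intro σ
    have h1 : (MvPolynomial.map (σ : AlgebraicClosure K →+* AlgebraicClosure K) P) ^ 2 =
        P ^ 2 := by
      have e : (σ : AlgebraicClosure K →+* AlgebraicClosure K).comp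
          (algebraMap K (AlgebraicClosure K)) = algebraMap K (AlgebraicClosure K) :=
        RingHom.ext fun x => σ.commutes x
      rw [← map_pow, ← h, MvPolynomial.map_map, e]
    rcases sq_eq_sq_iff_eq_or_eq_neg.1 h1 with h2 | h2
    · left
      intro n
      have h3 := congrArg (MvPolynomial.coeff n) h2
      rw [MvPolynomial.coeff_map] at h3
      exact h3
    · right
      intro n
      have h3 := congrArg (MvPolynomial.coeff n) h2
      rw [MvPolynomial.coeff_map, MvPolynomial.coeff_neg] at h3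
      exact h3
  have hfix : ∀ x : AlgebraicClosure K, (∀ σ : Gal(AlgebraicClosure K/K), σ x = x) →
      ∃ b : K, algebraMap K (AlgebraicClosure K) b = x := by
    intro x hx
    have h1 : x ∈ (⊥ : IntermediateField K (AlgebraicClosure K)) :=
      (InfiniteGalois.mem_bot_iff_fixed x).2 hx
    exact IntermediateField.mem_bot.1 h1
  have hcoef : ∀ n, ∃ b : K, algebraMap K (AlgebraicClosure K) b =
      MvPolynomial.coeff n (MvPolynomial.C c⁻¹ * P) := by
    intro n
    apply hfix
    intro σ
    rw [MvPolynomial.coeff_C_mul, map_mul, map_inv₀]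
    rcases hσ σ with h1 | h1
    · rw [h1 n, h1 m]
    · rw [h1 n, h1 m, ← hc]
      field_simp
  have hrange : MvPolynomial.C c⁻¹ * P ∈ Set.range (MvPolynomial.map (σ := Fin k)
      (algebraMap K (AlgebraicClosure K))) := by
    rw [MvPolynomial.mem_range_map_iff_coeffs_subset]
    intro x hx
    obtain ⟨n, -, rfl⟩ := MvPolynomial.mem_coeffs_iff.1 hx
    exact hcoef n
  obtain ⟨H, hH⟩ := hrange
  obtain ⟨μ, hμ⟩ := hfix (c ^ 2) (by
    intro σ
    rw [map_pow]
    rcases hσ σ with h1 | h1
    · rw [h1 m]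
    · rw [h1 m, ← hc]
      ring)
  refine ⟨μ, H, hinj ?_⟩
  rw [map_mul, map_pow, MvPolynomial.map_C, hμ, hH, h, mul_pow, ← map_pow, ← mul_assoc,
    ← map_mul]
  have e : c ^ 2 * c⁻¹ ^ 2 = 1 := by
    rw [← mul_pow, mul_inv_cancel₀ hm, one_pow]
  rw [e, map_one, one_mul]

end

section
variable {K : Type} [Field K] [NumberField K] {k : ℕ}

theorem isConstSq_of_sq {p : MvPolynomial (Fin k) (𝓞 K)} (hp : p ≠ 0)
    {P : MvPolynomial (Fin k) (AlgebraicClosure K)}
    (h : MvPolynomial.map ((algebraMap K (AlgebraicClosure K)).comp (algebraMap (𝓞 K) K)) p =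
      P ^ 2) : IsConstSq p := by
  have hinj := MvPolynomial.map_injective (σ := Fin k) (algebraMap (𝓞 K) K)
    (IsFractionRing.injective (𝓞 K) K)
  have hp' : MvPolynomial.map (algebraMap (𝓞 K) K) p ≠ 0 := by
    intro h0
    exact hp (hinj (by rw [h0, map_zero]))
  rw [← MvPolynomial.map_map] at h
  obtain ⟨μ, H, hμ⟩ := desc_sq hp' h
  obtain ⟨⟨c, d⟩, hcd⟩ := IsLocalization.surj (nonZeroDivisors (𝓞 K)) μ
  obtain ⟨b, H', hb, hH'⟩ := clear_mv' (R := 𝓞 K) H
  have hd0 : (d : 𝓞 K) ≠ 0 := nonZeroDivisors.ne_zero d.2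
  have hc0 : c ≠ 0 := by
    rintro rfl
    rw [map_zero] at hcd
    have hd1 : algebraMap (𝓞 K) K d ≠ 0 := by
      rwa [Ne, map_eq_zero_iff _ (IsFractionRing.injective (𝓞 K) K)]
    have hμ0 := (mul_eq_zero.1 hcd).resolve_right hd1
    apply hp'
    rw [hμ, hμ0, map_zero, zero_mul]
  refine ⟨c, b ^ 2 * d, hc0, mul_ne_zero (pow_ne_zero 2 hb) hd0, H', hinj ?_⟩
  rw [MvPolynomial.C_mul, MvPolynomial.C_pow, map_mul, map_mul, map_mul, map_pow, map_pow,
    MvPolynomial.map_C, MvPolynomial.map_C, MvPolynomial.map_C, ← hH', hμ]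
  have e := congrArg (MvPolynomial.C (σ := Fin k)) hcd
  rw [MvPolynomial.C_mul] at e
  linear_combination ((MvPolynomial.C (algebraMap (𝓞 K) K b)) ^ 2 * H ^ 2) * e

/-- `y ∈ E` if and only if the polynomial is a square over `E` -/
theorem mem_iff_sq {p : MvPolynomial (Fin k) (𝓞 K)} {δ d : 𝓞 K}
    {H : MvPolynomial (Fin k) (𝓞 K)} (hd : d ≠ 0) (hH : H ≠ 0)
    (h : MvPolynomial.C (d ^ 2) * p = MvPolynomial.C δ * H ^ 2) {y : AlgebraicClosure K}
    (hy : y ^ 2 = algebraMap K (AlgebraicClosure K) (δ : K))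
    (E : IntermediateField K (AlgebraicClosure K)) : y ∈ E ↔
      IsSquare (MvPolynomial.map ((algebraMap K E).comp (algebraMap (𝓞 K) K)) p) := by
  set ι : 𝓞 K →+* E := (algebraMap K E).comp (algebraMap (𝓞 K) K) with hι
  have hιi : Function.Injective ι := (algebraMap K E).injective.comp
    (IsFractionRing.injective (𝓞 K) K)
  have hd' : ι d ≠ 0 := by rwa [Ne, map_eq_zero_iff _ hιi]
  have h1 := congrArg (MvPolynomial.map ι) h
  rw [map_mul, map_mul, map_pow (MvPolynomial.map ι) H, MvPolynomial.map_C,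
    MvPolynomial.map_C, map_pow ι] at h1
  have hιy : ((ι δ : E) : AlgebraicClosure K) = y ^ 2 := by
    rw [hy]
    rfl
  constructor
  · intro hyE
    have h2 : ι δ = (⟨y, hyE⟩ : E) ^ 2 := by
      apply Subtype.ext
      rw [hιy]
      rfl
    rw [h2] at h1
    refine ⟨MvPolynomial.C ((⟨y, hyE⟩ : E) / ι d) * MvPolynomial.map ι H, ?_⟩
    have h3 : MvPolynomial.C (ι d ^ 2) ≠ (0 : MvPolynomial (Fin k) E) := by
      rw [Ne, MvPolynomial.C_eq_zero]
      exact pow_ne_zero 2 hd'
    apply mul_left_cancel₀ h3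
    rw [h1]
    have h4 : (⟨y, hyE⟩ : E) ^ 2 = ι d ^ 2 * ((⟨y, hyE⟩ : E) / ι d) ^ 2 := by
      rw [div_pow, mul_div_cancel₀]
      exact pow_ne_zero 2 hd'
    rw [h4, MvPolynomial.C_mul, MvPolynomial.C_pow, MvPolynomial.C_pow]
    ring
  · rintro ⟨P, hP⟩
    rw [hP] at h1
    have h2 := congrArg (MvPolynomial.map (algebraMap E (AlgebraicClosure K))) h1
    have e1 : algebraMap E (AlgebraicClosure K) (ι δ) = y ^ 2 := hιy
    simp only [map_mul, map_pow, MvPolynomial.map_C, e1] at h2
    set D : AlgebraicClosure K := algebraMap E (AlgebraicClosure K) (ι d) with hD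
    set P' := MvPolynomial.map (algebraMap E (AlgebraicClosure K)) P with hP'
    set H' := MvPolynomial.map (algebraMap E (AlgebraicClosure K)) (MvPolynomial.map ι H) with hH'
    have h3 : (MvPolynomial.C D * P') ^ 2 = (MvPolynomial.C y * H') ^ 2 := by
      linear_combination h2
    obtain ⟨m, hm⟩ := MvPolynomial.exists_coeff_ne_zero hH
    have hm' : ι (MvPolynomial.coeff m H) ≠ 0 := by rwa [Ne, map_eq_zero_iff _ hιi]
    have hcH : MvPolynomial.coeff m H' =
        algebraMap E (AlgebraicClosure K) (ι (MvPolynomial.coeff m H)) := by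
      rw [hH', MvPolynomial.coeff_map, MvPolynomial.coeff_map]
    have hcP : MvPolynomial.coeff m P' =
        algebraMap E (AlgebraicClosure K) (MvPolynomial.coeff m P) := by
      rw [hP', MvPolynomial.coeff_map]
    have hne : MvPolynomial.coeff m H' ≠ 0 := by
      rw [hcH]
      exact fun h0 => hm' ((map_eq_zero_iff _ (algebraMap E (AlgebraicClosure K)).injective).1 h0)
    have h4 : D * MvPolynomial.coeff m P' = y * MvPolynomial.coeff m H' ∨
        D * MvPolynomial.coeff m P' = -(y * MvPolynomial.coeff m H') := by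
      rcases sq_eq_sq_iff_eq_or_eq_neg.1 h3 with h5 | h5
      · left
        have := congrArg (MvPolynomial.coeff m) h5
        rwa [MvPolynomial.coeff_C_mul, MvPolynomial.coeff_C_mul] at this
      · right
        have := congrArg (MvPolynomial.coeff m) h5
        rwa [MvPolynomial.coeff_C_mul, MvPolynomial.coeff_neg, MvPolynomial.coeff_C_mul] at this
    have hmem : D * MvPolynomial.coeff m P' / MvPolynomial.coeff m H' ∈ E := by
      rw [hcH, hcP, hD]
      exact div_mem (mul_mem (Subtype.mem _) (Subtype.mem _)) (Subtype.mem _)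
    rcases h4 with h5 | h5
    · have : y = D * MvPolynomial.coeff m P' / MvPolynomial.coeff m H' := by
        rw [h5, mul_div_cancel_right₀ _ hne]
      rw [this]
      exact hmem
    · have : y = -(D * MvPolynomial.coeff m P' / MvPolynomial.coeff m H') := by
        rw [h5, neg_div, neg_neg, mul_div_cancel_right₀ _ hne]
      rw [this]
      exact neg_mem hmem

end

end Pool.Agent.Y707.PC
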