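import Pool.Agent.Y707.HC.Jac

/-! The numbers `γ` for all squarefree polynomials of odd degree. -/

set_option autoImplicit false
set_option maxHeartbeats 400000

namespace Pool.Agent.Y707.PC

open Polynomial Finset
open Pool.Agent.H341R2.Sharp
open Pool.Agent.Y707.HC

theorem pr_eq_of_ps {γ δ : Multiset ℂ} (h : ∀ m : ℕ, ps γ (m + 1) = ps δ (m + 1)) :
    pr γ = pr δ := by
  have key : ∀ n, (pr γ).coeff n = (pr δ).coeff n := by
    intro n
    induction n using Nat.strong_induction_on with
    | _ n ih =>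
      cases n with
      | zero => rw [pr_coeff_zero, pr_coeff_zero]
      | succ n =>
        have h1 := newton γ n
        have h2 := newton δ n
        have h3 : ∑ j ∈ range (n + 1), (pr γ).coeff (n - j) * ps γ (j + 1) =
            ∑ j ∈ range (n + 1), (pr δ).coeff (n - j) * ps δ (j + 1) :=
          sum_congr rfl fun j hj => by rw [ih (n - j) (by omega), h j]
        rw [h3, ← h2] at h1
        exact mul_left_cancel₀ (by exact_mod_cast Nat.succ_ne_zero n) h1
  exact Polynomial.ext key

theorem mem_iff_pr {γ : Multiset ℂ} {w : ℂ} (hw : w ≠ 0) : w ∈ γ ↔ (pr γ).eval w⁻¹ = 0 := by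
  unfold pr
  rw [eval_multiset_prod, Multiset.prod_eq_zero_iff, Multiset.map_map, Multiset.mem_map]
  constructor
  · intro h
    refine ⟨w, h, ?_⟩
    simp [hw]
  · rintro ⟨z, hz, h⟩
    simp only [Function.comp_apply, eval_sub, eval_one, eval_mul, eval_C, eval_X] at h
    have : z = w := by
      have h1 : z * w⁻¹ = 1 := by linear_combination -h
      exact eq_of_mul_inv_eq_one h1
    rwa [← this]

theorem natDegree_pr {γ : Multiset ℂ} (h : ∀ z ∈ γ, z ≠ 0) : (pr γ).natDegree = γ.card := by
  refine le_antisymm ?_ ?_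
  · rw [natDegree_le_iff_coeff_eq_zero]
    intro n hn
    exact (pr_coeff_card γ).2 n hn
  · refine le_natDegree_of_ne_zero ?_
    rw [(pr_coeff_card γ).1]
    intro h0
    rw [Multiset.prod_eq_zero_iff, Multiset.mem_map] at h0
    obtain ⟨z, hz, h1⟩ := h0
    exact h z hz (neg_eq_zero.1 h1)

theorem ps_map_pow (γ : Multiset ℂ) (e m : ℕ) : ps (γ.map fun z => z ^ e) m = ps γ (e * m) := by
  unfold ps
  rw [Multiset.map_map]
  congr 1
  refine Multiset.map_congr rfl fun z _ => ?_
  show (z ^ e) ^ m = z ^ (e * m)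
  rw [pow_mul]

section
variable {F : Type} [Field F] [Fintype F] [DecidableEq F]

theorem weil_weak (hF : ringChar F ≠ 2) {f : F[X]} (hf : f.Monic) (hd : 1 ≤ f.natDegree)
    (hns : ∀ (c : F) (h : F[X]), f ≠ C c * h ^ 2) :
    ∃ γ : Multiset ℂ, γ.card ≤ f.natDegree - 1 ∧ (∀ z ∈ γ, z ≠ 0) ∧
      ∀ m : ℕ, ps γ (m + 1) = -(T f (m + 1) : ℂ) := by
  classical
  set d := f.natDegree with hdd
  obtain ⟨r, hr, hlam⟩ := exists_r hF hf hd hns
  have hA : ∀ n, d ≤ n → A f n = 0 := fun n hn => A_eq_zero f r hf hr hlam n hn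
  set a : ℂ[X] := ∑ n ∈ range d, C (A f n : ℂ) * X ^ n with ha
  have hcoeff : ∀ n, a.coeff n = (A f n : ℂ) := by
    intro n
    rw [ha, finsetSum_coeff]
    simp_rw [coeff_C_mul_X_pow]
    by_cases hn : n < d
    · rw [sum_eq_single n]
      · simp
      · intro m _ hm
        rw [if_neg (Ne.symm hm)]
      · intro h
        exact absurd (mem_range.2 hn) h
    · rw [hA n (by omega)]
      rw [sum_eq_zero]
      · simp
      · intro m hm
        rw [mem_range] at hm
        rw [if_neg (by omega)]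
  have ha0 : a.coeff 0 = 1 := by rw [hcoeff, A_zero]; simp
  have hid : ∀ n : ℕ, (n : ℂ) * a.coeff n =
      ∑ m ∈ Icc 1 n, a.coeff (n - m) * (fun m => (T f m : ℂ)) m := by
    intro n
    rw [hcoeff]
    have := n_mul_A f n
    simp_rw [hcoeff]
    exact_mod_cast this
  obtain ⟨h1, h2⟩ := exists_pr ha0
  have hdeg : a.natDegree ≤ d - 1 := by
    rw [natDegree_le_iff_coeff_eq_zero]
    intro n hn
    rw [hcoeff, hA n (by omega)]
    simp
  refine ⟨a.roots.map fun z => z⁻¹, ?_, ?_, ?_⟩
  · rw [Multiset.card_map]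
    exact (card_roots' a).trans hdeg
  · intro w hw
    obtain ⟨z, hz, rfl⟩ := Multiset.mem_map.1 hw
    exact inv_ne_zero (h2 z hz)
  · have hid' : ∀ n : ℕ, (n : ℂ) * (pr (a.roots.map fun z => z⁻¹)).coeff n =
        ∑ m ∈ Icc 1 n, (pr (a.roots.map fun z => z⁻¹)).coeff (n - m) *
          (fun m => (T f m : ℂ)) m := by
      rw [← h1]
      exact hid
    intro m
    have h3 := psum_unique hid' m
    rw [h3, neg_neg]

theorem T_ext (hF : ringChar F ≠ 2) (f : F[X]) {E : Type} [Field E] [Fintype E] [DecidableEq E]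
    [Algebra F E] [FiniteDimensional F E] (hE : ringChar E ≠ 2) {j : ℕ} (hj : j ≠ 0) :
    T (f.map (algebraMap F E)) j = T f (Module.finrank F E * j) := by
  classical
  obtain ⟨p, hp⟩ := CharP.exists E
  have hpp : Fact p.Prime := ⟨CharP.char_is_prime E p⟩
  have : NeZero j := ⟨hj⟩
  let E' := FiniteField.Extension E p j
  let _ : Fintype E' := Fintype.ofFinite E'
  let _ : Algebra F E' := ((algebraMap E E').comp (algebraMap F E)).toAlgebra
  have : IsScalarTower F E E' := IsScalarTower.of_algebraMap_eq fun _ => rfl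
  have : FiniteDimensional F E' := Module.Finite.of_finite
  have h1 := T_eq_sum (E := E') hE (f.map (algebraMap F E))
  have h2 := T_eq_sum (E := E') hF f
  rw [FiniteField.finrank_extension] at h1
  rw [← Module.finrank_mul_finrank F E E', FiniteField.finrank_extension] at h2
  rw [h1, h2]
  refine sum_congr rfl fun x _ => ?_
  rw [aeval_map_algebraMap]

theorem nsq_odd {f : F[X]} (hodd : Odd f.natDegree) (c : F) (h : F[X]) : f ≠ C c * h ^ 2 := by
  rintro rfl
  have hc : c ≠ 0 := by
    rintro rfl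
    simp at hodd
  rw [natDegree_C_mul hc, natDegree_pow] at hodd
  exact (Nat.not_odd_iff_even.2 (even_two_mul _)) hodd

/-- **The numbers `γ`.** -/
theorem exists_weil_sf (hF : ringChar F ≠ 2) {f : F[X]} (hf : f.Monic) {g : ℕ}
    (hd : f.natDegree = 2 * g + 1) (hsq : Squarefree f) :
    ∃ γ : Multiset ℂ, γ.card = 2 * g ∧ (∀ z ∈ γ, ‖z‖ = Real.sqrt (Fintype.card F)) ∧
      ∀ m : ℕ, ps γ (m + 1) = -(T f (m + 1) : ℂ) := by
  classical
  have hodd : Odd f.natDegree := ⟨g, hd⟩
  obtain ⟨γ, h1, h2, h3⟩ := weil_weak hF hf (by omega) (nsq_odd hodd)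
  -- the splitting field
  let E := SplittingField f
  have hfin : Finite E := Module.finite_of_finite F
  let _ : Fintype E := Fintype.ofFinite E
  have hE : ringChar E ≠ 2 := by
    have : ringChar E = ringChar F := by
      have h4 : CharP E (ringChar F) := charP_of_injective_algebraMap (algebraMap F E).injective _
      exact ringChar.eq E (ringChar F)
    rw [this]
    exact hF
  have hsep : f.Separable := PerfectField.separable_iff_squarefree.2 hsq
  have hfE : (f.map (algebraMap F E)).Monic := hf.map _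
  have hspl := SplittingField.splits f
  have hcard : (f.map (algebraMap F E)).roots.card = 2 * g + 1 := by
    rw [← hd, ← natDegree_map (algebraMap F E)]
    exact hspl.natDegree_eq_card_roots.symm
  have hnd : (f.map (algebraMap F E)).roots.Nodup := nodup_roots hsep.map
  obtain ⟨θ, hθ⟩ : ∃ θ : Fin (2 * g + 1) → E,
      (f.map (algebraMap F E)).roots = Finset.univ.val.map θ := by
    let l := (f.map (algebraMap F E)).roots.toList
    have hl : l.length = 2 * g + 1 := by rw [Multiset.length_toList, hcard]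
    refine ⟨fun i => l.get (Fin.cast hl.symm i), ?_⟩
    have h5 : (l : Multiset E) = (f.map (algebraMap F E)).roots := Multiset.coe_toList _
    rw [← h5]
    have h6 : List.ofFn (fun i => l.get (Fin.cast hl.symm i)) = l :=
      (List.ofFn_congr hl l.get).symm.trans (List.ofFn_get l)
    conv_lhs => rw [← h6]
    rw [Fin.univ_val_map]
  have hinj : Function.Injective θ := by
    rw [hθ] at hnd
    exact Multiset.inj_on_of_nodup_map hnd |> fun h => fun i j hij =>
      h i (Finset.mem_univ i) j (Finset.mem_univ j) hij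
  have hsp : f.map (algebraMap F E) = sp θ := by
    have h4 := hspl.eq_prod_roots_of_monic hfE
    rw [hθ, Multiset.map_map] at h4
    rw [h4]
    unfold sp
    rw [Finset.prod_eq_multiset_prod]
    rfl
  have hq0 : (0 : ℝ) ≤ Fintype.card E := Nat.cast_nonneg _
  obtain ⟨δ, g1, g2, g3⟩ := exists_weil hE (sp_monic θ) (by rw [sp_natDegree]; omega)
    (nsq_odd (by rw [sp_natDegree]; exact ⟨g, rfl⟩)) (by
      rw [sp_natDegree, Nat.add_sub_cancel]
      have h5 := A_top hE hinj
      have h6 : |(A (sp θ) (2 * g) : ℝ)| = (Fintype.card E : ℝ) ^ g := by exact_mod_cast h5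
      rw [h6, pow_mul, Real.sq_sqrt hq0])
  rw [sp_natDegree, Nat.add_sub_cancel] at g1
  have hδ0 : ∀ z ∈ δ, z ≠ 0 := by
    intro z hz h0
    have h5 := g2 z hz
    rw [h0, norm_zero] at h5
    have h6 : 0 < Real.sqrt (Fintype.card E) :=
      Real.sqrt_pos.2 (by exact_mod_cast Fintype.card_pos)
    linarith
  set e := Module.finrank F E with he
  have he0 : 0 < e := Module.finrank_pos
  have hγ0 : ∀ z ∈ γ.map fun z => z ^ e, z ≠ 0 := by
    intro z hz
    obtain ⟨y, hy, rfl⟩ := Multiset.mem_map.1 hz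
    exact pow_ne_zero _ (h2 y hy)
  have hpr : pr (γ.map fun z => z ^ e) = pr δ := by
    apply pr_eq_of_ps
    intro m
    rw [ps_map_pow, g3, ← hsp, T_ext hF f hE (Nat.succ_ne_zero m)]
    have h9 : 0 < e * (m + 1) := Nat.mul_pos he0 (Nat.succ_pos m)
    obtain ⟨n, hn⟩ : ∃ n, e * (m + 1) = n + 1 := ⟨e * (m + 1) - 1, by omega⟩
    rw [← he, hn, h3]
  have hcardγ : γ.card = 2 * g := by
    have h5 := natDegree_pr hγ0
    rw [hpr, natDegree_pr hδ0, Multiset.card_map, g1] at h5
    exact h5.symm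
  refine ⟨γ, hcardγ, fun z hz => ?_, h3⟩
  have hze : z ^ e ∈ γ.map fun z => z ^ e := Multiset.mem_map_of_mem _ hz
  have hze0 := hγ0 _ hze
  rw [mem_iff_pr hze0, hpr, ← mem_iff_pr hze0] at hze
  have h5 := g2 _ hze
  have hcE : (Fintype.card E : ℝ) = (Fintype.card F : ℝ) ^ e := by
    have := Module.card_eq_pow_finrank (K := F) (V := E)
    rw [this]
    push_cast
    rfl
  have hF0 : (0 : ℝ) ≤ Fintype.card F := Nat.cast_nonneg _
  rw [norm_pow, hcE, Real.sqrt_eq_rpow, ← Real.rpow_natCast, ← Real.rpow_natCast,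
    ← Real.rpow_mul hF0, mul_comm (e : ℝ), Real.rpow_mul hF0, ← Real.sqrt_eq_rpow,
    Real.rpow_natCast, Real.rpow_natCast] at h5
  exact (pow_left_inj₀ (norm_nonneg z) (Real.sqrt_nonneg _) he0.ne').1 h5

end

end Pool.Agent.Y707.PC
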