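import Pool.Agent.Y707.PC.Cone
import Pool.Agent.Y707.PC.Weil

/-! The Frobenius eigenvalues on `H¹` of a hyperelliptic curve of odd degree. -/

set_option autoImplicit false
set_option maxHeartbeats 400000

namespace Pool.Agent.Y707.PC

open Polynomial Finset
open Pool.Agent.H341R2.Sharp
open Pool.Agent.Y707.HC
open Pool.Agent.Y707.PH (IsEigen)
open Pool.Agent.W353.FB (cone)

section
variable {κ : Type} [Field κ]

open Classical in
/-- the character sum of a polynomial -/
noncomputable def cs [Fintype κ] (f : κ[X]) : ℤ := ∑ x : κ, quadraticChar κ (f.eval x)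

theorem ringChar_ext {κ' : Type} [Field κ'] (θ : κ →+* κ') : ringChar κ' = ringChar κ := by
  have h4 : CharP κ' (ringChar κ) := charP_of_injective_ringHom θ.injective _
  exact ringChar.eq κ' (ringChar κ)

theorem T_one [Fintype κ] [DecidableEq κ] (h2 : ringChar κ ≠ 2) (f : κ[X]) : T f 1 = cs f := by
  have h := T_eq_sum (E := κ) h2 f
  rw [Module.finrank_self] at h
  rw [h, cs]
  refine sum_congr rfl fun x _ => ?_
  rw [coe_aeval_eq_eval]
  congr 1
  exact congrArg (fun d => @quadraticChar κ _ _ d) (Subsingleton.elim _ _)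

variable {R : Type} [CommRing R]

theorem isEigen_model [Fintype κ] (h2 : ringChar κ ≠ 2) {g : ℕ} {f : R[X]}
    (hfd : f.natDegree ≤ 2 * g + 1) (φ : R →+* κ) (hm : (f.map φ).Monic)
    (hd : (f.map φ).natDegree = 2 * g + 1) (hsq : Squarefree (f.map φ)) :
    ∃ γ : Multiset ℂ, IsEigen (modelEquations g f) 1 1 φ γ ∧ γ.card = 2 * g ∧
      γ.sum = -(cs (f.map φ) : ℂ) := by
  classical
  obtain ⟨γ, h3, h4, h5⟩ := exists_weil_sf h2 hm hd hsq
  have hq0 : (0 : ℝ) ≤ Fintype.card κ := Nat.cast_nonneg _
  refine ⟨γ, ⟨fun k => if k = 0 then {1} else if k = 1 then γ else if k = 2 then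
    {((Nat.card κ : ℕ) : ℂ)} else 0, rfl, ?_, ?_⟩, h3, ?_⟩
  · intro k z hz
    simp only at hz
    by_cases hk0 : k = 0
    · rw [if_pos hk0, Multiset.mem_singleton] at hz
      rw [hz, norm_one, hk0]
      simp
    rw [if_neg hk0] at hz
    by_cases hk1 : k = 1
    · rw [if_pos hk1] at hz
      rw [h4 z hz, hk1, Real.sqrt_eq_rpow, Nat.card_eq_fintype_card]
      simp
    rw [if_neg hk1] at hz
    by_cases hk2 : k = 2
    · rw [if_pos hk2, Multiset.mem_singleton] at hz
      rw [hz, hk2, Complex.norm_natCast]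
      norm_num
    rw [if_neg hk2] at hz
    exact absurd hz (Multiset.notMem_zero z)
  · intro κ' _ _ θ e he
    let _ : Fintype κ' := Fintype.ofFinite κ'
    let _ : Algebra κ κ' := θ.toAlgebra
    have hfin : Module.Finite κ κ' := Module.Finite.of_finite
    have he0 : e ≠ 0 := by
      rintro rfl
      rw [pow_zero] at he
      have := Finite.one_lt_card (α := κ')
      omega
    have hfr : Module.finrank κ κ' = e := by
      have h6 := Module.card_eq_pow_finrank (K := κ) (V := κ')
      rw [Nat.card_eq_fintype_card, Nat.card_eq_fintype_card] at he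
      rw [he] at h6
      exact (Nat.pow_right_injective Fintype.one_lt_card h6).symm
    have h2' : ringChar κ' ≠ 2 := by rwa [ringChar_ext θ]
    rw [cone_eq g hfd]
    have hpts := Pool.Agent.H82R3.EK.card_points h2' (fun x => (f.map (θ.comp φ)).eval x)
    have hT := T_eq_sum (E := κ') h2 (f.map φ)
    rw [hfr] at hT
    have hsum : ∑ x : κ', quadraticChar κ' ((f.map (θ.comp φ)).eval x) = T (f.map φ) e := by
      rw [hT]
      refine sum_congr rfl fun x _ => ?_
      congr 1
      rw [← Polynomial.map_map, eval_map, aeval_def]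
      rfl
    rw [hsum] at hpts
    have hpts' : ((Nat.card {z : κ' × κ' // z.2 ^ 2 = (f.map (θ.comp φ)).eval z.1} : ℕ) : ℂ) =
        (Nat.card κ : ℂ) ^ e + (T (f.map φ) e : ℂ) := by
      have h6 : ((Nat.card {z : κ' × κ' // z.2 ^ 2 = (f.map (θ.comp φ)).eval z.1} : ℤ) : ℂ) =
          ((Fintype.card κ' + T (f.map φ) e : ℤ) : ℂ) := by rw [← hpts]
      rw [← Nat.card_eq_fintype_card, he] at h6
      push_cast at h6 ⊢
      exact h6
    have hcard1 : 1 ≤ Nat.card κ' := Nat.card_pos
    rw [Nat.cast_mul, Nat.cast_sub hcard1, he, Nat.cast_add, hpts']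
    obtain ⟨n, rfl⟩ := Nat.exists_eq_succ_of_ne_zero he0
    have h7 := h5 n
    unfold ps at h7
    have hr : Finset.range (2 * 1 + 1) = {0, 1, 2} := by decide
    rw [hr, Finset.sum_insert (by decide), Finset.sum_insert (by decide), Finset.sum_singleton]
    have e0 : (fun k => if k = 0 then ({1} : Multiset ℂ) else if k = 1 then γ else if k = 2 then
      {((Nat.card κ : ℕ) : ℂ)} else 0) 0 = {1} := rfl
    have e1 : (fun k => if k = 0 then ({1} : Multiset ℂ) else if k = 1 then γ else if k = 2 then
      {((Nat.card κ : ℕ) : ℂ)} else 0) 1 = γ := rfl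
    have e2 : (fun k => if k = 0 then ({1} : Multiset ℂ) else if k = 1 then γ else if k = 2 then
      {((Nat.card κ : ℕ) : ℂ)} else 0) 2 = {((Nat.card κ : ℕ) : ℂ)} := rfl
    rw [e0, e1, e2, Multiset.map_singleton, Multiset.map_singleton, Multiset.sum_singleton,
      Multiset.sum_singleton, Nat.succ_eq_add_one, h7]
    push_cast
    ring
  · have h6 := h5 0
    unfold ps at h6
    rw [zero_add, T_one h2] at h6
    simp only [pow_one, Multiset.map_id'] at h6
    exact h6

end

end Pool.Agent.Y707.PC
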