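import Pool.Agent.Y707.PC.Pen
import Pool.Agent.Y707.PC.Csum2

/-! The sums over the members of a linear pencil over a finite field. -/

set_option autoImplicit false
set_option maxHeartbeats 400000

namespace Pool.Agent.Y707.PC

open Polynomial Finset

section
variable {A : Type} [CommRing A] {κ : Type} [Field κ] [Fintype κ] {r g : ℕ} {a : A[X]}
  {α : Fin r → A} {ψ : A →+* κ}

theorem sum_ch (h2 : ringChar κ ≠ 2) : ∑ x : κ, ch x = 0 := by
  classical
  unfold ch
  have := quadraticChar_sum_zero h2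
  exact_mod_cast this

theorem sum_ch_affine (h2 : ringChar κ ≠ 2) (b c : κ) (hc : c ≠ 0) : ∑ w : κ, ch (b + w * c) = 0 := by
  rw [← sum_ch h2]
  exact ((Equiv.mulRight₀ c hc).trans (Equiv.addLeft b)).sum_comp fun x => ch x

theorem pen_eval (w x : κ) : (pen a α ψ w).eval x =
    (a.map ψ).eval x + w * ∏ j, (x - ψ (α j)) := by
  unfold pen
  rw [eval_add, eval_mul, eval_C, eval_prod]
  simp only [eval_sub, eval_X, eval_C]

variable (a α ψ) in
open Classical in
/-- the sum over the base points -/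
noncomputable def bas : ℝ :=
  ∑ x ∈ univ.filter (fun x : κ => ∏ j, (x - ψ (α j)) = 0), ch ((a.map ψ).eval x)

variable (a α ψ) in
/-- the sum over a member -/
noncomputable def msum (w : κ) : ℝ := ∑ x : κ, ch ((pen a α ψ w).eval x)

variable (g a α ψ) in
open Classical in
/-- the sum over the smooth members -/
noncomputable def Sx : ℝ := ∑ w : κ, if dsc g a α ψ w ≠ 0 then msum a α ψ w else 0

theorem sum_mem (h2 : ringChar κ ≠ 2) :
    ∑ w : κ, msum a α ψ w = Fintype.card κ * bas a α ψ := by
  classical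
  unfold msum bas
  rw [sum_comm, sum_filter, mul_sum]
  refine sum_congr rfl fun x _ => ?_
  simp only [pen_eval]
  split_ifs with h
  · rw [h]
    simp
  · rw [sum_ch_affine h2 _ _ h, mul_zero]

theorem bas_abs : |bas a α ψ| ≤ r := by
  classical
  unfold bas
  refine (abs_sum_le_sum_abs _ _).trans ((sum_le_sum fun x _ => ch_abs _).trans ?_)
  rw [sum_const, nsmul_eq_mul, mul_one]
  have h1 : univ.filter (fun x : κ => ∏ j, (x - ψ (α j)) = 0) ⊆ univ.image fun j => ψ (α j) := by
    intro x hx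
    rw [mem_filter, prod_eq_zero_iff] at hx
    obtain ⟨-, j, -, hj⟩ := hx
    rw [mem_image]
    exact ⟨j, mem_univ j, (sub_eq_zero.1 hj).symm⟩
  have h2 := (card_le_card h1).trans card_image_le
  rw [card_univ, Fintype.card_fin] at h2
  exact_mod_cast h2

theorem bas_eq (h : Function.Injective fun j => ψ (α j)) :
    bas a α ψ = ∑ j, ch (ψ (a.eval (α j))) := by
  classical
  unfold bas
  have h1 : univ.filter (fun x : κ => ∏ j, (x - ψ (α j)) = 0) = univ.image fun j => ψ (α j) := by
    ext x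
    rw [mem_filter, prod_eq_zero_iff, mem_image]
    constructor
    · rintro ⟨-, j, -, hj⟩
      exact ⟨j, mem_univ j, (sub_eq_zero.1 hj).symm⟩
    · rintro ⟨j, -, hj⟩
      exact ⟨mem_univ x, j, mem_univ j, sub_eq_zero.2 hj.symm⟩
  rw [h1, sum_image fun i _ j _ hij => h hij]
  refine sum_congr rfl fun j _ => ?_
  rw [eval_map_apply]

theorem mem_bound (h2 : ringChar κ ≠ 2) (ha : a.Monic) (hd : a.natDegree = 2 * g + 1)
    (hr : r ≤ 2 * g) (w : κ) : |msum a α ψ w| ≤ 2 * g * Real.sqrt (Fintype.card κ) := by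
  classical
  have h1 := pen_deg (α := α) (ψ := ψ) (w := w) ha hd hr
  have h3 := Pool.Agent.H341R2.Sharp.weil_sharp_monic h2 h1.1 (by omega) (by
    intro c f hc
    have hc0 : c ≠ 0 := by
      rintro rfl
      rw [Polynomial.C_0, zero_mul] at hc
      rw [hc, Polynomial.natDegree_zero] at h1
      omega
    have h4 := h1.2
    rw [hc, Polynomial.natDegree_C_mul hc0, Polynomial.natDegree_pow] at h4
    omega)
  rw [h1.2] at h3
  push_cast at h3
  rw [add_sub_cancel_right] at h3
  exact h3

theorem dsc_eval (w : κ) : dsc g a α ψ w = ((dsc g a α (C : A →+* A[X]) X).map ψ).eval w := by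
  have h := dsc_map (g := g) (a := a) (α := α) (ψ := (C : A →+* A[X])) (w := X)
    (Polynomial.eval₂RingHom ψ w)
  rw [eval_map]
  have h3 : (Polynomial.eval₂RingHom ψ w) (dsc g a α (C : A →+* A[X]) X) =
      eval₂ ψ w (dsc g a α (C : A →+* A[X]) X) := rfl
  rw [← h3, h]
  congr 1
  · ext z
    simp
  · simp

/-- the main term -/
theorem Sx_main (h2 : ringChar κ ≠ 2) (ha : a.Monic) (hd : a.natDegree = 2 * g + 1)
    (hr : r ≤ 2 * g) (hD : (dsc g a α (C : A →+* A[X]) X).map ψ ≠ 0) :
    |Sx g a α ψ - Fintype.card κ * bas a α ψ| ≤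
      (dsc g a α (C : A →+* A[X]) X).natDegree * (2 * g * Real.sqrt (Fintype.card κ)) := by
  classical
  have e : Sx g a α ψ - Fintype.card κ * bas a α ψ =
      -∑ w : κ, if dsc g a α ψ w = 0 then msum a α ψ w else 0 := by
    rw [← sum_mem h2]
    unfold Sx
    rw [← sum_sub_distrib, ← sum_neg_distrib]
    refine sum_congr rfl fun w _ => ?_
    by_cases h : dsc g a α ψ w = 0
    · rw [if_neg (not_not.2 h), if_pos h, zero_sub]
    · rw [if_pos h, if_neg h, sub_self, neg_zero]
  rw [e, abs_neg, ← sum_filter]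
  have h3 := mem_bound (α := α) (ψ := ψ) h2 ha hd hr
  refine (abs_sum_le_sum_abs _ _).trans ((sum_le_sum fun w _ => h3 w).trans ?_)
  rw [sum_const, nsmul_eq_mul]
  refine mul_le_mul_of_nonneg_right ?_ (by positivity)
  have h4 := card_zeros hD
  simp only [dsc_eval]
  refine le_trans ?_ (h4.trans ?_)
  · exact le_rfl
  · exact_mod_cast natDegree_map_le

theorem Sx_bound (h2 : ringChar κ ≠ 2) (ha : a.Monic) (hd : a.natDegree = 2 * g + 1)
    (hr : r ≤ 2 * g) : |Sx g a α ψ| ≤
      (r + (dsc g a α (C : A →+* A[X]) X).natDegree * (2 * g)) * Fintype.card κ := by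
  classical
  by_cases hD : (dsc g a α (C : A →+* A[X]) X).map ψ = 0
  · have : Sx g a α ψ = 0 := by
      unfold Sx
      refine sum_eq_zero fun w _ => ?_
      rw [if_neg]
      rw [not_not, dsc_eval, hD, eval_zero]
    rw [this, abs_zero]
    positivity
  · have h3 := Sx_main h2 ha hd hr hD
    have h4 : |(Fintype.card κ : ℝ) * bas a α ψ| ≤ Fintype.card κ * r := by
      rw [abs_mul, Nat.abs_cast]
      exact mul_le_mul_of_nonneg_left bas_abs (Nat.cast_nonneg _)
    have h5 := (sqrt_facts κ).2.2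
    have h6 : |Sx g a α ψ| ≤ |Sx g a α ψ - Fintype.card κ * bas a α ψ| +
        |(Fintype.card κ : ℝ) * bas a α ψ| := by
      have := abs_add_le (Sx g a α ψ - Fintype.card κ * bas a α ψ) (Fintype.card κ * bas a α ψ)
      rwa [sub_add_cancel] at this
    have h7 : (0 : ℝ) ≤ (dsc g a α (C : A →+* A[X]) X).natDegree * (2 * g) := by positivity
    have h8 := mul_le_mul_of_nonneg_left h5 h7
    nlinarith

end

end Pool.Agent.Y707.PC
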