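import Pool.Agent.Y707.PC.Asy2

/-! Frobenius elements and square roots. -/

set_option autoImplicit false
set_option maxHeartbeats 400000

namespace Pool.Agent.Y707.PC

open NumberField IsDedekindDomain
open Pool.Agent.W353.AT (IsFrobeniusElement)

section
variable {K : Type} [Field K] [NumberField K]

open Classical in
theorem frob_sqrt {v : HeightOneSpectrum (𝓞 K)} {σ : Gal(AlgebraicClosure K/K)}
    (hσ : IsFrobeniusElement v σ) {κ : Type} [Field κ] [Fintype κ] {φ : 𝓞 K →+* κ}
    (hker : RingHom.ker φ = v.asIdeal) (hcard : Nat.card κ = Ideal.absNorm v.asIdeal)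
    (h2 : ringChar κ ≠ 2) {δ : 𝓞 K} (hδ : φ δ ≠ 0) {y : AlgebraicClosure K}
    (hy : y ^ 2 = algebraMap K (AlgebraicClosure K) (δ : K)) :
    (ch (φ δ) = 1 ∧ σ y = y) ∨ (ch (φ δ) = -1 ∧ σ y = -y) := by
  obtain ⟨Q, hQ, hQv, hF⟩ := hσ
  have hδi : IsIntegral ℤ (algebraMap K (AlgebraicClosure K) (δ : K)) :=
    (RingOfIntegers.isIntegral_coe δ).map ((algebraMap K (AlgebraicClosure K)).toIntAlgHom)
  have hyi : IsIntegral ℤ y := IsIntegral.of_pow two_pos (by rw [hy]; exact hδi)
  let yy : 𝓞 (AlgebraicClosure K) := ⟨y, hyi⟩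
  let δ' : 𝓞 (AlgebraicClosure K) := algebraMap (𝓞 K) (𝓞 (AlgebraicClosure K)) δ
  have hyy : yy ^ 2 = δ' := by
    apply RingOfIntegers.ext
    exact hy
  have hsq : (σ y) ^ 2 = y ^ 2 := by rw [← map_pow, hy, AlgEquiv.commutes]
  have hpm : σ y = y ∨ σ y = -y := sq_eq_sq_iff_eq_or_eq_neg.1 hsq
  set s : ℤ := quadraticChar κ (φ δ) with hs
  have hs1 : s = 1 ∨ s = -1 := quadraticChar_dichotomy hδ
  have hpow := quadraticChar_eq_pow_of_char_ne_two' h2 (φ δ)
  rw [← hs] at hpow
  set q := Fintype.card κ with hq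
  have hodd : q % 2 = 1 := FiniteField.odd_card_of_char_ne_two h2
  have hmem : δ ^ (q / 2) - (s : 𝓞 K) ∈ v.asIdeal := by
    rw [← hker, RingHom.mem_ker, map_sub, map_pow, map_intCast, hpow, sub_self]
  have hQmem : δ' ^ (q / 2) - (s : 𝓞 (AlgebraicClosure K)) ∈ Q := by
    rw [← hQv, Ideal.mem_comap, map_sub, map_pow, map_intCast] at hmem
    exact hmem
  have hpq : yy ^ q = yy * δ' ^ (q / 2) := by
    rw [← hyy, ← pow_mul, ← pow_succ']
    congr 1
    omega
  have hFy := hF yy
  rw [← hcard, Nat.card_eq_fintype_card, ← hq, hpq] at hFy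
  have hkey : σ • yy - (s : 𝓞 (AlgebraicClosure K)) * yy ∈ Q := by
    have e : σ • yy - (s : 𝓞 (AlgebraicClosure K)) * yy =
        (σ • yy - yy * δ' ^ (q / 2)) + yy * (δ' ^ (q / 2) - (s : 𝓞 (AlgebraicClosure K))) := by
      ring
    rw [e]
    exact Q.add_mem hFy (Q.mul_mem_left _ hQmem)
  have hyQ : yy ∉ Q := by
    intro h
    apply hδ
    have h3 : δ ∈ v.asIdeal := by
      rw [← hQv, Ideal.mem_comap]
      show δ' ∈ Q
      rw [← hyy]
      exact Q.pow_mem_of_mem h 2 two_pos
    rw [← hker, RingHom.mem_ker] at h3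
    exact h3
  have h2Q : (2 : 𝓞 (AlgebraicClosure K)) ∉ Q := by
    intro h
    have h3 : (2 : 𝓞 K) ∈ v.asIdeal := by
      rw [← hQv, Ideal.mem_comap, map_ofNat]
      exact h
    rw [← hker, RingHom.mem_ker, map_ofNat] at h3
    exact Ring.two_ne_zero h2 h3
  have hch : ch (φ δ) = s := rfl
  rw [hch]
  have hcontra : ∀ x : 𝓞 (AlgebraicClosure K), x = 2 * yy ∨ x = -(2 * yy) → x ∉ Q := by
    rintro x (rfl | rfl) hx
    · rcases hQ.isPrime.mem_or_mem hx with h | h
      · exact h2Q h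
      · exact hyQ h
    · have hx' := (Ideal.neg_mem_iff Q).1 hx
      rcases hQ.isPrime.mem_or_mem hx' with h | h
      · exact h2Q h
      · exact hyQ h
  rcases hpm with h | h
  · left
    refine ⟨?_, h⟩
    rcases hs1 with h1 | h1
    · rw [h1]
      norm_num
    · exfalso
      have h4 : σ • yy = yy := by
        apply RingOfIntegers.ext
        exact h
      rw [h4, h1] at hkey
      refine hcontra _ (Or.inl ?_) hkey
      push_cast
      ring
  · right
    refine ⟨?_, h⟩
    rcases hs1 with h1 | h1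
    · exfalso
      have h4 : σ • yy = -yy := by
        apply RingOfIntegers.ext
        exact h
      rw [h4, h1] at hkey
      refine hcontra _ (Or.inr ?_) hkey
      push_cast
      ring
    · rw [h1]
      norm_num

end

end Pool.Agent.Y707.PC
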