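import Pool.Agent.TH943.HJ.Cls

/-! The coordinate ring of `y ^ 2 = a(x) + ω h(x)` over `M(ω)` is a localization of `M[x, y]`, up to the
powers of `h`. -/

set_option autoImplicit false

namespace Pool.Agent.Y707.PC

open Polynomial Pool.Agent.TH943.HJ

section
variable {M L : Type} [Field M] [Field L] [Algebra M L]

/-- a polynomial over `M` as a polynomial over `L` -/
noncomputable def up (p : M[X]) : L[X] := p.map (algebraMap M L)

/-- `a + ω h` -/
noncomputable def ff (a h : M[X]) (ω : L) : L[X] := up a + C ω * up h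

theorem up_def (p : M[X]) : (up p : L[X]) = p.map (algebraMap M L) := rfl

theorem up_add (p q : M[X]) : (up (p + q) : L[X]) = up p + up q := Polynomial.map_add _

theorem up_mul (p q : M[X]) : (up (p * q) : L[X]) = up p * up q := Polynomial.map_mul _

theorem up_inj : Function.Injective (up : M[X] → L[X]) :=
  Polynomial.map_injective _ (algebraMap M L).injective

theorem up_zero : (up (0 : M[X]) : L[X]) = 0 := Polynomial.map_zero _

theorem up_one : (up (1 : M[X]) : L[X]) = 1 := Polynomial.map_one _

theorem up_ne {p : M[X]} (h : p ≠ 0) : (up p : L[X]) ≠ 0 := by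
  intro h0
  apply h
  apply up_inj (L := L)
  rw [h0, up_zero]

/-- polynomials over `M` and `ω`: linear independence of the powers of `ω` -/
theorem ev_omega {ω : L} (hω : Transcendental M ω) (Q : M[X][X])
    (hQ : Q.eval₂ (mapRingHom (algebraMap M L)) (C ω) = 0) : Q = 0 := by
  ext i j
  rw [coeff_zero, coeff_zero]
  -- the polynomial of the coefficients of `x ^ j`
  have h1 : ((Q.eval₂ (mapRingHom (algebraMap M L)) (C ω)).coeff j) =
      aeval ω (∑ i ∈ Q.support, monomial i ((Q.coeff i).coeff j)) := by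
    rw [eval₂_eq_sum, Polynomial.sum, finset_sum_coeff, map_sum]
    refine Finset.sum_congr rfl fun i _ => ?_
    rw [aeval_monomial, ← C_pow, coeff_mul_C]
    congr 1
    rw [coe_mapRingHom, coeff_map]
  rw [hQ, coeff_zero] at h1
  have h2 : (∑ i ∈ Q.support, monomial i ((Q.coeff i).coeff j)) = 0 := by
    by_contra hne
    exact hω ⟨_, hne, h1.symm⟩
  have h3 := congrArg (fun p => coeff p i) h2
  simp only [finset_sum_coeff, coeff_monomial, coeff_zero] at h3
  rw [Finset.sum_ite_eq' Q.support i] at h3
  by_cases hi : i ∈ Q.support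
  · rwa [if_pos hi] at h3
  · rw [notMem_support_iff.1 hi, coeff_zero]

/-- the map `M[x, y] → L[x, y] / (y ^ 2 - f)` -/
noncomputable def th (f : L[X]) : M[X][X] →+* CR f :=
  eval₂RingHom ((pp).comp (mapRingHom (algebraMap M L))) (yy f)

theorem th_C (f : L[X]) (p : M[X]) : th f (C p) = pp (up p) := by
  unfold th
  rw [coe_eval₂RingHom, eval₂_C]
  rfl

theorem th_X (f : L[X]) : th (M := M) f X = yy f := by
  unfold th
  rw [coe_eval₂RingHom, eval₂_X]

theorem ff_def (a h : M[X]) (ω : L) : ff a h ω = up a + C ω * up h := rfl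

theorem yy_ff (a h : M[X]) (ω : L) {F : L[X]} (hF : F = ff a h ω) :
    yy F ^ 2 = pp (up a) + pp (C ω) * pp (up h) := by
  rw [yy_sq, ← map_mul, ← map_add]
  exact congrArg pp (hF.trans (ff_def a h ω))

/-- the relation -/
theorem rel (a h : M[X]) (ω : L) :
    (pp (C ω) : CR (ff a h ω)) * pp (up h) = th (ff a h ω) (X ^ 2 - C a) := by
  rw [map_sub, map_pow, th_X, th_C, yy_ff a h ω rfl]
  ring

variable {a h : M[X]} {ω : L}

theorem odd_ff (ha : Odd a.natDegree) (hd : h.natDegree < a.natDegree) :
    Odd (ff a h ω : L[X]).natDegree ∧ (ff a h ω : L[X]).natDegree = a.natDegree := by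
  have h1 : (C ω * up h : L[X]).natDegree < (up a : L[X]).natDegree := by
    refine (natDegree_C_mul_le _ _).trans_lt ?_
    rw [up_def, up_def, natDegree_map, natDegree_map]
    exact hd
  have h2 : (ff a h ω : L[X]).natDegree = a.natDegree := by
    rw [ff, natDegree_add_eq_left_of_natDegree_lt h1, up_def, natDegree_map]
  rw [h2]
  exact ⟨ha, rfl⟩

/-- `y` is transcendental over `M[x]`: the map is injective -/
theorem th_inj (hω : Transcendental M ω) (ha : Odd a.natDegree) (hd : h.natDegree < a.natDegree)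
    (hh : h ≠ 0) : Function.Injective (th (ff a h ω) : M[X][X] → CR (ff a h ω)) := by
  have hdom : IsDomain (CR (ff a h ω)) := isDomain (odd_ff ha hd).1
  let _ : Algebra M[X] (CR (ff a h ω)) :=
    RingHom.toAlgebra ((pp).comp (mapRingHom (algebraMap M L)))
  have hal : ∀ p : M[X], algebraMap M[X] (CR (ff a h ω)) p = pp (up p) := fun p => rfl
  have hinj : Function.Injective (algebraMap M[X] (CR (ff a h ω))) := by
    intro p q hpq
    rw [hal, hal] at hpq
    exact up_inj (pp_inj hpq)
  have htr : Transcendental M[X] (pp (C ω) : CR (ff a h ω)) := by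
    rintro ⟨Q, hQ0, hQ⟩
    apply hQ0
    apply ev_omega hω
    apply pp_inj (F := ff a h ω)
    rw [map_zero, ← hQ, aeval_def, hom_eval₂]
    rfl
  have key : Transcendental M[X] (yy (ff a h ω)) := by
    intro halg
    apply htr
    have h1 : IsAlgebraic M[X] (yy (ff a h ω) ^ 2) := halg.pow 2
    have h2 : IsAlgebraic M[X] (yy (ff a h ω) ^ 2 - algebraMap M[X] _ a) :=
      h1.sub (isAlgebraic_algebraMap a)
    have h3 : yy (ff a h ω) ^ 2 - algebraMap M[X] _ a = h • (pp (C ω) : CR (ff a h ω)) := by
      rw [Algebra.smul_def, hal, hal, yy_ff a h ω rfl]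
      ring
    rw [h3] at h2
    have hfs : FaithfulSMul M[X] (CR (ff a h ω)) :=
      (faithfulSMul_iff_algebraMap_injective _ _).2 hinj
    exact IsAlgebraic.of_smul (mem_nonZeroDivisors_of_ne_zero hh) h2
  have h4 := transcendental_iff_injective.1 key
  intro P Q hPQ
  apply h4
  rw [aeval_def, aeval_def]
  exact hPQ

end

end Pool.Agent.Y707.PC
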