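import Pool.Agent.W353.FB.Defs

/-! Sums of quadratic characters of a Galois group. -/

set_option autoImplicit false
set_option maxHeartbeats 400000

namespace Pool.Agent.Y707.PC

open Polynomial
open Pool.Agent.W353.TD (rank eigenvalues)

section
variable {K : Type} [Field K] [CharZero K] {J : Type}

open Classical in
/-- the sign of `σ` on a square root -/
noncomputable def sg (y : AlgebraicClosure K) (σ : Gal(AlgebraicClosure K/K)) : ℚ :=
  if σ y = y then 1 else -1

omit [CharZero K] in
theorem sg_one (y : AlgebraicClosure K) : sg y 1 = 1 := if_pos rfl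

theorem sg_spec {y : AlgebraicClosure K} {d : K} (hy : y ^ 2 = algebraMap K (AlgebraicClosure K) d)
    (σ : Gal(AlgebraicClosure K/K)) : σ y = (sg y σ : AlgebraicClosure K) * y := by
  have hsq : (σ y) ^ 2 = y ^ 2 := by rw [← map_pow, hy, AlgEquiv.commutes]
  unfold sg
  rcases sq_eq_sq_iff_eq_or_eq_neg.1 hsq with h | h
  · rw [if_pos h, Rat.cast_one, one_mul, h]
  · by_cases h0 : σ y = y
    · rw [if_pos h0, Rat.cast_one, one_mul, h0]
    · rw [if_neg h0, h]
      push_cast
      ring

theorem sg_mul {y : AlgebraicClosure K} {d : K} (hy : y ^ 2 = algebraMap K (AlgebraicClosure K) d)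
    (hy0 : y ≠ 0) (σ τ : Gal(AlgebraicClosure K/K)) : sg y (σ * τ) = sg y σ * sg y τ := by
  have h1 := sg_spec hy (σ * τ)
  have h2 : (σ * τ) y = σ (τ y) := rfl
  rw [h2, sg_spec hy τ, map_mul, sg_spec hy σ] at h1
  have h3 : σ ((sg y τ : ℚ) : AlgebraicClosure K) = ((sg y τ : ℚ) : AlgebraicClosure K) :=
    map_ratCast σ _
  rw [h3] at h1
  have h4 : ((sg y (σ * τ) : ℚ) : AlgebraicClosure K) =
      ((sg y σ * sg y τ : ℚ) : AlgebraicClosure K) := by
    apply mul_right_cancel₀ hy0
    rw [← h1]
    push_cast
    ring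
  exact_mod_cast h4

/-- the sum of the characters -/
noncomputable def rp {y : J → AlgebraicClosure K} {d : J → K}
    (hy : ∀ z, y z ^ 2 = algebraMap K (AlgebraicClosure K) (d z)) (hy0 : ∀ z, y z ≠ 0) :
    Representation ℚ Gal(AlgebraicClosure K/K) (J → ℚ) where
  toFun σ := LinearMap.pi fun z => sg (y z) σ • LinearMap.proj z
  map_one' := by
    ext f z
    simp [sg_one]
  map_mul' σ τ := by
    refine LinearMap.ext fun f => funext fun z => ?_
    show sg (y z) (σ * τ) • f z = sg (y z) σ • (sg (y z) τ • f z)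
    rw [sg_mul (hy z) (hy0 z), smul_smul]

variable {y : J → AlgebraicClosure K} {d : J → K}
    {hy : ∀ z, y z ^ 2 = algebraMap K (AlgebraicClosure K) (d z)} {hy0 : ∀ z, y z ≠ 0}

theorem rp_apply (σ : Gal(AlgebraicClosure K/K)) (f : J → ℚ) (z : J) :
    rp hy hy0 σ f z = sg (y z) σ * f z := rfl

theorem rp_open [Finite J] : ∃ U : Subgroup Gal(AlgebraicClosure K/K),
    IsOpen (U : Set Gal(AlgebraicClosure K/K)) ∧ ∀ u ∈ U, rp hy hy0 u = 1 := by
  have hfin : FiniteDimensional K (IntermediateField.adjoin K (Set.range y)) := by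
    refine IntermediateField.finiteDimensional_adjoin fun x _ => ?_
    exact (Algebra.IsIntegral.isIntegral x)
  refine ⟨(IntermediateField.adjoin K (Set.range y)).fixingSubgroup,
    IntermediateField.fixingSubgroup_isOpen _, ?_⟩
  intro u hu
  refine LinearMap.ext fun f => funext fun z => ?_
  rw [rp_apply]
  have h1 : u (y z) = y z := (IntermediateField.mem_fixingSubgroup_iff _ _).1 hu _
    (IntermediateField.subset_adjoin K _ ⟨z, rfl⟩)
  have h2 : sg (y z) u = 1 := if_pos h1
  rw [h2, one_mul]
  rfl

theorem rp_eigen [Fintype J] (σ : Gal(AlgebraicClosure K/K)) :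
    eigenvalues (rp hy hy0 σ) = Finset.univ.val.map fun z => ((sg (y z) σ : ℚ) : ℂ) := by
  classical
  have e : rp hy hy0 σ = Matrix.toLin' (Matrix.diagonal fun z => sg (y z) σ) := by
    refine LinearMap.ext fun f => funext fun z => ?_
    rw [rp_apply, Matrix.toLin'_apply, Matrix.mulVec_diagonal]
  unfold eigenvalues
  rw [e, Matrix.charpoly_toLin', Matrix.charpoly_diagonal, Polynomial.map_prod]
  have h : ∀ z : J, (X - C (sg (y z) σ)).map (algebraMap ℚ ℂ) = X - C ((sg (y z) σ : ℚ) : ℂ) := by
    intro z
    rw [Polynomial.map_sub, Polynomial.map_X, Polynomial.map_C]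
    rfl
  rw [Finset.prod_congr rfl fun z _ => h z]
  have h2 := Polynomial.roots_multiset_prod_X_sub_C
    (Finset.univ.val.map fun z => ((sg (y z) σ : ℚ) : ℂ))
  rw [Multiset.map_map] at h2
  exact h2

theorem rp_rank [Finite J] (F : IntermediateField K (AlgebraicClosure K)) :
    rank (rp hy hy0) F = Nat.card {z : J // y z ∈ F} := by
  classical
  have hzero : ∀ f ∈ Representation.invariants ((rp hy hy0).comp F.fixingSubgroup.subtype),
      ∀ z, y z ∉ F → f z = 0 := by
    intro f hf z hz
    by_contra hne
    apply hz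
    have hF := InfiniteGalois.fixedField_fixingSubgroup F
    rw [← hF, IntermediateField.mem_fixedField_iff]
    intro g hg
    have h1 := (Representation.mem_invariants _ _).1 hf ⟨g, hg⟩
    have h2 := congrFun h1 z
    have h3 : sg (y z) g * f z = f z := h2
    have h4 : sg (y z) g = 1 := by
      apply mul_right_cancel₀ hne
      rw [h3, one_mul]
    unfold sg at h4
    by_contra h5
    rw [if_neg h5] at h4
    norm_num at h4
  have hinv : ∀ h : {z : J // y z ∈ F} → ℚ, (fun z => if hz : y z ∈ F then h ⟨z, hz⟩ else 0) ∈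
      Representation.invariants ((rp hy hy0).comp F.fixingSubgroup.subtype) := by
    intro h
    rw [Representation.mem_invariants]
    rintro ⟨g, hg⟩
    funext z
    show sg (y z) g * (if hz : y z ∈ F then h ⟨z, hz⟩ else 0) = _
    split_ifs with hz
    · have h1 : sg (y z) g = 1 := if_pos ((IntermediateField.mem_fixingSubgroup_iff _ _).1 hg _ hz)
      rw [h1, one_mul]
    · rw [mul_zero]
  let e : Representation.invariants ((rp hy hy0).comp F.fixingSubgroup.subtype) ≃ₗ[ℚ]
      ({z : J // y z ∈ F} → ℚ) :=
    { toFun := fun f z => f.1 z.1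
      invFun := fun h => ⟨_, hinv h⟩
      map_add' := fun f g => rfl
      map_smul' := fun c f => rfl
      left_inv := fun f => by
        apply Subtype.ext
        funext z
        show (if hz : y z ∈ F then f.1 z else 0) = f.1 z
        split_ifs with hz
        · rfl
        · exact (hzero f.1 f.2 z hz).symm
      right_inv := fun h => by
        funext z
        show (if hz : y z.1 ∈ F then h ⟨z.1, hz⟩ else 0) = h z
        rw [dif_pos z.2] }
  have hJ := Fintype.ofFinite J
  unfold rank
  rw [LinearEquiv.finrank_eq e, Module.finrank_fintype_fun_eq_card, Nat.card_eq_fintype_card]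

end

end Pool.Agent.Y707.PC
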