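import Pool.Agent.Y707.PC.Frob
import Pool.Agent.Y707.PC.Rep

/-! The fibre averages of a linear pencil: the representation. -/

set_option autoImplicit false
set_option maxHeartbeats 400000

namespace Pool.Agent.Y707.PC

open Polynomial Finset NumberField IsDedekindDomain Filter
open Pool.Agent.W353.AT (IsFrobeniusElement)
open Pool.Agent.W353.TD (rank eigenvalues)
open Pool.Agent.W353.FB (Fibration IsPartOf ValueAt)
open Pool.Agent.Y707.PH (averageValue)

section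
variable {K : Type} [Field K] [NumberField K]

theorem ae_notMem {x : 𝓞 K} (hx : x ≠ 0) :
    ∀ᶠ v : HeightOneSpectrum (𝓞 K) in cofinite, x ∉ v.asIdeal := by
  rw [Filter.eventually_cofinite]
  have h1 : Ideal.span {x} ≠ ⊥ := by rwa [Ne, Ideal.span_singleton_eq_bot]
  refine (Ideal.finite_factors h1).subset fun v hv => ?_
  rw [Set.mem_ofPred_eq, not_not] at hv
  rw [Set.mem_ofPred_eq, Ideal.dvd_span_singleton]
  exact hv

theorem residue_iso (v : HeightOneSpectrum (𝓞 K)) {κ : Type} [Field κ] (φ : 𝓞 K →+* κ)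
    (hker : RingHom.ker φ = v.asIdeal) (hcard : Nat.card κ = Ideal.absNorm v.asIdeal) :
    ∃ θ : (𝓞 K ⧸ v.asIdeal) ≃+* κ,
      (θ : (𝓞 K ⧸ v.asIdeal) →+* κ).comp (Ideal.Quotient.mk v.asIdeal) = φ := by
  have hfin := Pool.Agent.H341R2.finite_v v
  have h0 : Nat.card (𝓞 K ⧸ v.asIdeal) = Ideal.absNorm v.asIdeal := rfl
  have h1 : Nat.card κ ≠ 0 := by
    rw [hcard, ← h0]
    exact Nat.card_pos.ne'
  have hfk : Finite κ := Nat.finite_of_card_ne_zero h1
  let θ0 : (𝓞 K ⧸ v.asIdeal) →+* κ := Ideal.Quotient.lift v.asIdeal φ fun a ha => by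
    rw [← hker, RingHom.mem_ker] at ha
    exact ha
  have hinj : Function.Injective θ0 := θ0.injective
  have hbij : Function.Bijective θ0 := by
    refine (Nat.bijective_iff_injective_and_card θ0).2 ⟨hinj, ?_⟩
    rw [hcard, h0]
  refine ⟨RingEquiv.ofBijective θ0 hbij, ?_⟩
  ext x
  rfl

theorem sg_inv {y : AlgebraicClosure K} (σ : Gal(AlgebraicClosure K/K)) : sg y σ⁻¹ = sg y σ := by
  unfold sg
  have h : σ⁻¹ y = y ↔ σ y = y := by
    constructor
    · intro h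
      have h2 : σ (σ⁻¹ y) = y := σ.apply_symm_apply y
      rwa [h] at h2
    · intro h
      have h2 : σ⁻¹ (σ y) = y := σ.symm_apply_apply y
      rwa [h] at h2
  by_cases h1 : σ y = y
  · rw [if_pos h1, if_pos (h.2 h1)]
  · rw [if_neg h1, if_neg fun h2 => h1 (h.1 h2)]

end

section
variable {K : Type} [Field K] [NumberField K] {k l r g : ℕ}
  {G : Fin l → MvPolynomial (Fin k) (𝓞 K)}
  {a : (MvPolynomial (Fin k) (𝓞 K))[X]} {α : Fin r → MvPolynomial (Fin k) (𝓞 K)}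

variable (G a α) in
/-- the base points that contribute, with the twists -/
abbrev JJ' : Type := {z : Fin r × Finset (Fin l) // IsConstSq (pz G a α z)}

theorem valueAt_TT (ha : a.Monic) (hd : a.natDegree = 2 * g + 1) (hr : r ≤ 2 * g)
    (v : HeightOneSpectrum (𝓞 K)) : ValueAt (averageValue (pencil g G a α)) v
      (((Nat.card (𝓞 K ⧸ v.asIdeal) : ℝ) ^ (k + 1))⁻¹ *
        TT g G a α (Ideal.Quotient.mk v.asIdeal)) := by
  intro κ _ φ hker hcard
  obtain ⟨θ, hθ⟩ := residue_iso v φ hker hcard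
  have hfk : Finite κ := Finite.of_equiv _ θ.toEquiv
  let _ := Fintype.ofFinite κ
  have key : ∀ φ' : 𝓞 K →+* κ, φ' = φ → averageValue (pencil g G a α) κ φ'
      (((Nat.card (𝓞 K ⧸ v.asIdeal) : ℝ) ^ (k + 1))⁻¹ *
        TT g G a α (Ideal.Quotient.mk v.asIdeal)) := by
    intro φ' h
    rw [h, averageValue_iff ha hd hr, ← hθ, TT_iso, Nat.card_congr θ.toEquiv]
  exact key _ (RingHom.ext fun x => rfl)

theorem isPartOf (ha : a.Monic) (hd : a.natDegree = 2 * g + 1) (hr : r ≤ 2 * g)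
    (haα : ∀ j, a.eval (α j) ≠ 0) (hα : Function.Injective α) (hG : ∀ i, G i ≠ 0) :
    ∃ (δ : Fin r × Finset (Fin l) → 𝓞 K) (y : JJ' G a α → AlgebraicClosure K)
      (hy : ∀ z, y z ^ 2 = algebraMap K (AlgebraicClosure K) (δ z.1 : K)) (hy0 : ∀ z, y z ≠ 0),
      (∀ z, IsConstSq (pz G a α z) → δ z ≠ 0 ∧
        ∃ (d : 𝓞 K) (H : MvPolynomial (Fin k) (𝓞 K)), d ≠ 0 ∧ H ≠ 0 ∧
          MvPolynomial.C (d ^ 2) * pz G a α z = MvPolynomial.C (δ z) * H ^ 2) ∧
      IsPartOf (averageValue (pencil g G a α)) (Module.finrank ℚ (JJ' G a α → ℚ)) (rp hy hy0) := by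
  classical
  obtain ⟨δ, B, c, hB, hc, hδ, hasy⟩ := asy2 (G := G) ha hd hr haα hα hG
  have hex : ∀ z : JJ' G a α, ∃ y : AlgebraicClosure K,
      y ^ 2 = algebraMap K (AlgebraicClosure K) (δ z.1 : K) := fun z =>
    IsAlgClosed.exists_pow_nat_eq _ two_pos
  choose y hy using hex
  have hy0 : ∀ z, y z ≠ 0 := by
    intro z h0
    have h1 := hy z
    rw [h0, zero_pow two_ne_zero] at h1
    have h2 := ((map_eq_zero_iff _ (algebraMap K (AlgebraicClosure K)).injective).1 h1.symm)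
    exact (hδ z.1 z.2).1 (RingOfIntegers.coe_eq_zero_iff.1 h2)
  refine ⟨δ, y, hy, hy0, hδ, rp_open, B, ?_⟩
  have hx : (2 * (c * ∏ z : JJ' G a α, δ z.1) : 𝓞 K) ≠ 0 := mul_ne_zero two_ne_zero
    (mul_ne_zero hc (prod_ne_zero_iff.2 fun z _ => (hδ z.1 z.2).1))
  filter_upwards [ae_notMem hx] with v hv σ hσ
  set φ : 𝓞 K →+* 𝓞 K ⧸ v.asIdeal := Ideal.Quotient.mk v.asIdeal with hφ
  have hker : RingHom.ker φ = v.asIdeal := Ideal.mk_ker
  have hcard : Nat.card (𝓞 K ⧸ v.asIdeal) = Ideal.absNorm v.asIdeal := rfl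
  have hne : φ (2 * (c * ∏ z : JJ' G a α, δ z.1)) ≠ 0 := by
    intro h0
    apply hv
    rw [← hker, RingHom.mem_ker]
    exact h0
  rw [map_mul, map_mul, map_prod, map_ofNat] at hne
  have h2 : ringChar (𝓞 K ⧸ v.asIdeal) ≠ 2 := ringChar_of_two (left_ne_zero_of_mul hne)
  have hcφ : φ c ≠ 0 := left_ne_zero_of_mul (right_ne_zero_of_mul hne)
  have hδφ : ∀ z : JJ' G a α, φ (δ z.1) ≠ 0 := fun z =>
    prod_ne_zero_iff.1 (right_ne_zero_of_mul (right_ne_zero_of_mul hne)) z (mem_univ z)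
  have h3 := hasy _ φ hcφ
  -- the signs
  have hsg : ∀ z : JJ' G a α, ((sg (y z) σ⁻¹ : ℚ) : ℂ) = ((ch (φ (δ z.1)) : ℝ) : ℂ) := by
    intro z
    rw [sg_inv]
    unfold sg
    rcases frob_sqrt hσ hker hcard h2 (hδφ z) (hy z) with ⟨h4, h5⟩ | ⟨h4, h5⟩
    · rw [if_pos h5, h4]
      norm_num
    · have h6 : σ (y z) ≠ y z := by
        intro h7
        rw [h5] at h7
        have h8 : (2 : AlgebraicClosure K) * y z = 0 := by linear_combination -h7
        rcases mul_eq_zero.1 h8 with h9 | h9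
        · exact two_ne_zero h9
        · exact hy0 z h9
      rw [if_neg h6, h4]
      norm_num
  have hN : Module.finrank ℚ (JJ' G a α → ℚ) = Fintype.card (JJ' G a α) :=
    Module.finrank_fintype_fun_eq_card ℚ
  let e : Fin (Module.finrank ℚ (JJ' G a α → ℚ)) ≃ JJ' G a α :=
    (finCongr hN).trans (Fintype.equivFin _).symm
  refine ⟨_, fun i => ((ch (φ (δ (e i).1)) : ℝ) : ℂ), valueAt_TT ha hd hr v, ?_, ?_, ?_⟩
  · intro i
    rw [Complex.norm_real]
    exact ch_abs _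
  · rw [rp_eigen]
    have h5 : (Finset.univ.val.map fun z : JJ' G a α => ((sg (y z) σ⁻¹ : ℚ) : ℂ)) =
        Finset.univ.val.map fun z : JJ' G a α => ((ch (φ (δ z.1)) : ℝ) : ℂ) :=
      Multiset.map_congr rfl fun z _ => hsg z
    rw [h5, ← Multiset.map_univ_val_equiv e, Multiset.map_map]
    exact le_rfl
  · rw [← hφ]
    have h5 : ∑ i, ((ch (φ (δ (e i).1)) : ℝ) : ℂ) =
        ((∑ z, (if IsConstSq (pz G a α z) then ch (φ (δ z)) else 0) : ℝ) : ℂ) := by
      rw [e.sum_comp fun z : JJ' G a α => ((ch (φ (δ z.1)) : ℝ) : ℂ), ← Complex.ofReal_sum]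
      congr 1
      rw [← sum_filter]
      exact (sum_subtype _ (fun z => by simp) fun z => ch (φ (δ z))).symm
    rw [h5, ← Complex.ofReal_sub, Complex.norm_real, Real.norm_eq_abs]
    have hq : (0 : ℝ) < Nat.card (𝓞 K ⧸ v.asIdeal) := by
      have hfin := Pool.Agent.H341R2.finite_v v
      exact_mod_cast Nat.card_pos
    have h6 : (Ideal.absNorm v.asIdeal : ℝ) ^ (-(1 / 2) : ℝ) =
        (Real.sqrt (Nat.card (𝓞 K ⧸ v.asIdeal)))⁻¹ := by
      rw [← hcard, Real.rpow_neg hq.le, ← Real.sqrt_eq_rpow]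
    rw [h6, ← div_eq_mul_inv, le_div_iff₀ (Real.sqrt_pos.2 hq)]
    exact h3

end

end Pool.Agent.Y707.PC
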