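import Pool.Agent.Y707.PC.Eig
import Pool.Agent.Y707.PC.AlgTop
import Pool.Agent.Y707.RX.Defs

/-!
# Linear pencils of hyperelliptic curves over multiquadratic covers of affine space

The polynomials `a + w ∏ (X - α_j)`, and the family of the curves `Y ^ 2 = a(x, X) + w ∏ (X - α_j(x))`
over the points `(x, y, w)` with `y_i ^ 2 = G_i(x)`.
-/

set_option autoImplicit false
set_option maxHeartbeats 400000

namespace Pool.Agent.Y707.PC

open Polynomial Finset

section
variable {A B : Type} [CommRing A] [CommRing B] {r : ℕ}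

/-- The polynomial `a + w ∏ (X - α_j)`, with the coefficients of `a` and the `α_j` mapped by `ψ`. -/
noncomputable def pen (a : A[X]) (α : Fin r → A) (ψ : A →+* B) (w : B) : B[X] :=
  a.map ψ + C w * ∏ j, (X - C (ψ (α j)))

/-- The resultant of `a + w ∏ (X - α_j)`, as a polynomial of degree `2 g + 1`, and of its
derivative. -/
noncomputable def dsc (g : ℕ) (a : A[X]) (α : Fin r → A) (ψ : A →+* B) (w : B) : B :=
  Polynomial.resultant (pen a α ψ w) (derivative (pen a α ψ w)) (2 * g + 1) (2 * g)

variable {a : A[X]} {α : Fin r → A} {ψ : A →+* B} {w : B} {g : ℕ}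

theorem pen_map {D : Type} [CommRing D] (θ : B →+* D) :
    (pen a α ψ w).map θ = pen a α (θ.comp ψ) (θ w) := by
  unfold pen
  rw [Polynomial.map_add, Polynomial.map_mul, Polynomial.map_C, Polynomial.map_prod,
    Polynomial.map_map]
  simp only [Polynomial.map_sub, Polynomial.map_X, Polynomial.map_C, RingHom.comp_apply]

theorem dsc_map {D : Type} [CommRing D] (θ : B →+* D) :
    θ (dsc g a α ψ w) = dsc g a α (θ.comp ψ) (θ w) := by
  unfold dsc
  rw [← pen_map, ← Polynomial.resultant_map_map, Polynomial.derivative_map]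

theorem pen_deg [Nontrivial B] (ha : a.Monic) (hd : a.natDegree = 2 * g + 1) (hr : r ≤ 2 * g) :
    (pen a α ψ w).Monic ∧ (pen a α ψ w).natDegree = 2 * g + 1 := by
  have h1 : (a.map ψ).natDegree = 2 * g + 1 := by rw [ha.natDegree_map, hd]
  have h2 : (∏ j, (X - C (ψ (α j)))).natDegree = r := by
    rw [natDegree_prod_of_monic _ _ fun i _ => monic_X_sub_C _]
    simp
  have h3 : (C w * ∏ j, (X - C (ψ (α j)))).natDegree < (a.map ψ).natDegree := by
    refine (natDegree_C_mul_le _ _).trans_lt ?_
    omega
  constructor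
  · exact (ha.map ψ).add_of_left (degree_lt_degree h3)
  · unfold pen
    rw [natDegree_add_eq_left_of_natDegree_lt h3, h1]

theorem sep_of_dsc {B : Type} [Field B] {ψ : A →+* B} {w : B} (ha : a.Monic)
    (hd : a.natDegree = 2 * g + 1) (hr : r ≤ 2 * g) (h : dsc g a α ψ w ≠ 0) :
    (pen a α ψ w).Separable := by
  have h1 := pen_deg (α := α) (ψ := ψ) (w := w) ha hd hr
  have h2 := natDegree_derivative_le (pen a α ψ w)
  obtain ⟨p, q, -, -, h3⟩ := Polynomial.exists_mul_add_mul_eq_C_resultant (m := 2 * g + 1)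
    (n := 2 * g) (pen a α ψ w) (derivative (pen a α ψ w)) (by omega) (by omega) (by omega)
  have h4 : Polynomial.resultant (pen a α ψ w) (derivative (pen a α ψ w)) (2 * g + 1) (2 * g) =
      dsc g a α ψ w := rfl
  rw [h4] at h3
  refine ⟨C (dsc g a α ψ w)⁻¹ * p, C (dsc g a α ψ w)⁻¹ * q, ?_⟩
  have hc : (C (dsc g a α ψ w)⁻¹ : Polynomial B) * C (dsc g a α ψ w) = 1 := by
    rw [← C_mul, inv_mul_cancel₀ h, C_1]
  rw [← hc, ← h3]
  ring

theorem dsc_gen [IsDomain A] [CharZero A] (ha : a.Monic) (hd : a.natDegree = 2 * g + 1)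
    (hr : r ≤ 2 * g) (haα : ∀ j, a.eval (α j) ≠ 0) : dsc g a α (C : A →+* A[X]) X ≠ 0 := by
  intro h0
  let M := FractionRing A
  let L := RatFunc M
  let θ : A[X] →+* L := (algebraMap M[X] L).comp (mapRingHom (algebraMap A M))
  have hM0 : CharZero M := charZero_of_injective_algebraMap (IsFractionRing.injective A M)
  have hinj : Function.Injective (algebraMap A M) := IsFractionRing.injective A M
  have h1 := dsc_map (g := g) (a := a) (α := α) (ψ := (C : A →+* A[X])) (w := X) θ
  rw [h0, map_zero] at h1
  have hp : pen a α (θ.comp C) (θ X) =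
      ff (a.map (algebraMap A M)) (hh fun j => algebraMap A M (α j)) (RatFunc.X : L) := by
    have hX : θ X = RatFunc.X := by
      show (algebraMap M[X] L) ((X : A[X]).map (algebraMap A M)) = _
      rw [Polynomial.map_X, RatFunc.algebraMap_X]
    have hC : ∀ z : A, θ (C z) = algebraMap M L (algebraMap A M z) := by
      intro z
      show (algebraMap M[X] L) ((C z : A[X]).map (algebraMap A M)) = _
      rw [Polynomial.map_C]
      rfl
    have hC' : θ.comp C = (algebraMap M L).comp (algebraMap A M) := by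
      ext z
      exact hC z
    unfold pen ff
    rw [hX, hC', up_hh, up_def, Polynomial.map_map]
    rfl
  have hne : ∀ j, (a.map (algebraMap A M)).eval (algebraMap A M (α j)) ≠ 0 := by
    intro j h2
    rw [eval_map_apply] at h2
    exact haα j (hinj (by rw [h2, map_zero]))
  have h2 := pen_deg (α := α) (ψ := θ.comp C) (w := θ X) ha hd hr
  have hsep : (pen a α (θ.comp C) (θ X)).Separable := by
    rw [hp]
    refine sep_ff (transc_X (M := M)) (hh_coprime hne) ?_ ?_
    · rw [ha.natDegree_map, hd]
      omega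
    · rw [← hp]
      exact h2.1.ne_zero
  have hL0 : CharZero L := charZero_of_injective_algebraMap (algebraMap M L).injective
  have h3 : (derivative (pen a α (θ.comp C) (θ X))).natDegree = 2 * g := by
    rw [natDegree_derivative, h2.2]
    omega
  have h4 := Polynomial.resultant_ne_zero _ _ hsep
  rw [h2.2, h3] at h4
  exact h4 h1.symm

end

section
variable {R : Type} [CommRing R] {k l r : ℕ}

/-- a polynomial in `x_1, ..., x_k` as a polynomial in the `k + l + 1` variables `x, y, w` -/
noncomputable def inc (R : Type) [CommRing R] (k l : ℕ) :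
    MvPolynomial (Fin k) R →+* MvPolynomial (Fin (k + l + 1)) R :=
  (MvPolynomial.rename fun i : Fin k => (Fin.castAdd l i).castSucc : _ →ₐ[R] _).toRingHom

theorem inc_ev {κ : Type} [Field κ] (φ : R →+* κ) (t : Fin (k + l + 1) → κ) :
    (MvPolynomial.eval₂Hom φ t).comp (inc R k l) =
      MvPolynomial.eval₂Hom φ fun i => t (Fin.castAdd l i).castSucc := by
  apply MvPolynomial.ringHom_ext
  · intro z
    simp [inc]
  · intro i
    simp [inc]

end

open NumberField
open Pool.Agent.W353.FB (Fibration)

/-- The family of the smooth projective models of the curves `Y ^ 2 = a(x, X) + w ∏ (X - α_j(x))` of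
genus `g`, over the variety of the points `(x, y, w)` with `y_i ^ 2 = G_i(x) ≠ 0` for which the
curve is smooth. -/
noncomputable def pencil {K : Type} [Field K] {k l r : ℕ} (g : ℕ)
    (G : Fin l → MvPolynomial (Fin k) (𝓞 K)) (a : (MvPolynomial (Fin k) (𝓞 K))[X])
    (α : Fin r → MvPolynomial (Fin k) (𝓞 K)) : Fibration K where
  l := k + l + 1
  eqBase := Set.range fun i : Fin l =>
    MvPolynomial.X (Fin.natAdd k i).castSucc ^ 2 - inc (𝓞 K) k l (G i)
  h := 2 * (∏ i, inc (𝓞 K) k l (G i)) *
    dsc g a α (inc (𝓞 K) k l) (MvPolynomial.X (Fin.last (k + l)))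
  m := k + 1
  n := g + 3
  eqFibre := modelEquations g (pen a α (inc (𝓞 K) k l) (MvPolynomial.X (Fin.last (k + l))))
  r := 1
  one_le := le_rfl

end Pool.Agent.Y707.PC
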