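import Pool.Agent.Y707.PC.Loc

/-! Away from `h` the coordinate ring of `y ^ 2 = a(x) + ω h(x)` over `M(ω)` is a principal ideal
domain. -/

set_option autoImplicit false

namespace Pool.Agent.Y707.PC

open Polynomial Pool.Agent.TH943.HJ

section
variable {M L : Type} [Field M] [Field L] [Algebra M L] {a h : M[X]} {ω : L}

/-- homogenization -/
noncomputable def hgm (a h p : M[X]) (N : ℕ) : M[X][X] :=
  ∑ i ∈ Finset.range (N + 1), C (C (p.coeff i) * h ^ (N - i)) * (X ^ 2 - C a) ^ i

theorem up_C (c : M) : (up (C c) : L[X]) = C (algebraMap M L c) := Polynomial.map_C _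

theorem up_pow (p : M[X]) (n : ℕ) : (up (p ^ n) : L[X]) = up p ^ n := Polynomial.map_pow _ _

theorem th_hgm (p : M[X]) {N : ℕ} (hN : p.natDegree ≤ N) :
    th (ff a h ω) (hgm a h p N) = pp (up h) ^ N * pp (C (aeval ω p)) := by
  unfold hgm
  rw [map_sum]
  have h1 : ∀ i ∈ Finset.range (N + 1),
      th (ff a h ω) (C (C (p.coeff i) * h ^ (N - i)) * (X ^ 2 - C a) ^ i) =
        pp (up h) ^ N * pp (C (algebraMap M L (p.coeff i) * ω ^ i)) := by
    intro i hi
    have hi' : i ≤ N := by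
      rw [Finset.mem_range] at hi
      omega
    have h2 : (pp (up h) : CR (ff a h ω)) ^ N = pp (up h) ^ (N - i) * pp (up h) ^ i := by
      rw [← pow_add]
      congr 1
      omega
    rw [map_mul, map_pow, ← rel, th_C, up_mul, up_C, up_pow, map_mul, map_pow, C_mul, C_pow,
      map_mul, map_pow, mul_pow, h2]
    ring
  rw [Finset.sum_congr rfl h1, ← Finset.mul_sum, ← map_sum, ← map_sum]
  congr 3
  rw [aeval_eq_sum_range' (Nat.lt_succ_of_le hN)]
  exact Finset.sum_congr rfl fun i _ => by rw [Algebra.smul_def]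

/-- the ring away from `h` -/
abbrev Bh (a h : M[X]) (ω : L) : Type := Localization.Away (pp (up h) : CR (ff a h ω))

/-- the elements which become units away from `h` -/
noncomputable def Mh (a h : M[X]) (ω : L) : Submonoid M[X][X] :=
  (IsUnit.submonoid (Bh a h ω)).comap
    ((algebraMap (CR (ff a h ω)) (Bh a h ω)).comp (th (ff a h ω)))

theorem mem_Mh {m : M[X][X]} : m ∈ Mh a h ω ↔
    IsUnit (algebraMap (CR (ff a h ω)) (Bh a h ω) (th (ff a h ω) m)) := Iff.rfl

theorem unit_h : IsUnit (algebraMap (CR (ff a h ω)) (Bh a h ω) (pp (up h))) :=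
  IsLocalization.Away.algebraMap_isUnit _

theorem unit_C {c : L} (hc : c ≠ 0) :
    IsUnit (algebraMap (CR (ff a h ω)) (Bh a h ω) (pp (C c))) := by
  apply IsUnit.map
  apply IsUnit.map
  exact isUnit_C.2 (isUnit_iff_ne_zero.2 hc)

/-- a fraction -/
def Den (a h : M[X]) (ω : L) (z : CR (ff a h ω)) : Prop :=
  ∃ m ∈ Mh a h ω, ∃ s : M[X][X], th (ff a h ω) m * z = th (ff a h ω) s

theorem Den.add {y z : CR (ff a h ω)} (hy : Den a h ω y) (hz : Den a h ω z) :
    Den a h ω (y + z) := by
  obtain ⟨m, hm, s, h1⟩ := hy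
  obtain ⟨m', hm', s', h2⟩ := hz
  refine ⟨m * m', mul_mem hm hm', m' * s + m * s', ?_⟩
  rw [map_mul, map_add, map_mul, map_mul, ← h1, ← h2]
  ring

theorem Den.mul {y z : CR (ff a h ω)} (hy : Den a h ω y) (hz : Den a h ω z) :
    Den a h ω (y * z) := by
  obtain ⟨m, hm, s, h1⟩ := hy
  obtain ⟨m', hm', s', h2⟩ := hz
  refine ⟨m * m', mul_mem hm hm', s * s', ?_⟩
  rw [map_mul, map_mul, ← h1, ← h2]
  ring

theorem den_th (s : M[X][X]) : Den a h ω (th (ff a h ω) s) :=
  ⟨1, one_mem _, s, by rw [map_one, one_mul]⟩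

theorem den_C (hL : ∀ z : L, ∃ p q : M[X], aeval ω q ≠ 0 ∧ z * aeval ω q = aeval ω p) (c : L) :
    Den a h ω (pp (C c)) := by
  obtain ⟨p, q, hq, hz⟩ := hL c
  refine ⟨hgm a h q (max p.natDegree q.natDegree), ?_,
    hgm a h p (max p.natDegree q.natDegree), ?_⟩
  · rw [mem_Mh, th_hgm q (le_max_right _ _), map_mul, map_pow]
    exact (unit_h.pow _).mul (unit_C hq)
  · rw [th_hgm q (le_max_right _ _), th_hgm p (le_max_left _ _), ← hz, C_mul, map_mul]
    ring

theorem den_pp (hL : ∀ z : L, ∃ p q : M[X], aeval ω q ≠ 0 ∧ z * aeval ω q = aeval ω p)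
    (p : L[X]) : Den a h ω (pp p) := by
  induction p using Polynomial.induction_on with
  | C c => exact den_C hL c
  | add p q hp hq =>
    rw [map_add]
    exact hp.add hq
  | monomial n c hp =>
    have h1 : (C c * X ^ (n + 1) : L[X]) = C c * X ^ n * X := by ring
    rw [h1, map_mul]
    refine hp.mul ?_
    have h2 : (X : L[X]) = up (X : M[X]) := by
      rw [up_def, map_X]
    rw [h2, ← th_C]
    exact den_th _

theorem den_all (hL : ∀ z : L, ∃ p q : M[X], aeval ω q ≠ 0 ∧ z * aeval ω q = aeval ω p)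
    (z : CR (ff a h ω)) : Den a h ω z := by
  obtain ⟨p, q, rfl⟩ := exists_el z
  unfold el
  refine (den_pp hL p).add ((den_pp hL q).mul ?_)
  rw [← th_X (M := M)]
  exact den_th _

/-- **The localization is a principal ideal domain.** -/
theorem pid_Bh (hω : Transcendental M ω)
    (hL : ∀ z : L, ∃ p q : M[X], aeval ω q ≠ 0 ∧ z * aeval ω q = aeval ω p)
    (ha : Odd a.natDegree) (hd : h.natDegree < a.natDegree) (hh : h ≠ 0)
    [hded : IsDedekindDomain (CR (ff a h ω))] : IsPrincipalIdealRing (Bh a h ω) := by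
  have hne : (pp (up h) : CR (ff a h ω)) ≠ 0 := fun h0 =>
    up_ne hh ((injective_iff_map_eq_zero _).1 pp_inj _ h0)
  have hle : Submonoid.powers (pp (up h) : CR (ff a h ω)) ≤ nonZeroDivisors _ :=
    powers_le_nonZeroDivisors_of_noZeroDivisors hne
  have hD0 : IsDomain (Bh a h ω) := IsLocalization.isDomain_localization hle
  have hD : IsDedekindDomain (Bh a h ω) := IsLocalization.isDedekindDomain _ hle _
  have hinj : Function.Injective (algebraMap (CR (ff a h ω)) (Bh a h ω)) :=
    IsLocalization.injective _ hle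
  let _ : Algebra M[X][X] (Bh a h ω) :=
    RingHom.toAlgebra ((algebraMap (CR (ff a h ω)) (Bh a h ω)).comp (th (ff a h ω)))
  have hal : ∀ p : M[X][X], algebraMap M[X][X] (Bh a h ω) p =
      algebraMap (CR (ff a h ω)) (Bh a h ω) (th (ff a h ω) p) := fun p => rfl
  have hloc : IsLocalization (Mh a h ω) (Bh a h ω) := by
    refine ⟨⟨fun m => m.2, fun z => ?_, fun {x y} hxy => ?_⟩⟩
    · obtain ⟨n, b, hb⟩ := IsLocalization.Away.surj (pp (up h) : CR (ff a h ω)) z
      obtain ⟨m, hm, s, hs⟩ := den_all hL b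
      have hm' : C (h ^ n) * m ∈ Mh a h ω := by
        refine mul_mem ?_ hm
        rw [mem_Mh, th_C, up_pow, map_pow, map_pow]
        exact unit_h.pow n
      refine ⟨(s, ⟨_, hm'⟩), ?_⟩
      show z * algebraMap M[X][X] (Bh a h ω) (C (h ^ n) * m) = algebraMap M[X][X] (Bh a h ω) s
      rw [hal, hal, ← hs, map_mul, map_mul, map_mul, th_C, up_pow, map_pow, map_pow, ← hb]
      ring
    · rw [hal, hal] at hxy
      refine ⟨1, ?_⟩
      rw [th_inj hω ha hd hh (hinj hxy)]
  have hufd : UniqueFactorizationMonoid (Bh a h ω) :=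
    UniqueFactorizationMonoid.of_isLocalization (Mh a h ω) (Bh a h ω)
  exact IsPrincipalIdealRing.of_isDedekindDomain_of_uniqueFactorizationMonoid _

end

end Pool.Agent.Y707.PC
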