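import Pool.Agent.Y707.PC.Part
import Pool.Agent.Y707.PC.Desc

/-! The rank of the representation of a linear pencil. -/

set_option autoImplicit false
set_option maxHeartbeats 400000

namespace Pool.Agent.Y707.PC

open Polynomial Finset NumberField IsDedekindDomain
open Pool.Agent.W353.TD (rank)

section
variable {R : Type} [CommRing R] [IsDomain R] {k l : ℕ}

theorem IsConstSq.mul {p q : MvPolynomial (Fin k) R} (hp : IsConstSq p) (hq : IsConstSq q) :
    IsConstSq (p * q) := by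
  obtain ⟨c, d, hc, hd, H, h⟩ := hp
  obtain ⟨c', d', hc', hd', H', h'⟩ := hq
  refine ⟨c * c', d * d', mul_ne_zero hc hc', mul_ne_zero hd hd', H * H', ?_⟩
  rw [MvPolynomial.C_mul, MvPolynomial.C_mul]
  linear_combination (MvPolynomial.C d' * q) * h + (MvPolynomial.C c * H ^ 2) * h'

open Classical in
/-- at most one twist -/
theorem twist_unique {G : Fin l → MvPolynomial (Fin k) R}
    (hG : ∀ S : Finset (Fin l), S.Nonempty → ¬ IsConstSq (∏ i ∈ S, G i)) (hG0 : ∀ i, G i ≠ 0)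
    {b : MvPolynomial (Fin k) R} (hb : b ≠ 0) {S S' : Finset (Fin l)}
    (h : IsConstSq (b * ∏ i ∈ S, G i)) (h' : IsConstSq (b * ∏ i ∈ S', G i)) : S = S' := by
  by_contra hne
  have h1 : (symmDiff S S').Nonempty := by
    rw [nonempty_iff_ne_empty]
    intro h0
    exact hne (symmDiff_eq_bot.1 h0)
  apply hG _ h1
  obtain ⟨c, d, hc, hd, H, h2⟩ := h.mul h'
  have e1 : (∏ i ∈ S, G i) * ∏ i ∈ S', G i = (∏ i ∈ S ∩ S', G i) ^ 2 * ∏ i ∈ symmDiff S S', G i := by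
    have e2 : ∏ i ∈ S, G i = (∏ i ∈ S ∩ S', G i) * ∏ i ∈ S \ S', G i := (prod_inter_mul_prod_diff _ _ _).symm
    have e3 : ∏ i ∈ S', G i = (∏ i ∈ S' ∩ S, G i) * ∏ i ∈ S' \ S, G i := (prod_inter_mul_prod_diff _ _ _).symm
    have e4 : ∏ i ∈ symmDiff S S', G i = (∏ i ∈ S \ S', G i) * ∏ i ∈ S' \ S, G i := by
      rw [symmDiff_def, sup_eq_union, prod_union]
      exact disjoint_sdiff_sdiff
    rw [e2, e3, e4, inter_comm S' S]
    ring
  refine IsConstSq.descend (q := b * ∏ i ∈ S ∩ S', G i) (H := H) (f := c) (e := d)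
    (mul_ne_zero hb (prod_ne_zero_iff.2 fun i _ => hG0 i)) hc hd ?_
  linear_combination h2 - (MvPolynomial.C d * b ^ 2) * e1

end

section
variable {K : Type} [Field K] [NumberField K] {k l r : ℕ}
  {G : Fin l → MvPolynomial (Fin k) (𝓞 K)}
  {a : (MvPolynomial (Fin k) (𝓞 K))[X]} {α : Fin r → MvPolynomial (Fin k) (𝓞 K)}

theorem rank_eq (haα : ∀ j, a.eval (α j) ≠ 0) (hG0 : ∀ i, G i ≠ 0)
    (hG : ∀ S : Finset (Fin l), S.Nonempty → ¬ IsConstSq (∏ i ∈ S, G i))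
    {δ : Fin r × Finset (Fin l) → 𝓞 K} {y : JJ' G a α → AlgebraicClosure K}
    {hy : ∀ z, y z ^ 2 = algebraMap K (AlgebraicClosure K) (δ z.1 : K)} {hy0 : ∀ z, y z ≠ 0}
    (hδ : ∀ z, IsConstSq (pz G a α z) → δ z ≠ 0 ∧
        ∃ (d : 𝓞 K) (H : MvPolynomial (Fin k) (𝓞 K)), d ≠ 0 ∧ H ≠ 0 ∧
          MvPolynomial.C (d ^ 2) * pz G a α z = MvPolynomial.C (δ z) * H ^ 2)
    (E : IntermediateField K (AlgebraicClosure K)) :
    rank (rp hy hy0) E = Nat.card {j : Fin r // ∃ S : Finset (Fin l), IsSquare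
      (MvPolynomial.map ((algebraMap K E).comp (algebraMap (𝓞 K) K))
        (a.eval (α j) * ∏ i ∈ S, G i))} := by
  classical
  rw [rp_rank]
  have hiff : ∀ z : JJ' G a α, y z ∈ E ↔ IsSquare
      (MvPolynomial.map ((algebraMap K E).comp (algebraMap (𝓞 K) K)) (pz G a α z.1)) := by
    intro z
    obtain ⟨-, d, H, hd, hH, h⟩ := hδ z.1 z.2
    exact mem_iff_sq hd hH h (hy z) E
  let f : {z : JJ' G a α // y z ∈ E} → {j : Fin r // ∃ S : Finset (Fin l), IsSquare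
      (MvPolynomial.map ((algebraMap K E).comp (algebraMap (𝓞 K) K))
        (a.eval (α j) * ∏ i ∈ S, G i))} := fun z => ⟨z.1.1.1, z.1.1.2, (hiff z.1).1 z.2⟩
  refine Nat.card_congr (Equiv.ofBijective f ⟨?_, ?_⟩)
  · rintro ⟨⟨⟨j, S⟩, h1⟩, h2⟩ ⟨⟨⟨j', S'⟩, h1'⟩, h2'⟩ h
    have hj : j = j' := congrArg Subtype.val h
    subst hj
    have hS : S = S' := twist_unique hG hG0 (haα j) h1 h1'
    subst hS
    rfl
  · rintro ⟨j, S, hS⟩
    have h1 : IsConstSq (pz G a α (j, S)) := by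
      obtain ⟨P, hP⟩ := hS
      refine isConstSq_of_sq (pz_ne haα hG0 _)
        (P := MvPolynomial.map (algebraMap E (AlgebraicClosure K)) P) ?_
      rw [← map_pow, sq, ← hP, MvPolynomial.map_map]
      rfl
    exact ⟨⟨⟨(j, S), h1⟩, (hiff _).2 hS⟩, rfl⟩

end

end Pool.Agent.Y707.PC
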