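import Pool.Agent.Y707.PC.Fib

/-! The fibre averages of a linear pencil. -/

set_option autoImplicit false
set_option maxHeartbeats 400000

namespace Pool.Agent.Y707.PC

open Polynomial Finset NumberField
open Pool.Agent.Y707.PH (IsEigen)
open Pool.Agent.W353.FB (Fibration IsTrace)

section
variable {κ : Type} {k l : ℕ}

/-- coordinates -/
def ptE (κ : Type) (k l : ℕ) : ((Fin k → κ) × (Fin l → κ) × κ) ≃ (Fin (k + l + 1) → κ) where
  toFun z := Fin.snoc (Fin.append z.1 z.2.1) z.2.2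
  invFun t := (fun i => t (Fin.castAdd l i).castSucc, fun i => t (Fin.natAdd k i).castSucc,
    t (Fin.last _))
  left_inv z := by
    refine Prod.ext ?_ (Prod.ext ?_ ?_)
    · funext i
      show (Fin.snoc (Fin.append z.1 z.2.1) z.2.2 : Fin (k + l + 1) → κ)
        (Fin.castAdd l i).castSucc = z.1 i
      rw [Fin.snoc_castSucc, Fin.append_left]
    · funext i
      show (Fin.snoc (Fin.append z.1 z.2.1) z.2.2 : Fin (k + l + 1) → κ)
        (Fin.natAdd k i).castSucc = z.2.1 i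
      rw [Fin.snoc_castSucc, Fin.append_right]
    · show (Fin.snoc (Fin.append z.1 z.2.1) z.2.2 : Fin (k + l + 1) → κ) (Fin.last _) = z.2.2
      rw [Fin.snoc_last]
  right_inv t := by
    show (Fin.snoc (Fin.append (fun i => t (Fin.castAdd l i).castSucc)
      (fun i => t (Fin.natAdd k i).castSucc)) (t (Fin.last _)) : Fin (k + l + 1) → κ) = t
    funext i
    refine Fin.lastCases ?_ (fun j => ?_) i
    · rw [Fin.snoc_last]
    · rw [Fin.snoc_castSucc]
      refine Fin.addCases (fun j => ?_) (fun j => ?_) j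
      · rw [Fin.append_left]
      · rw [Fin.append_right]

theorem ptE_x (z : (Fin k → κ) × (Fin l → κ) × κ) (i : Fin k) :
    ptE κ k l z (Fin.castAdd l i).castSucc = z.1 i :=
  congrFun (congrArg Prod.fst ((ptE κ k l).symm_apply_apply z)) i

theorem ptE_y (z : (Fin k → κ) × (Fin l → κ) × κ) (i : Fin l) :
    ptE κ k l z (Fin.natAdd k i).castSucc = z.2.1 i :=
  congrFun (congrArg (fun y => y.2.1) ((ptE κ k l).symm_apply_apply z)) i

theorem ptE_w (z : (Fin k → κ) × (Fin l → κ) × κ) : ptE κ k l z (Fin.last _) = z.2.2 :=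
  congrArg (fun y => y.2.2) ((ptE κ k l).symm_apply_apply z)

open Classical in
theorem card_sqrts [Field κ] [Fintype κ] (h2 : ringChar κ ≠ 2) (c : Fin l → κ) :
    (∑ y : Fin l → κ, if ∀ i, y i ^ 2 = c i then (1 : ℝ) else 0) = ∏ i, (1 + ch (c i)) := by
  have h1 : ∀ b : κ, (∑ y : κ, if y ^ 2 = b then (1 : ℝ) else 0) = 1 + ch b := by
    intro b
    have h3 := quadraticChar_card_sqrts h2 b
    rw [sum_boole]
    unfold ch
    have h4 : {x : κ | x ^ 2 = b}.toFinset = univ.filter fun x => x ^ 2 = b := by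
      ext x
      simp
    rw [h4] at h3
    have h5 : (((univ.filter fun x : κ => x ^ 2 = b).card : ℤ) : ℝ) = (quadraticChar κ b + 1 : ℤ) := by
      rw [h3]
    push_cast at h5
    linarith
  simp only [← h1]
  rw [prod_univ_sum, Fintype.piFinset_univ]
  refine sum_congr rfl fun y _ => ?_
  by_cases h : ∀ i, y i ^ 2 = c i
  · rw [if_pos h, prod_eq_one fun i _ => if_pos (h i)]
  · rw [if_neg h]
    push Not at h
    obtain ⟨i, hi⟩ := h
    exact (prod_eq_zero (mem_univ i) (if_neg hi)).symm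

end

section
variable {K : Type} [Field K] {k l r g : ℕ} {G : Fin l → MvPolynomial (Fin k) (𝓞 K)}
  {a : (MvPolynomial (Fin k) (𝓞 K))[X]} {α : Fin r → MvPolynomial (Fin k) (𝓞 K)}
  {κ : Type} [Field κ]

variable (g G a α) in
/-- the points of the base -/
def pts (φ : 𝓞 K →+* κ) : Set (Fin (k + l + 1) → κ) := (pencil g G a α).points φ

theorem mem_points (φ : 𝓞 K →+* κ) (z : (Fin k → κ) × (Fin l → κ) × κ) :
    (ptE κ k l z ∈ pts g G a α φ) ↔
      (∀ i, z.2.1 i ^ 2 = MvPolynomial.eval₂Hom φ z.1 (G i)) ∧ (2 : κ) ≠ 0 ∧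
      (∀ i, MvPolynomial.eval₂Hom φ z.1 (G i) ≠ 0) ∧
      dsc g a α (MvPolynomial.eval₂Hom φ z.1) z.2.2 ≠ 0 := by
  have hx : (fun i => ptE κ k l z (Fin.castAdd l i).castSucc) = z.1 := by
    funext i
    exact ptE_x z i
  have hinc : ∀ p, MvPolynomial.eval₂Hom φ (ptE κ k l z) (inc (𝓞 K) k l p) =
      MvPolynomial.eval₂Hom φ z.1 p := by
    intro p
    have := congrArg (fun θ : MvPolynomial (Fin k) (𝓞 K) →+* κ => θ p) (inc_ev (l := l) φ (ptE κ k l z))
    rw [hx] at this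
    exact this
  have h1 : ∀ i, MvPolynomial.eval₂ φ (ptE κ k l z)
      (MvPolynomial.X (Fin.natAdd k i).castSucc ^ 2 - inc (𝓞 K) k l (G i)) =
      z.2.1 i ^ 2 - MvPolynomial.eval₂Hom φ z.1 (G i) := by
    intro i
    have e : MvPolynomial.eval₂ φ (ptE κ k l z)
        (MvPolynomial.X (Fin.natAdd k i).castSucc ^ 2 - inc (𝓞 K) k l (G i)) =
        MvPolynomial.eval₂Hom φ (ptE κ k l z)
        (MvPolynomial.X (Fin.natAdd k i).castSucc ^ 2 - inc (𝓞 K) k l (G i)) := rfl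
    rw [e, map_sub, map_pow, hinc, MvPolynomial.eval₂Hom_X', ptE_y]
  have h2 : MvPolynomial.eval₂ φ (ptE κ k l z) (pencil g G a α).h =
      2 * (∏ i, MvPolynomial.eval₂Hom φ z.1 (G i)) *
        dsc g a α (MvPolynomial.eval₂Hom φ z.1) z.2.2 := by
    have e : MvPolynomial.eval₂ φ (ptE κ k l z) (pencil g G a α).h =
        MvPolynomial.eval₂Hom φ (ptE κ k l z) (2 * (∏ i, inc (𝓞 K) k l (G i)) *
          dsc g a α (inc (𝓞 K) k l) (MvPolynomial.X (Fin.last (k + l)))) := rfl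
    rw [e, map_mul, map_mul, map_ofNat, map_prod, dsc_map, MvPolynomial.eval₂Hom_X', ptE_w,
      inc_ev, hx]
    simp only [hinc]
  constructor
  · rintro ⟨h3, h4'⟩
    have h4 : 2 * (∏ i, MvPolynomial.eval₂Hom φ z.1 (G i)) *
        dsc g a α (MvPolynomial.eval₂Hom φ z.1) z.2.2 ≠ 0 := fun h0 => h4' (h2.trans h0)
    refine ⟨fun i => ?_, left_ne_zero_of_mul (left_ne_zero_of_mul h4), fun i => ?_,
      right_ne_zero_of_mul h4⟩
    · have := h3 _ ⟨i, rfl⟩
      exact sub_eq_zero.1 ((h1 i).symm.trans this)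
    · have h5 := right_ne_zero_of_mul (left_ne_zero_of_mul h4)
      rw [prod_ne_zero_iff] at h5
      exact h5 i (mem_univ i)
  · rintro ⟨h3, h4, h5, h6⟩
    refine ⟨?_, ?_⟩
    · rintro _ ⟨i, rfl⟩
      refine (h1 i).trans ?_
      rw [h3, sub_self]
    · intro h0
      exact mul_ne_zero (mul_ne_zero h4 (prod_ne_zero_iff.2 fun i _ => h5 i)) h6 (h2.symm.trans h0)

variable [Fintype κ]

variable (G) in
/-- the number of the `y` -/
noncomputable def nx (φ : 𝓞 K →+* κ) (x : Fin k → κ) : ℝ :=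
  ∏ i, (1 + ch (MvPolynomial.eval₂Hom φ x (G i)))

theorem nx_bd (φ : 𝓞 K →+* κ) (x : Fin k → κ) : 0 ≤ nx G φ x ∧ nx G φ x ≤ 2 ^ l := by
  have h : ∀ i, 0 ≤ 1 + ch (MvPolynomial.eval₂Hom φ x (G i)) ∧
      1 + ch (MvPolynomial.eval₂Hom φ x (G i)) ≤ 2 := by
    intro i
    have := abs_le.1 (ch_abs (MvPolynomial.eval₂Hom φ x (G i)))
    constructor <;> linarith
  refine ⟨prod_nonneg fun i _ => (h i).1, ?_⟩
  refine (prod_le_prod (fun i _ => (h i).1) fun i _ => (h i).2).trans ?_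
  simp

open Classical in
theorem sum_points (φ : 𝓞 K →+* κ) (h2 : ringChar κ ≠ 2) (T : (Fin k → κ) → κ → ℝ) :
    ∑ᶠ t ∈ pts g G a α φ,
      T (fun i : Fin k => t (Fin.castAdd l i).castSucc) (t (Fin.last (k + l))) =
    ∑ x : Fin k → κ, if ∀ i, MvPolynomial.eval₂Hom φ x (G i) ≠ 0 then
      nx G φ x * ∑ w : κ, (if dsc g a α (MvPolynomial.eval₂Hom φ x) w ≠ 0 then T x w else 0)
      else 0 := by
  have h20 : (2 : κ) ≠ 0 := Ring.two_ne_zero h2
  rw [finsum_mem_def, finsum_eq_sum_of_fintype]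
  have h3 : (∑ t : Fin (k + l + 1) → κ, (pts g G a α φ).indicator
      (fun t => T (fun i : Fin k => t (Fin.castAdd l i).castSucc) (t (Fin.last (k + l)))) t) =
      ∑ z : (Fin k → κ) × (Fin l → κ) × κ, if ((∀ i, z.2.1 i ^ 2 =
        MvPolynomial.eval₂Hom φ z.1 (G i)) ∧ (∀ i, MvPolynomial.eval₂Hom φ z.1 (G i) ≠ 0) ∧
        dsc g a α (MvPolynomial.eval₂Hom φ z.1) z.2.2 ≠ 0) then T z.1 z.2.2 else 0 := by
    refine ((ptE κ k l).sum_comp _).symm.trans (sum_congr rfl fun z _ => ?_)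
    have hx : (fun i : Fin k => ptE κ k l z (Fin.castAdd l i).castSucc) = z.1 := by
      funext i
      exact ptE_x z i
    by_cases hz : ptE κ k l z ∈ pts g G a α φ
    · rw [Set.indicator_of_mem hz, hx, ptE_w]
      rw [mem_points] at hz
      rw [if_pos ⟨hz.1, hz.2.2⟩]
    · rw [Set.indicator_of_notMem hz]
      rw [mem_points] at hz
      rw [if_neg fun h => hz ⟨h.1, h20, h.2⟩]
  rw [h3, Fintype.sum_prod_type]
  refine sum_congr rfl fun x _ => ?_
  rw [Fintype.sum_prod_type]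
  by_cases hG : ∀ i, MvPolynomial.eval₂Hom φ x (G i) ≠ 0
  · rw [if_pos hG, nx, ← card_sqrts h2, sum_mul]
    refine sum_congr rfl fun y _ => ?_
    rw [mul_sum]
    refine sum_congr rfl fun w _ => ?_
    by_cases h4 : ∀ i, y i ^ 2 = MvPolynomial.eval₂Hom φ x (G i)
    · rw [if_pos h4, one_mul]
      by_cases h5 : dsc g a α (MvPolynomial.eval₂Hom φ x) w ≠ 0
      · rw [if_pos h5, if_pos ⟨h4, hG, h5⟩]
      · rw [if_neg h5, if_neg fun h => h5 h.2.2]
    · rw [if_neg h4, zero_mul, if_neg fun h => h4 h.1]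
  · rw [if_neg hG]
    refine sum_eq_zero fun y _ => sum_eq_zero fun w _ => ?_
    rw [if_neg fun h => hG h.2.1]

theorem points_char2 (φ : 𝓞 K →+* κ) (h2 : ringChar κ = 2) :
    pts g G a α φ = ∅ := by
  have h20 : (2 : κ) = 0 := by
    have h3 : ((ringChar κ : ℕ) : κ) = 0 := ringChar.Nat.cast_ringChar
    rw [h2] at h3
    exact_mod_cast h3
  refine Set.eq_empty_iff_forall_notMem.2 fun t ht => ?_
  obtain ⟨z, rfl⟩ := (ptE κ k l).surjective t
  rw [mem_points] at ht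
  exact ht.2.1 h20

end

end Pool.Agent.Y707.PC
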